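import Pool.Agent.H67.Supp

/-!
Interpolation form of affine pieces, and triangle maps.
-/

open Filter Topology Set

namespace Pool.Agent.H67

/-- `f` is affine on `[a,b]` taking `a` to `c` and `b` to `d` (interpolation form). -/
def AffOn (f : G) (a b c d : ℝ) : Prop :=
  ∀ t, a ≤ t → t ≤ b → f t * (b - a) = c * (b - t) + d * (t - a)

namespace AffOn

variable {f g : G} {a b c d e h : ℝ}

lemma left (hf : AffOn f a b c d) (hab : a < b) : f a = c := by
  have h1 := hf a le_rfl hab.le
  have h2 : (f a - c) * (b - a) = 0 := by linarith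
  rcases mul_eq_zero.mp h2 with h3 | h3
  · linarith
  · linarith

lemma right (hf : AffOn f a b c d) (hab : a < b) : f b = d := by
  have h1 := hf b hab.le le_rfl
  have h2 : (f b - d) * (b - a) = 0 := by linarith
  rcases mul_eq_zero.mp h2 with h3 | h3
  · linarith
  · linarith

lemma comp (hf : AffOn f a b c d) (hg : AffOn g c d e h) (hab : a < b) :
    AffOn (g * f) a b e h := by
  intro t h1 h2
  have hc := hf.left hab
  have hd := hf.right hab
  have hcd : c < d := by rw [← hc, ← hd]; exact f.strictMono hab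
  have h3 : c ≤ f t := by rw [← hc]; exact f.monotone h1
  have h4 : f t ≤ d := by rw [← hd]; exact f.monotone h2
  have h5 := hf t h1 h2
  have h6 := hg (f t) h3 h4
  have h7 : (g (f t) * (b - a) - (e * (b - t) + h * (t - a))) * (d - c) = 0 := by
    linear_combination (b - a) * h6 + (h - e) * h5
  rcases mul_eq_zero.mp h7 with h8 | h8
  · simp only [mul_app]; linarith
  · linarith

lemma eq (hf : AffOn f a b c d) (hg : AffOn g a b c d) (hab : a < b) {t : ℝ}
    (h1 : a ≤ t) (h2 : t ≤ b) : f t = g t := by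
  have h3 := hf t h1 h2
  have h4 := hg t h1 h2
  have h5 : (f t - g t) * (b - a) = 0 := by linarith
  rcases mul_eq_zero.mp h5 with h6 | h6
  · linarith
  · linarith

lemma sub (hf : AffOn f a b c d) (hab : a < b) {a' b' : ℝ} (ha : a ≤ a') (hab' : a' ≤ b')
    (hb : b' ≤ b) : AffOn f a' b' (f a') (f b') := by
  intro t h1 h2
  have h3 := hf t (by linarith) (by linarith)
  have h4 := hf a' (by linarith) (by linarith)
  have h5 := hf b' (by linarith) (by linarith)
  have h6 : (f t * (b' - a') - (f a' * (b' - t) + f b' * (t - a'))) * (b - a) = 0 := by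
    linear_combination (b' - a') * h3 - (b' - t) * h4 - (t - a') * h5
  rcases mul_eq_zero.mp h6 with h7 | h7
  · linarith
  · linarith

/-- restriction with named values -/
lemma sub' (hf : AffOn f a b c d) (hab : a < b) {a' b' c' d' : ℝ} (ha : a ≤ a') (hab' : a' ≤ b')
    (hb : b' ≤ b) (hc : f a' = c') (hd : f b' = d') : AffOn f a' b' c' d' := by
  have := hf.sub hab ha hab' hb
  rwa [hc, hd] at this

lemma of_id (hf : ∀ t, a ≤ t → t ≤ b → f t = t) : AffOn f a b a b := by
  intro t h1 h2
  rw [hf t h1 h2]; ring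

lemma congr (hf : AffOn f a b c d) (hfg : ∀ t, a ≤ t → t ≤ b → g t = f t) :
    AffOn g a b c d := by
  intro t h1 h2
  rw [hfg t h1 h2]; exact hf t h1 h2

lemma inv (hf : AffOn f a b c d) (hab : a < b) : AffOn f⁻¹ c d a b := by
  intro t h1 h2
  have hc := hf.left hab
  have hd := hf.right hab
  have h3 : a ≤ f⁻¹ t := by rw [le_inv_apply, hc]; exact h1
  have h4 : f⁻¹ t ≤ b := by rw [inv_apply_le, hd]; exact h2
  have h5 := hf _ h3 h4
  rw [RelIso.apply_inv_self] at h5
  linarith

lemma of_slope {x y s : ℝ} (hf : ∀ t, x ≤ t → t ≤ y → f t = f x + s * (t - x)) (hxy : x ≤ y) :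
    AffOn f x y (f x) (f y) := by
  intro t h1 h2
  rw [hf t h1 h2, hf y hxy le_rfl]; ring

end AffOn

/-- global affine map as interpolation on a given interval -/
lemma exists_aff (a b c d : ℝ) (hab : a < b) (hcd : c < d) :
    ∃ h ∈ PLo, h a = c ∧ h b = d ∧ ∀ a' b', AffOn h a' b' (h a') (h b') := by
  obtain ⟨h, hm, h1, h2, h3⟩ := exists_interp a b c d hab hcd
  refine ⟨h, hm, h1, h2, ?_⟩
  intro a' b' t _ _
  rw [h3 t, h3 a', h3 b']
  ring

/-- triangle maps -/
structure IsTri (h : G) (p q q' r : ℝ) : Prop where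
  mem : h ∈ PLo
  left : ∀ t, t ≤ p → h t = t
  right : ∀ t, r ≤ t → h t = t
  a1 : AffOn h p q p q'
  a2 : AffOn h q r q' r

lemma exists_tri (p q q' r : ℝ) (h1 : p < q) (h2 : q < r) (h3 : p < q') (h4 : q' < r) :
    ∃ h, IsTri h p q q' r := by
  obtain ⟨A, hA, A1, A2, A3⟩ := exists_aff p q p q' h1 h3
  obtain ⟨B, hB, B1, B2, B3⟩ := exists_aff q r q' r h2 h4
  obtain ⟨C, hC, C1, C2⟩ := exists_glue PLo.one_mem hA p (by simpa using A1.symm)
  obtain ⟨D, hD, D1, D2⟩ := exists_glue hC hB q (by rw [C2 q h1.le, A2, B1])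
  obtain ⟨E, hE, E1, E2⟩ := exists_glue hD PLo.one_mem r (by rw [D2 r h2.le, B2]; rfl)
  refine ⟨E, hE, ?_, ?_, ?_, ?_⟩
  · intro t ht
    rw [E1 t (by linarith), D1 t (by linarith), C1 t ht]; rfl
  · intro t ht
    rw [E2 t ht]; rfl
  · have := A3 p q
    rw [A1, A2] at this
    refine this.congr fun t ht1 ht2 => ?_
    rw [E1 t (by linarith), D1 t ht2, C2 t ht1]
  · have := B3 q r
    rw [B1, B2] at this
    refine this.congr fun t ht1 ht2 => ?_
    rw [E1 t ht2, D2 t ht1]

lemma IsTri.q {h : G} {p q q' r : ℝ} (hh : IsTri h p q q' r) (h1 : p < q) : h q = q' :=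
  hh.a1.right h1

/-- two triangle maps with the same ends compose -/
lemma IsTri.comp {f g : G} {p q q' q'' r : ℝ} (hf : IsTri f p q q' r) (hg : IsTri g p q' q'' r)
    (h1 : p < q) (h2 : q < r) : IsTri (g * f) p q q'' r := by
  refine ⟨PLo.mul_mem hg.mem hf.mem, ?_, ?_, hf.a1.comp hg.a1 h1, hf.a2.comp hg.a2 h2⟩
  · intro t ht
    simp only [mul_app]; rw [hf.left t ht, hg.left t ht]
  · intro t ht
    simp only [mul_app]; rw [hf.right t ht, hg.right t ht]

lemma IsTri.inv {f : G} {p q q' r : ℝ} (hf : IsTri f p q q' r)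
    (h1 : p < q) (h2 : q < r) : IsTri f⁻¹ p q' q r := by
  refine ⟨PLo.inv_mem hf.mem, ?_, ?_, hf.a1.inv h1, hf.a2.inv h2⟩
  · intro t ht
    rw [inv_apply_eq, hf.left t ht]
  · intro t ht
    rw [inv_apply_eq, hf.right t ht]

lemma IsTri.unique {f g : G} {p q q' r : ℝ} (hf : IsTri f p q q' r) (hg : IsTri g p q q' r)
    (h1 : p < q) (h2 : q < r) : f = g := by
  ext t
  rcases le_total t p with h | h
  · rw [hf.left t h, hg.left t h]
  rcases le_total t q with h' | h'
  · exact hf.a1.eq hg.a1 h1 h h'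
  rcases le_total t r with h'' | h''
  · exact hf.a2.eq hg.a2 h2 h' h''
  · rw [hf.right t h'', hg.right t h'']

/-- A triangle map pushing far to the left is a commutator. -/
theorem tri_comm {p q q'' r P Q : ℝ} (h1 : p < q'') (h2 : q'' < q) (h3 : q < r)
    (hP : P < p) (hQ : r < Q)
    (hPeq : (q'' - p) * (q - P) = (r - q) * (p - P)) {h : G} (hh : IsTri h p q q'' r) :
    ∃ g y : G, g ∈ PLo ∧ y ∈ PLo ∧ g ∈ Rt P ∧ g ∈ Lt Q ∧ y ∈ Rt P ∧ y ∈ Lt Q ∧
      h = g * y * g⁻¹ * y⁻¹ := by
  obtain ⟨y, hy⟩ := exists_tri P q'' r Q (by linarith) (by linarith) (by linarith) hQ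
  have yP : y P = P := hy.left P le_rfl
  have yq : y q'' = r := hy.q (by linarith)
  have hPq : P < q'' := by linarith
  -- y p = q
  have yp : y p = q := by
    have e1 := hy.a1 p hP.le h1.le
    have e2 : (y p - q) * (q'' - P) = 0 := by linarith
    rcases mul_eq_zero.mp e2 with e3 | e3 <;> linarith
  set s := y⁻¹ q'' with hs
  have ys : y s = q'' := by rw [hs]; simp
  have hPs : P < s := by rw [hs, lt_inv_apply, yP]; exact hPq
  have hsp : s < p := by rw [hs, inv_apply_lt, yp]; exact h2
  obtain ⟨g, hg⟩ := exists_tri P s p q'' hPs (by linarith) hP h1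
  have gs : g s = p := hg.q hPs
  set u := y⁻¹ s with hu
  have yu : y u = s := by rw [hu]; simp
  have hPu : P < u := by rw [hu, lt_inv_apply, yP]; exact hPs
  have hus : u < s := by rw [hu, inv_apply_lt, ys]; linarith
  have gP : g P = P := hg.left P le_rfl
  have hgu : g u < p := by rw [← gs]; exact g.strictMono hus
  have hPgu : P < g u := by rw [← gP]; exact g.strictMono hPu
  -- y (g u) = p
  have ygu : y (g u) = p := by
    have e1 := hy.a1 (g u) hPgu.le (by linarith)
    have e2 := hy.a1 u hPu.le (by linarith)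
    have e3 := hg.a1 u hPu.le hus.le
    rw [yu] at e2
    have e4 : (y (g u) - p) * ((q'' - P) * (s - P)) = 0 := by
      linear_combination (s - P) * e1 + (r - P) * e3 - (p - P) * e2
    rcases mul_eq_zero.mp e4 with e5 | e5
    · linarith
    · have : 0 < (q'' - P) * (s - P) := mul_pos (by linarith) (by linarith)
      linarith
  have key : g * y = h * y * g := by
    ext t
    simp only [mul_app]
    rcases le_total t P with c1 | c1
    · rw [hy.left t c1, hg.left t c1, hy.left t c1, hh.left t (by linarith)]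
    rcases le_total t u with c2 | c2
    · -- both slopes multiply
      have a1 : AffOn y P u P s := hy.a1.sub' hPq le_rfl hPu.le (by linarith) yP yu
      have a2 : AffOn (g * y) P u P p := a1.comp hg.a1 hPu
      have a3 : AffOn g P u P (g u) := hg.a1.sub' hPs le_rfl hPu.le hus.le gP rfl
      have a4 : AffOn y P (g u) P p := hy.a1.sub' hPq le_rfl hPgu.le (by linarith) yP ygu
      have a5 : AffOn (y * g) P u P p := a3.comp a4 hPu
      have a6 := a2.eq a5 hPu c1 c2
      simp only [mul_app] at a6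
      rw [a6, hh.left]
      have : g t ≤ g u := g.monotone c2
      calc y (g t) ≤ y (g u) := y.monotone this
        _ = p := ygu
    rcases le_total t s with c3 | c3
    · have a1 : AffOn y u s s q'' := hy.a1.sub' hPq hPu.le hus.le (by linarith) yu ys
      have a2 : AffOn (g * y) u s p q'' := a1.comp hg.a2 hus
      have a3 : AffOn g u s (g u) p := hg.a1.sub' hPs hPu.le hus.le le_rfl rfl gs
      have a4 : AffOn y (g u) p p q := hy.a1.sub' hPq hPgu.le hgu.le h1.le ygu yp
      have a5 : AffOn (h * (y * g)) u s p q'' := (a3.comp a4 hus).comp hh.a1 hus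
      have a6 := a2.eq a5 hus c2 c3
      simpa only [mul_app] using a6
    rcases le_total t q'' with c4 | c4
    · have hsq : s < q'' := by linarith
      have a1 : AffOn y s q'' q'' r := hy.a1.sub' hPq hPs.le hsq.le le_rfl ys yq
      have e1 : g (y t) = y t := by
        apply hg.right
        rw [← ys]; exact y.monotone c3
      have a4 : AffOn y p q'' q r := hy.a1.sub' hPq hP.le h1.le le_rfl yp yq
      have a5 : AffOn (h * (y * g)) s q'' q'' r := (hg.a2.comp a4 hsq).comp hh.a2 hsq
      have a6 := a1.eq a5 hsq c3 c4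
      rw [e1]
      simpa only [mul_app] using a6
    · have e1 : r ≤ y t := by rw [← yq]; exact y.monotone c4
      rw [hg.right (y t) (by linarith), hg.right t c4, hh.right _ e1]
  refine ⟨g, y, hg.mem, hy.mem, hg.left, ?_, hy.left, hy.right, ?_⟩
  · exact fun t ht => hg.right t (by simp only [mem_Ici] at ht; linarith)
  · rw [key]; group

end Pool.Agent.H67
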