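import Mathlib

/-!
Piecewise affine increasing homeomorphisms of the line: a working subgroup of the order
isomorphisms of the reals, cut out by one sided germs, with gluing lemmas.
-/

open Filter Topology Set

namespace Pool.Agent.H67

/-- increasing self-homeomorphisms of the line -/
abbrev G := ℝ ≃o ℝ

/-- `f` is affine just to the right of `x`. -/
def GermR (f : ℝ → ℝ) (x : ℝ) : Prop :=
  ∃ a : ℝ, 0 < a ∧ ∀ᶠ t in 𝓝[≥] x, f t = f x + a * (t - x)

/-- `f` is affine just to the left of `x`. -/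
def GermL (f : ℝ → ℝ) (x : ℝ) : Prop :=
  ∃ a : ℝ, 0 < a ∧ ∀ᶠ t in 𝓝[≤] x, f t = f x + a * (t - x)

lemma tendsto_right (f : G) (x : ℝ) : Tendsto f (𝓝[≥] x) (𝓝[≥] (f x)) := by
  have h : ContinuousWithinAt f (Ici x) x := f.continuous.continuousWithinAt
  exact h.tendsto_nhdsWithin (fun t ht => f.monotone ht)

lemma tendsto_left (f : G) (x : ℝ) : Tendsto f (𝓝[≤] x) (𝓝[≤] (f x)) := by
  have h : ContinuousWithinAt f (Iic x) x := f.continuous.continuousWithinAt
  exact h.tendsto_nhdsWithin (fun t ht => f.monotone ht)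

lemma GermR.comp {f g : G} {x : ℝ} (hg : GermR g x) (hf : GermR f (g x)) : GermR (f * g : G) x := by
  obtain ⟨a, ha, h1⟩ := hg
  obtain ⟨b, hb, h2⟩ := hf
  refine ⟨b * a, mul_pos hb ha, ?_⟩
  have h3 := (tendsto_right g x).eventually h2
  filter_upwards [h1, h3] with t h4 h5
  simp only [RelIso.coe_mul, Function.comp_apply]
  rw [h5, h4]; ring

lemma GermL.comp {f g : G} {x : ℝ} (hg : GermL g x) (hf : GermL f (g x)) : GermL (f * g : G) x := by
  obtain ⟨a, ha, h1⟩ := hg
  obtain ⟨b, hb, h2⟩ := hf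
  refine ⟨b * a, mul_pos hb ha, ?_⟩
  have h3 := (tendsto_left g x).eventually h2
  filter_upwards [h1, h3] with t h4 h5
  simp only [RelIso.coe_mul, Function.comp_apply]
  rw [h5, h4]; ring

lemma GermR.inv {f : G} {x : ℝ} (hf : GermR f (f⁻¹ x)) : GermR (f⁻¹ : G) x := by
  obtain ⟨a, ha, h1⟩ := hf
  refine ⟨a⁻¹, inv_pos.mpr ha, ?_⟩
  have h3 := (tendsto_right f⁻¹ x).eventually h1
  filter_upwards [h3] with t h4
  simp only [RelIso.apply_inv_self] at h4
  field_simp
  linarith

lemma GermL.inv {f : G} {x : ℝ} (hf : GermL f (f⁻¹ x)) : GermL (f⁻¹ : G) x := by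
  obtain ⟨a, ha, h1⟩ := hf
  refine ⟨a⁻¹, inv_pos.mpr ha, ?_⟩
  have h3 := (tendsto_left f⁻¹ x).eventually h1
  filter_upwards [h3] with t h4
  simp only [RelIso.apply_inv_self] at h4
  field_simp
  linarith

/-- The piecewise affine group, by germs. -/
def PLo : Subgroup G where
  carrier := {f | ∀ x, GermR f x ∧ GermL f x}
  mul_mem' := by
    intro f g hf hg x
    exact ⟨(hg x).1.comp (hf (g x)).1, (hg x).2.comp (hf (g x)).2⟩
  one_mem' := by
    intro x
    refine ⟨⟨1, one_pos, Eventually.of_forall fun t => ?_⟩,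
      ⟨1, one_pos, Eventually.of_forall fun t => ?_⟩⟩ <;> simp
  inv_mem' := by
    intro f hf x
    exact ⟨(hf _).1.inv, (hf _).2.inv⟩

lemma mem_PLo {f : G} : f ∈ PLo ↔ ∀ x, GermR f x ∧ GermL f x := Iff.rfl

lemma GermR.congr {f g : ℝ → ℝ} {x : ℝ} (h : GermR f x) (hx : f x = g x)
    (hfg : ∀ᶠ t in 𝓝[≥] x, f t = g t) : GermR g x := by
  obtain ⟨a, ha, h1⟩ := h
  refine ⟨a, ha, ?_⟩
  filter_upwards [h1, hfg] with t h2 h3
  rw [← h3, h2, hx]

lemma GermL.congr {f g : ℝ → ℝ} {x : ℝ} (h : GermL f x) (hx : f x = g x)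
    (hfg : ∀ᶠ t in 𝓝[≤] x, f t = g t) : GermL g x := by
  obtain ⟨a, ha, h1⟩ := h
  refine ⟨a, ha, ?_⟩
  filter_upwards [h1, hfg] with t h2 h3
  rw [← h3, h2, hx]

/-- interval form of the right germ -/
lemma GermR.exists {f : ℝ → ℝ} {x : ℝ} (h : GermR f x) :
    ∃ a > 0, ∃ y > x, ∀ t, x ≤ t → t ≤ y → f t = f x + a * (t - x) := by
  obtain ⟨a, ha, h1⟩ := h
  rw [Filter.Eventually, mem_nhdsGE_iff_exists_Icc_subset] at h1
  obtain ⟨y, hy, h2⟩ := h1
  exact ⟨a, ha, y, hy, fun t h3 h4 => h2 ⟨h3, h4⟩⟩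

lemma GermL.exists {f : ℝ → ℝ} {x : ℝ} (h : GermL f x) :
    ∃ a > 0, ∃ y < x, ∀ t, y ≤ t → t ≤ x → f t = f x + a * (t - x) := by
  obtain ⟨a, ha, h1⟩ := h
  rw [Filter.Eventually, mem_nhdsLE_iff_exists_Icc_subset] at h1
  obtain ⟨y, hy, h2⟩ := h1
  exact ⟨a, ha, y, hy, fun t h3 h4 => h2 ⟨h3, h4⟩⟩

/-! ### Gluing two elements at a point -/

/-- gluing along a point -/
theorem exists_glue {f g : G} (hf : f ∈ PLo) (hg : g ∈ PLo) (x : ℝ) (hx : f x = g x) :
    ∃ h ∈ PLo, (∀ t, t ≤ x → h t = f t) ∧ (∀ t, x ≤ t → h t = g t) := by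
  let F : ℝ → ℝ := fun t => if t ≤ x then f t else g t
  have F1 : ∀ t, t ≤ x → F t = f t := fun t ht => if_pos ht
  have F2 : ∀ t, x ≤ t → F t = g t := by
    intro t ht
    rcases eq_or_lt_of_le ht with h | h
    · subst h; rw [F1 _ le_rfl, hx]
    · exact if_neg (not_le.mpr h)
  have hmono : StrictMono F := by
    intro s t hst
    rcases le_total t x with h | h
    · rw [F1 t h, F1 s (hst.le.trans h)]; exact f.strictMono hst
    · rcases le_total s x with h' | h'
      · rw [F1 s h', F2 t h]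
        rcases eq_or_lt_of_le h' with h3 | h3
        · subst h3; rw [hx]; exact g.strictMono hst
        · calc f s < f x := f.strictMono h3
            _ = g x := hx
            _ ≤ g t := g.monotone h
      · rw [F2 s h', F2 t h]; exact g.strictMono hst
  have hsurj : Function.Surjective F := by
    intro u
    rcases le_total u (f x) with h | h
    · refine ⟨f⁻¹ u, ?_⟩
      rw [F1]
      · simp
      · have := (f⁻¹ : G).monotone h
        simpa using this
    · refine ⟨g⁻¹ u, ?_⟩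
      rw [F2]
      · simp
      · have := (g⁻¹ : G).monotone h
        rw [hx] at this
        simpa using this
  let H : G := hmono.orderIsoOfSurjective F hsurj
  have HF : ∀ t, H t = F t := fun t => rfl
  refine ⟨H, ?_, fun t ht => by rw [HF, F1 t ht], fun t ht => by rw [HF, F2 t ht]⟩
  intro y
  constructor
  · rcases lt_or_ge y x with h | h
    · refine (hf y).1.congr (by rw [HF, F1 y h.le]) ?_
      have : ∀ᶠ t in 𝓝[≥] y, t < x := by
        apply eventually_nhdsWithin_of_eventually_nhds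
        exact eventually_lt_nhds h
      filter_upwards [this] with t ht
      rw [HF, F1 t ht.le]
    · refine (hg y).1.congr (by rw [HF, F2 y h]) ?_
      filter_upwards [self_mem_nhdsWithin] with t ht
      rw [HF, F2 t (h.trans ht)]
  · rcases lt_or_ge x y with h | h
    · refine (hg y).2.congr (by rw [HF, F2 y h.le]) ?_
      have : ∀ᶠ t in 𝓝[≤] y, x < t := by
        apply eventually_nhdsWithin_of_eventually_nhds
        exact eventually_gt_nhds h
      filter_upwards [this] with t ht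
      rw [HF, F2 t ht.le]
    · refine (hf y).2.congr (by rw [HF, F1 y h]) ?_
      filter_upwards [self_mem_nhdsWithin] with t ht
      rw [HF, F1 t (le_trans ht h)]

/-- limits of eventually stationary sequences -/
theorem exists_limit (F : ℕ → G) (hF : ∀ n, F n ∈ PLo) (I : ℕ → Set ℝ)
    (hI : ∀ n, I n ⊆ I (n + 1)) (hex : ∀ t, ∃ n, I n ∈ 𝓝 t)
    (hst : ∀ n, ∀ t ∈ I n, F (n + 1) t = F n t) (hs : ∀ u, ∃ n, (F n)⁻¹ u ∈ I n) :
    ∃ g ∈ PLo, ∀ n, ∀ t ∈ I n, g t = F n t := by
  have hmonoI : Monotone I := monotone_nat_of_le_succ hI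
  have key : ∀ n m, n ≤ m → ∀ t ∈ I n, F m t = F n t := by
    intro n m hnm
    induction m, hnm using Nat.le_induction with
    | base => intro t _; rfl
    | succ m hm ih =>
      intro t ht
      rw [hst m t (hmonoI hm ht), ih t ht]
  choose N hN using hex
  let g : ℝ → ℝ := fun t => F (N t) t
  have hg : ∀ n, ∀ t ∈ I n, g t = F n t := by
    intro n t ht
    have h1 : t ∈ I (N t) := mem_of_mem_nhds (hN t)
    rcases le_total n (N t) with h | h
    · exact key _ _ h t ht
    · exact (key _ _ h t h1).symm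
  have hmono : StrictMono g := by
    intro s t hst'
    have h1 : s ∈ I (max (N s) (N t)) :=
      hmonoI (le_max_left _ _) (mem_of_mem_nhds (hN s))
    have h2 : t ∈ I (max (N s) (N t)) :=
      hmonoI (le_max_right _ _) (mem_of_mem_nhds (hN t))
    rw [hg _ s h1, hg _ t h2]
    exact (F _).strictMono hst'
  have hsurj : Function.Surjective g := by
    intro u
    obtain ⟨n, hn⟩ := hs u
    exact ⟨_, by rw [hg n _ hn]; simp⟩
  let H : G := hmono.orderIsoOfSurjective g hsurj
  have HF : ∀ t, H t = g t := fun t => rfl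
  refine ⟨H, ?_, fun n t ht => by rw [HF, hg n t ht]⟩
  intro y
  have hy : y ∈ I (N y) := mem_of_mem_nhds (hN y)
  constructor
  · refine (hF (N y) y).1.congr (by rw [HF, hg _ _ hy]) ?_
    have := mem_nhdsWithin_of_mem_nhds (t := Ici y) (hN y)
    filter_upwards [this] with t ht
    rw [HF, hg _ _ ht]
  · refine (hF (N y) y).2.congr (by rw [HF, hg _ _ hy]) ?_
    have := mem_nhdsWithin_of_mem_nhds (t := Iic y) (hN y)
    filter_upwards [this] with t ht
    rw [HF, hg _ _ ht]

/-- one sided limits -/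
theorem exists_limit_right (F : ℕ → G) (hF : ∀ n, F n ∈ PLo) (x : ℕ → ℝ)
    (hx : ∀ n, x n ≤ x (n + 1)) (hex : ∀ t, ∃ n, t < x n)
    (hst : ∀ n, ∀ t, t ≤ x n → F (n + 1) t = F n t) (hs : ∀ u, ∃ n, u ≤ F n (x n)) :
    ∃ g ∈ PLo, ∀ n, ∀ t, t ≤ x n → g t = F n t := by
  apply exists_limit F hF (fun n => Iic (x n)) (fun n => Iic_subset_Iic.mpr (hx n))
  · intro t
    obtain ⟨n, hn⟩ := hex t
    exact ⟨n, Iic_mem_nhds hn⟩
  · exact fun n t ht => hst n t ht
  · intro u
    obtain ⟨n, hn⟩ := hs u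
    refine ⟨n, ?_⟩
    have := (F n)⁻¹.monotone hn
    simpa using this

/-! ### Affine maps -/

theorem exists_affine (a b : ℝ) (ha : 0 < a) : ∃ h ∈ PLo, ∀ t, h t = a * t + b := by
  have hmono : StrictMono (fun t : ℝ => a * t + b) := by
    intro s t hst
    have := mul_lt_mul_of_pos_left hst ha
    simp only
    linarith
  have hsurj : Function.Surjective (fun t : ℝ => a * t + b) := by
    intro u
    refine ⟨(u - b) / a, ?_⟩
    simp only
    field_simp
    ring
  refine ⟨hmono.orderIsoOfSurjective _ hsurj, ?_, fun t => rfl⟩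
  intro x
  refine ⟨⟨a, ha, Eventually.of_forall fun t => ?_⟩,
    ⟨a, ha, Eventually.of_forall fun t => ?_⟩⟩ <;>
  · change a * t + b = a * x + b + a * (t - x)
    ring

/-- the affine map taking `x` to `y` and `x'` to `y'` -/
theorem exists_interp (x x' y y' : ℝ) (hx : x < x') (hy : y < y') :
    ∃ h ∈ PLo, h x = y ∧ h x' = y' ∧ ∀ t, h t = y + (y' - y) / (x' - x) * (t - x) := by
  have h1 : 0 < x' - x := by linarith
  have h2 : 0 < y' - y := by linarith
  obtain ⟨h, hm, hh⟩ := exists_affine ((y' - y) / (x' - x)) (y - (y' - y) / (x' - x) * x)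
    (div_pos h2 h1)
  refine ⟨h, hm, ?_, ?_, ?_⟩
  · rw [hh]; ring
  · rw [hh]
    field_simp
    ring
  · intro t; rw [hh]; ring

end Pool.Agent.H67
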