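import Pool.Agent.H67.Supp

/-!
The commutator identity behind the compactly supported case.
-/

open Filter Topology Set

namespace Pool.Agent.H67

/-- inverse of the product of the reversed list -/
def KK : List G → G
  | [] => 1
  | z :: r => z⁻¹ * KK r

/-- the element conjugating a translation -/
def WW (v : G) : List G → G
  | [] => tr 1 * v
  | z :: r => tr 1 * KK (z :: r) * sh 1 (z :: r).prod * v * WW v r

def HH : List G → G
  | [] => 1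
  | z :: r => sh 2 z * sh 3 z⁻¹ * sh 2 (HH r)

def ZZ : List G → G
  | [] => 1
  | z :: r => sh 2 z * sh 2 (ZZ r)

/-- small supports -/
noncomputable def Sm : Subgroup G := Rt (-(1 / 3)) ⊓ Lt (1 / 3)

lemma sm_prod {z : List G} (hz : ∀ x ∈ z, x ∈ Sm) : z.prod ∈ Sm :=
  Sm.list_prod_mem hz

lemma sm_KK {z : List G} (hz : ∀ x ∈ z, x ∈ Sm) : KK z ∈ Sm := by
  induction z with
  | nil => exact Sm.one_mem
  | cons a r ih =>
    exact Sm.mul_mem (Sm.inv_mem (hz a (by simp))) (ih fun x hx => hz x (by simp [hx]))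

lemma sm_HH {z : List G} (hz : ∀ x ∈ z, x ∈ Sm) : HH z ∈ Rt (5 / 3) := by
  induction z with
  | nil => exact Subgroup.one_mem _
  | cons a r ih =>
    have ha : a ∈ Sm := hz a (by simp)
    have h1 : sh 2 a ∈ Rt (5 / 3) := by
      have := sh_Rt 2 ha.1
      exact Rt_anti (by norm_num) this
    have h2 : sh 3 a⁻¹ ∈ Rt (5 / 3) := by
      have := sh_Rt 3 (Sm.inv_mem ha).1
      exact Rt_anti (by norm_num) this
    have h3 : sh 2 (HH r) ∈ Rt (5 / 3) := by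
      have := sh_Rt 2 (ih fun x hx => hz x (by simp [hx]))
      exact Rt_anti (by norm_num) this
    exact Subgroup.mul_mem _ (Subgroup.mul_mem _ h1 h2) h3

lemma sm_ZZ {z : List G} (hz : ∀ x ∈ z, x ∈ Sm) :
    ZZ z ∈ Rt (5 / 3) ∧ ZZ z ∈ Lt (2 * z.length + 1 / 3) := by
  induction z with
  | nil => exact ⟨Subgroup.one_mem _, Subgroup.one_mem _⟩
  | cons a r ih =>
    have ha : a ∈ Sm := hz a (by simp)
    obtain ⟨ih1, ih2⟩ := ih fun x hx => hz x (by simp [hx])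
    have h1 : sh 2 a ∈ Rt (5 / 3) := by
      have := sh_Rt 2 ha.1
      exact Rt_anti (by norm_num) this
    have h3 : sh 2 (ZZ r) ∈ Rt (5 / 3) := by
      have := sh_Rt 2 ih1
      exact Rt_anti (by norm_num) this
    have h2 : sh 2 a ∈ Lt (2 * ((r.length : ℝ) + 1) + 1 / 3) := by
      have := sh_Lt 2 ha.2
      refine Lt_mono ?_ this
      have : (0 : ℝ) ≤ r.length := Nat.cast_nonneg _
      push_cast
      linarith
    have h4 : sh 2 (ZZ r) ∈ Lt (2 * ((r.length : ℝ) + 1) + 1 / 3) := by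
      have := sh_Lt 2 ih2
      refine Lt_mono ?_ this
      push_cast
      linarith
    refine ⟨Subgroup.mul_mem _ h1 h3, ?_⟩
    rw [List.length_cons]
    push_cast
    exact Subgroup.mul_mem _ h2 h4

/-- `v` acts as the unit translation on `[1/2, ∞)` and as the identity on `(-∞,0]`. -/
structure Vgood (v : G) : Prop where
  left : ∀ t, t ≤ 0 → v t = t
  right : ∀ t, 1 / 2 ≤ t → v t = t + 1

lemma Vgood.conj {v : G} (hv : Vgood v) {y : G} (hy : y ∈ Rt (1 / 2)) :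
    v * y * v⁻¹ = sh 1 y := by
  have hu : (tr 1)⁻¹ * v ∈ Lt (1 / 2) := by
    intro t ht
    simp only [mul_app]
    rw [hv.right t ht]; simp
  have h := comm_RL hy hu le_rfl
  unfold sh
  rw [pow_one]
  have : v = tr 1 * ((tr 1)⁻¹ * v) := by group
  calc v * y * v⁻¹ = tr 1 * (((tr 1)⁻¹ * v) * y) * v⁻¹ := by group
    _ = tr 1 * (y * ((tr 1)⁻¹ * v)) * v⁻¹ := by rw [h]
    _ = tr 1 * y * (tr 1)⁻¹ := by group

lemma Vgood.move {v : G} (hv : Vgood v) {y : G} (hy : y ∈ Rt (1 / 2)) :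
    v * y = sh 1 y * v := by
  rw [← hv.conj hy]; group

lemma Vgood.Rt {v : G} (hv : Vgood v) (n : ℕ) : sh n v⁻¹ ∈ Rt (n : ℝ) := by
  have h : v ∈ Pool.Agent.H67.Rt 0 := hv.left
  have := sh_Rt n (Subgroup.inv_mem _ h)
  simpa using this

/-- The main identity. -/
theorem main_ident {v : G} (hv : Vgood v) (z : List G) (hz : ∀ x ∈ z, x ∈ Sm) :
    (tr 1)⁻¹ * WW v z * tr 1 * (WW v z)⁻¹
      = KK z * sh 1 z.prod * HH z * v * sh (2 * z.length + 1) v⁻¹ := by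
  induction z with
  | nil =>
    simp only [WW, KK, HH, List.prod_nil, List.length_nil, sh_one, mul_zero, zero_add, one_mul]
    unfold sh
    rw [pow_one]
    group
  | cons a r ih =>
    have ha : a ∈ Sm := hz a (by simp)
    have hr : ∀ x ∈ r, x ∈ Sm := fun x hx => hz x (by simp [hx])
    have ih := ih hr
    set n := r.length with hn
    set Kr := KK r with hKr
    set Pr := r.prod with hPr
    set Hr := HH r with hHr
    set Wr := WW v r with hWr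
    have hKr' : Kr ∈ Sm := sm_KK hr
    have hPr' : Pr ∈ Sm := sm_prod hr
    have hHr' : Hr ∈ Rt (5 / 3) := sm_HH hr
    have hK : KK (a :: r) = a⁻¹ * Kr := rfl
    have hP : (a :: r).prod = a * Pr := List.prod_cons
    have hH : HH (a :: r) = sh 2 a * sh 3 a⁻¹ * sh 2 Hr := rfl
    have hW : WW v (a :: r) = tr 1 * (a⁻¹ * Kr) * sh 1 (a * Pr) * v * Wr := by
      rw [← hK, ← hP]; rfl
    have hlen : (a :: r).length = n + 1 := rfl
    rw [hW, hK, hP, hH, hlen]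
    -- the conjugated translation
    set X := Kr * sh 1 Pr * Hr * v * sh (2 * n + 1) v⁻¹ with hX
    have h0 : Wr * tr 1 * Wr⁻¹ = tr 1 * X := by
      rw [← ih]; group
    -- F = D E D⁻¹
    have hF : sh 1 v * sh (2 * n + 2) v⁻¹ * sh 1 v⁻¹ = sh (2 * (n + 1) + 1) v⁻¹ := by
      have h1 : v * sh (2 * n + 1) v⁻¹ * v⁻¹ = sh (2 * n + 2) v⁻¹ := by
        rw [hv.conj, sh_sh]
        · congr 1; omega
        · refine Rt_anti ?_ (hv.Rt _)
          push_cast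
          have : (0 : ℝ) ≤ n := Nat.cast_nonneg _
          linarith
      have h2 := congrArg (sh 1) h1
      rw [sh_mul, sh_mul, sh_sh, sh_sh] at h2
      rw [show 2 * n + 2 = 1 + (2 * n + 1) by omega, show 2 * (n + 1) + 1 = 1 + (2 * n + 2) by omega]
      exact h2
    set F := sh (2 * (n + 1) + 1) v⁻¹ with hFd
    have hFR : F ∈ Rt 3 := by
      refine Rt_anti ?_ (hv.Rt _)
      push_cast
      have : (0 : ℝ) ≤ n := Nat.cast_nonneg _
      linarith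
    set K := a⁻¹ * Kr with hKd
    set P := a * Pr with hPd
    have hKm : K ∈ Sm := Sm.mul_mem (Sm.inv_mem ha) hKr'
    have hPm : P ∈ Sm := Sm.mul_mem ha hPr'
    -- memberships
    have mK : (sh 1 K)⁻¹ ∈ Lt (4 / 3) := by
      rw [← sh_inv]
      exact Lt_mono (by norm_num) (sh_Lt 1 (Sm.inv_mem hKm).2)
    have mP : (sh 2 P)⁻¹ ∈ Lt (7 / 3) := by
      rw [← sh_inv]
      exact Lt_mono (by norm_num) (sh_Lt 2 (Sm.inv_mem hPm).2)
    have mPR : sh 2 Pr * (sh 2 P)⁻¹ ∈ Rt (5 / 3) := by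
      rw [← sh_inv]
      exact Subgroup.mul_mem _ (Rt_anti (by norm_num) (sh_Rt 2 hPr'.1))
        (Rt_anti (by norm_num) (sh_Rt 2 (Sm.inv_mem hPm).1))
    have mH : sh 1 Hr ∈ Rt (8 / 3) := Rt_anti (by norm_num) (sh_Rt 1 hHr')
    -- commutations
    have c1 : F * (sh 2 P)⁻¹ = (sh 2 P)⁻¹ * F := comm_RL hFR mP (by norm_num)
    have c2 : F * (sh 1 K)⁻¹ = (sh 1 K)⁻¹ * F := comm_RL hFR mK (by norm_num)
    have c3 : sh 1 Hr * (sh 2 P)⁻¹ = (sh 2 P)⁻¹ * sh 1 Hr := comm_RL mH mP (by norm_num)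
    have c4 : sh 1 Hr * (sh 1 K)⁻¹ = (sh 1 K)⁻¹ * sh 1 Hr := comm_RL mH mK (by norm_num)
    have c5 : (sh 2 Pr * (sh 2 P)⁻¹) * (sh 1 K)⁻¹ = (sh 1 K)⁻¹ * (sh 2 Pr * (sh 2 P)⁻¹) :=
      comm_RL mPR mK (by norm_num)
    have e1 : sh 1 Kr * (sh 1 K)⁻¹ = sh 1 a := by
      rw [← sh_inv, ← sh_mul, hKd]; congr 1; group
    have e2 : sh 2 Pr * (sh 2 P)⁻¹ = sh 2 a⁻¹ := by
      rw [← sh_inv, ← sh_mul, hPd]; congr 1; group
    have hXs : tr 1 * X * (tr 1)⁻¹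
        = sh 1 Kr * sh 2 Pr * sh 1 Hr * sh 1 v * sh (2 * n + 2) v⁻¹ := by
      have : tr 1 * X * (tr 1)⁻¹ = sh 1 X := by unfold sh; rw [pow_one]
      rw [this, hX, sh_mul, sh_mul, sh_mul, sh_mul, sh_sh, sh_sh]
      congr 2; omega
    have hD : tr 1 * v⁻¹ * (tr 1)⁻¹ = sh 1 v⁻¹ := by unfold sh; rw [pow_one]
    have hKi : tr 1 * K⁻¹ * (tr 1)⁻¹ = (sh 1 K)⁻¹ := by unfold sh; rw [pow_one]; group
    have hPi : tr 1 * (sh 1 P)⁻¹ * (tr 1)⁻¹ = (sh 2 P)⁻¹ := by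
      rw [← sh1_def, sh_inv, sh_sh]
    have hmain : v * tr 1 * X * v⁻¹ * (sh 1 P)⁻¹ * K⁻¹ * (tr 1)⁻¹
        = sh 2 a * sh 3 a⁻¹ * sh 2 Hr * v * F := by
      calc v * tr 1 * X * v⁻¹ * (sh 1 P)⁻¹ * K⁻¹ * (tr 1)⁻¹
          = v * (tr 1 * X * (tr 1)⁻¹) * (tr 1 * v⁻¹ * (tr 1)⁻¹) *
            (tr 1 * (sh 1 P)⁻¹ * (tr 1)⁻¹) * (tr 1 * K⁻¹ * (tr 1)⁻¹) := by group
        _ = v * (sh 1 Kr * sh 2 Pr * sh 1 Hr * sh 1 v * sh (2 * n + 2) v⁻¹) * sh 1 v⁻¹ *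
            (sh 2 P)⁻¹ * (sh 1 K)⁻¹ := by rw [hXs, hD, hPi, hKi]
        _ = v * sh 1 Kr * sh 2 Pr * sh 1 Hr * (sh 1 v * sh (2 * n + 2) v⁻¹ * sh 1 v⁻¹) *
            (sh 2 P)⁻¹ * (sh 1 K)⁻¹ := by group
        _ = v * sh 1 Kr * sh 2 Pr * sh 1 Hr * (F * (sh 2 P)⁻¹) * (sh 1 K)⁻¹ := by
            rw [hF]; group
        _ = v * sh 1 Kr * sh 2 Pr * (sh 1 Hr * (sh 2 P)⁻¹) * (F * (sh 1 K)⁻¹) := by
            rw [c1]; group
        _ = v * sh 1 Kr * (sh 2 Pr * (sh 2 P)⁻¹) * (sh 1 Hr * (sh 1 K)⁻¹) * F := by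
            rw [c3, c2]; group
        _ = v * sh 1 Kr * ((sh 2 Pr * (sh 2 P)⁻¹) * (sh 1 K)⁻¹) * sh 1 Hr * F := by
            rw [c4]; group
        _ = v * (sh 1 Kr * (sh 1 K)⁻¹) * (sh 2 Pr * (sh 2 P)⁻¹) * sh 1 Hr * F := by
            rw [c5]; group
        _ = v * (sh 1 a * sh 2 a⁻¹ * sh 1 Hr) * F := by rw [e1, e2]; group
        _ = sh 1 (sh 1 a * sh 2 a⁻¹ * sh 1 Hr) * v * F := by
            rw [hv.move]
            refine Subgroup.mul_mem _ (Subgroup.mul_mem _ ?_ ?_) ?_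
            · exact Rt_anti (by norm_num) (sh_Rt 1 ha.1)
            · exact Rt_anti (by norm_num) (sh_Rt 2 (Sm.inv_mem ha).1)
            · exact Rt_anti (by norm_num) mH
        _ = sh 2 a * sh 3 a⁻¹ * sh 2 Hr * v * F := by
            rw [sh_mul, sh_mul, sh_sh, sh_sh, sh_sh]
    calc (tr 1)⁻¹ * (tr 1 * K * sh 1 P * v * Wr) * tr 1 * (tr 1 * K * sh 1 P * v * Wr)⁻¹
        = K * sh 1 P * v * (Wr * tr 1 * Wr⁻¹) * v⁻¹ * (sh 1 P)⁻¹ * K⁻¹ * (tr 1)⁻¹ := by group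
      _ = K * sh 1 P * (v * tr 1 * X * v⁻¹ * (sh 1 P)⁻¹ * K⁻¹ * (tr 1)⁻¹) := by
          rw [h0]; group
      _ = K * sh 1 P * (sh 2 a * sh 3 a⁻¹ * sh 2 Hr) * v * F := by rw [hmain]; group

lemma HH_eq {z : List G} (hz : ∀ x ∈ z, x ∈ Sm) : HH z = ZZ z * sh 1 (ZZ z)⁻¹ := by
  induction z with
  | nil => simp [HH, ZZ, sh_one]
  | cons a r ih =>
    have ha : a ∈ Sm := hz a (by simp)
    have hr : ∀ x ∈ r, x ∈ Sm := fun x hx => hz x (by simp [hx])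
    have ih := ih hr
    have m1 : sh 3 a⁻¹ ∈ Lt (10 / 3) := Lt_mono (by norm_num) (sh_Lt 3 (Sm.inv_mem ha).2)
    have m2 : sh 2 (HH r) ∈ Rt (11 / 3) := Rt_anti (by norm_num) (sh_Rt 2 (sm_HH hr))
    have c := comm_RL m2 m1 (by norm_num)
    change sh 2 a * sh 3 a⁻¹ * sh 2 (HH r) = (sh 2 a * sh 2 (ZZ r)) * sh 1 (sh 2 a * sh 2 (ZZ r))⁻¹
    rw [mul_assoc, ← c, ih, sh_mul, sh_sh, mul_inv_rev, sh_mul, ← sh_inv, ← sh_inv, sh_sh, sh_sh]
    simp only [mul_assoc]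

/-- With trivial product, the twisted product is conjugate to the commutator. -/
theorem ident_conj {v : G} (hv : Vgood v) (z : List G) (hz : ∀ x ∈ z, x ∈ Sm)
    (h1 : z.prod = 1) :
    (tr 1)⁻¹ * WW v z * tr 1 * (WW v z)⁻¹
      = ZZ z * (KK z * v * sh (2 * z.length + 1) v⁻¹) * (ZZ z)⁻¹ := by
  rw [main_ident hv z hz, h1, sh_one, mul_one, HH_eq hz]
  obtain ⟨mR, mL⟩ := sm_ZZ hz
  have hK : KK z ∈ Lt (1 / 3) := (sm_KK hz).2
  have c1 : ZZ z * KK z = KK z * ZZ z := comm_RL mR hK (by norm_num)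
  have mv : sh (2 * z.length + 1) v⁻¹ ∈ Rt (2 * z.length + 1 : ℝ) := by
    have := hv.Rt (2 * z.length + 1)
    push_cast at this
    exact this
  have mL' : (ZZ z)⁻¹ ∈ Lt (2 * z.length + 1 / 3 : ℝ) := Subgroup.inv_mem _ mL
  have c2 := comm_RL mv mL' (by linarith)
  have c3 : v * (ZZ z)⁻¹ = sh 1 (ZZ z)⁻¹ * v :=
    hv.move (Rt_anti (by norm_num) (Subgroup.inv_mem _ mR))
  calc KK z * (ZZ z * sh 1 (ZZ z)⁻¹) * v * sh (2 * z.length + 1) v⁻¹
      = (KK z * ZZ z) * (sh 1 (ZZ z)⁻¹ * v) * sh (2 * z.length + 1) v⁻¹ := by group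
    _ = ZZ z * KK z * v * ((ZZ z)⁻¹ * sh (2 * z.length + 1) v⁻¹) := by rw [← c1, ← c3]; group
    _ = ZZ z * (KK z * v * sh (2 * z.length + 1) v⁻¹) * (ZZ z)⁻¹ := by rw [← c2]; group

/-- lengthening the translation region -/
theorem lengthen {v c : G} (hv : Vgood v) (hc : c ∈ Sm) (m : ℕ) :
    (c * v) ^ m * (c * v * sh 1 v⁻¹) * ((c * v) ^ m)⁻¹ = c * v * sh (m + 1) v⁻¹ := by
  induction m with
  | zero => simp
  | succ m ih =>
    have mv : sh (m + 2) v⁻¹ ∈ Rt 1 := by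
      refine Rt_anti ?_ (hv.Rt (m + 2))
      push_cast
      have : (0 : ℝ) ≤ m := Nat.cast_nonneg _
      linarith
    have mc : c⁻¹ ∈ Lt 1 := Lt_mono (by norm_num) (Sm.inv_mem hc).2
    have c1 := comm_RL mv mc le_rfl
    have mv' : sh (m + 1) v⁻¹ ∈ Rt (1 / 2) := by
      refine Rt_anti ?_ (hv.Rt (m + 1))
      push_cast
      have : (0 : ℝ) ≤ m := Nat.cast_nonneg _
      linarith
    have h2 : v * sh (m + 1) v⁻¹ * v⁻¹ = sh (m + 2) v⁻¹ := by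
      rw [hv.conj mv', sh_sh]; congr 1; omega
    calc (c * v) ^ (m + 1) * (c * v * sh 1 v⁻¹) * ((c * v) ^ (m + 1))⁻¹
        = (c * v) * ((c * v) ^ m * (c * v * sh 1 v⁻¹) * ((c * v) ^ m)⁻¹) * (c * v)⁻¹ := by
          rw [pow_succ']; generalize (c * v) ^ m = w; group
      _ = (c * v) * (c * v * sh (m + 1) v⁻¹) * (c * v)⁻¹ := by rw [ih]
      _ = c * v * (c * (v * sh (m + 1) v⁻¹ * v⁻¹) * c⁻¹) := by group
      _ = c * v * (c * (sh (m + 2) v⁻¹ * c⁻¹)) := by rw [h2]; group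
      _ = c * v * sh (m + 1 + 1) v⁻¹ := by rw [c1]; group

end Pool.Agent.H67
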