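import Pool.Agent.H67.Aff
import Pool.Agent.H67.Ident

/-!
Every element with small support is a product of a reversed list whose direct product is trivial.
-/

open Filter Topology Set

namespace Pool.Agent.H67

/-- products of reversed relations -/
noncomputable def SS : Subgroup G where
  carrier := {g | ∃ z : List G, (∀ x ∈ z, x ∈ PLo ⊓ Sm) ∧ z.prod = 1 ∧ z.reverse.prod = g}
  mul_mem' := by
    rintro f g ⟨z, h1, h2, h3⟩ ⟨w, k1, k2, k3⟩
    refine ⟨w ++ z, ?_, ?_, ?_⟩
    · intro x hx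
      rcases List.mem_append.mp hx with h | h
      · exact k1 x h
      · exact h1 x h
    · rw [List.prod_append, h2, k2, one_mul]
    · rw [List.reverse_append, List.prod_append, h3, k3]
  one_mem' := ⟨[], by simp, by simp, by simp⟩
  inv_mem' := by
    rintro f ⟨z, h1, h2, h3⟩
    refine ⟨(z.map (·⁻¹)).reverse, ?_, ?_, ?_⟩
    · intro x hx
      rw [List.mem_reverse, List.mem_map] at hx
      obtain ⟨a, ha, rfl⟩ := hx
      exact Subgroup.inv_mem _ (h1 a ha)
    · rw [← List.prod_inv_reverse, h2, inv_one]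
    · rw [List.reverse_reverse, ← h3, List.prod_inv_reverse, List.map_reverse,
        List.reverse_reverse]

lemma comm_mem_SS {g y : G} (hg : g ∈ PLo ⊓ Sm) (hy : y ∈ PLo ⊓ Sm) :
    g * y * g⁻¹ * y⁻¹ ∈ SS := by
  refine ⟨[y⁻¹, g⁻¹, g * y], ?_, ?_, ?_⟩
  · intro x hx
    simp only [List.mem_cons, List.not_mem_nil, or_false] at hx
    rcases hx with rfl | rfl | rfl
    · exact Subgroup.inv_mem _ hy
    · exact Subgroup.inv_mem _ hg
    · exact Subgroup.mul_mem _ hg hy
  · simp only [List.prod_cons, List.prod_nil]; group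
  · simp only [List.reverse_cons, List.reverse_nil, List.nil_append, List.cons_append,
      List.prod_cons, List.prod_nil]
    group

lemma KK_eq (z : List G) : KK z = (z.reverse.prod)⁻¹ := by
  induction z with
  | nil => simp [KK]
  | cons a r ih =>
    change a⁻¹ * KK r = _
    rw [ih, List.reverse_cons, List.prod_append, List.prod_singleton, mul_inv_rev]

/-- triangle maps with a small first step -/
lemma tri_SS_aux {p q q'' : ℝ} (hp : -(1 / 4) ≤ p) (h1 : p < q'') (h2 : q'' < q)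
    (h3 : q < 3 / 10) (h4 : q'' - p ≤ (3 / 10 - q) / 10) {h : G}
    (hh : IsTri h p q q'' (3 / 10)) : h ∈ SS := by
  set D := (3 / 10 - q) - (q'' - p) with hD
  have hDpos : 0 < D := by linarith
  have hDge : 9 / 10 * (3 / 10 - q) ≤ D := by linarith
  set P := p - (q'' - p) * (q - p) / D with hP
  have hPp : P < p := by
    have : 0 < (q'' - p) * (q - p) / D := div_pos (mul_pos (by linarith) (by linarith)) hDpos
    linarith
  have hP3 : -(1 / 3) ≤ P := by
    have : (q'' - p) * (q - p) / D ≤ 1 / 12 := by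
      rw [div_le_iff₀ hDpos]
      have e1 : (q'' - p) * (q - p) ≤ ((3 / 10 - q) / 10) * (11 / 20) := by
        apply mul_le_mul h4 (by linarith) (by linarith) (by linarith)
      nlinarith
    linarith
  have hPeq : (q'' - p) * (q - P) = (3 / 10 - q) * (p - P) := by
    have e1 : (p - P) * D = (q'' - p) * (q - p) := by
      rw [hP]; field_simp; ring
    rw [hD] at e1
    linarith
  obtain ⟨g, y, g1, y1, gR, gL, yR, yL, e⟩ :=
    tri_comm h1 h2 h3 hPp (Q := 1 / 3) (by norm_num) hPeq hh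
  rw [e]
  exact comm_mem_SS ⟨g1, Rt_anti hP3 gR, gL⟩ ⟨y1, Rt_anti hP3 yR, yL⟩

lemma tri_SS {p q q' : ℝ} (hp : -(1 / 4) ≤ p) (h1 : p < q) (h2 : q < 3 / 10)
    (h3 : p < q') (h4 : q' < 3 / 10) {h : G} (hh : IsTri h p q q' (3 / 10)) : h ∈ SS := by
  set δ := min (min (q - p) (q' - p) / 2) (min (3 / 10 - q) (3 / 10 - q') / 10) with hδ
  have a1 : 0 < min (q - p) (q' - p) := lt_min (by linarith) (by linarith)
  have a2 : 0 < min (3 / 10 - q) (3 / 10 - q') := lt_min (by linarith) (by linarith)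
  have hδ0 : 0 < δ := lt_min (by linarith) (by linarith)
  have b1 : δ ≤ min (q - p) (q' - p) / 2 := min_le_left _ _
  have b2 : δ ≤ min (3 / 10 - q) (3 / 10 - q') / 10 := min_le_right _ _
  have c1 := min_le_left (q - p) (q' - p)
  have c2 := min_le_right (q - p) (q' - p)
  have c3 := min_le_left (3 / 10 - q) (3 / 10 - q')
  have c4 := min_le_right (3 / 10 - q) (3 / 10 - q')
  obtain ⟨f1, hf1⟩ := exists_tri p q (p + δ) (3 / 10) h1 h2 (by linarith) (by linarith)
  obtain ⟨f2, hf2⟩ := exists_tri p q' (p + δ) (3 / 10) h3 h4 (by linarith) (by linarith)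
  have m1 : f1 ∈ SS := tri_SS_aux hp (by linarith) (by linarith) h2 (by linarith) hf1
  have m2 : f2 ∈ SS := tri_SS_aux hp (by linarith) (by linarith) h4 (by linarith) hf2
  have e : h = f2⁻¹ * f1 := by
    refine hh.unique (hf1.comp (hf2.inv h3 h4) h1 h2) h1 h2
  rw [e]
  exact SS.mul_mem (SS.inv_mem m2) m1

/-- truncation of `f` at `x` -/
structure IsTr (f : G) (x : ℝ) (h : G) : Prop where
  mem : h ∈ PLo
  left : ∀ t, t ≤ x → h t = f t
  right : ∀ t, 3 / 10 ≤ t → h t = t
  aff : AffOn h x (3 / 10) (f x) (3 / 10)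

lemma exists_tr {f : G} (hf : f ∈ PLo) (x : ℝ) (hx : x < 3 / 10) (hfx : f x < 3 / 10) :
    ∃ h, IsTr f x h := by
  obtain ⟨A, hA, A1, A2, A3⟩ := exists_aff x (3 / 10) (f x) (3 / 10) hx hfx
  obtain ⟨B, hB, B1, B2⟩ := exists_glue hf hA x A1.symm
  obtain ⟨C, hC, C1, C2⟩ := exists_glue hB PLo.one_mem (3 / 10) (by rw [B2 _ hx.le, A2]; rfl)
  refine ⟨C, hC, ?_, ?_, ?_⟩
  · intro t ht
    rw [C1 t (by linarith), B1 t ht]
  · intro t ht
    rw [C2 t ht]; rfl
  · have := A3 x (3 / 10)
    rw [A1, A2] at this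
    refine this.congr fun t ht1 ht2 => ?_
    rw [C1 t ht2, B2 t ht1]

lemma IsTr.unique {f h h' : G} {x : ℝ} (a : IsTr f x h) (b : IsTr f x h') (hx : x < 3 / 10) :
    h = h' := by
  ext t
  rcases le_total t x with c | c
  · rw [a.left t c, b.left t c]
  rcases le_total t (3 / 10) with d | d
  · exact a.aff.eq b.aff hx c d
  · rw [a.right t d, b.right t d]

/-- moving the truncation point along an affine piece -/
lemma tr_step {f h h' : G} {x x' : ℝ} (hx : x < x') (hx' : x' < 3 / 10)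
    (hfx : -(1 / 4) ≤ f x) (hfx' : f x' < 3 / 10)
    (hf : AffOn f x x' (f x) (f x')) (a : IsTr f x h) (b : IsTr f x' h') :
    h ∈ SS ↔ h' ∈ SS := by
  have hxr : x < 3 / 10 := hx.trans hx'
  have hh1 : h x = f x := a.left x le_rfl
  have h1 : f x < h x' := by rw [← hh1]; exact h.strictMono hx
  have h2 : h x' < 3 / 10 := by rw [← a.right (3 / 10) le_rfl]; exact h.strictMono hx'
  have h3 : f x < f x' := f.strictMono hx
  obtain ⟨T, hT⟩ := exists_tri (f x) (h x') (f x') (3 / 10) h1 h2 h3 hfx'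
  have hTS : T ∈ SS := tri_SS hfx h1 h2 h3 hfx' hT
  have hh' : IsTr f x' (T * h) := by
    refine ⟨PLo.mul_mem hT.mem a.mem, ?_, ?_, ?_⟩
    · intro t ht
      simp only [mul_app]
      rcases le_total t x with c | c
      · rw [a.left t c, hT.left _ (f.monotone c)]
      · have e1 : AffOn h x x' (f x) (h x') :=
          a.aff.sub' hxr le_rfl hx.le hx'.le hh1 rfl
        have e2 := (e1.comp hT.a1 hx).eq hf hx c ht
        simpa only [mul_app] using e2
    · intro t ht
      simp only [mul_app]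
      rw [a.right t ht, hT.right t ht]
    · have e1 : AffOn h x' (3 / 10) (h x') (3 / 10) :=
        a.aff.sub' hxr hx.le hx'.le le_rfl rfl (a.right _ le_rfl)
      exact e1.comp hT.a2 hx'
  rw [b.unique hh' hx']
  constructor
  · intro h4; exact SS.mul_mem hTS h4
  · intro h4
    have := SS.mul_mem (SS.inv_mem hTS) h4
    rwa [inv_mul_cancel_left] at this

/-- perfectness -/
theorem perf {f : G} (hf : f ∈ PLo) (hR : f ∈ Rt (-(1 / 4))) (hL : f ∈ Lt (1 / 4)) :
    f ∈ SS := by
  have hlt : ∀ x, x < 3 / 10 → f x < 3 / 10 := by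
    intro x hx
    have h1 : f (3 / 10) = 3 / 10 := mem_Lt.mp hL _ (by norm_num)
    calc f x < f (3 / 10) := f.strictMono hx
      _ = _ := h1
  have hge : ∀ x, -(1 / 4) ≤ x → -(1 / 4) ≤ f x := by
    intro x hx
    have h1 : f (-(1 / 4)) = -(1 / 4) := mem_Rt.mp hR _ le_rfl
    calc -(1 / 4) = f (-(1 / 4)) := h1.symm
      _ ≤ _ := f.monotone hx
  let P : ℝ → Prop := fun x => ∀ h, IsTr f x h → h ∈ SS
  have hstep : ∀ x x', -(1 / 4) ≤ x → x < x' → x' < 3 / 10 →
      AffOn f x x' (f x) (f x') → (P x ↔ P x') := by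
    intro x x' h0 h1 h2 h3
    obtain ⟨h, hh⟩ := exists_tr hf x (h1.trans h2) (hlt x (h1.trans h2))
    obtain ⟨h', hh'⟩ := exists_tr hf x' h2 (hlt x' h2)
    have e := tr_step h1 h2 (hge x h0) (hlt x' h2) h3 hh hh'
    constructor
    · intro hP k hk
      rw [hk.unique hh' h2]
      exact e.mp (hP h hh)
    · intro hP k hk
      rw [hk.unique hh (h1.trans h2)]
      exact e.mpr (hP h' hh')
  have hloc : ∀ x ∈ Icc (-(1 / 4) : ℝ) (1 / 4), ∀ᶠ y in 𝓝[Icc (-(1 / 4) : ℝ) (1 / 4)] x,
      (P x ↔ P y) := by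
    intro x hx
    obtain ⟨a, ha, y1, hy1, e1⟩ := (hf x).1.exists
    obtain ⟨b, hb, y2, hy2, e2⟩ := (hf x).2.exists
    have h1 : ∀ᶠ y in 𝓝[Icc (-(1 / 4) : ℝ) (1 / 4)] x, y ∈ Ioo y2 y1 :=
      eventually_nhdsWithin_of_eventually_nhds (Ioo_mem_nhds hy2 hy1)
    filter_upwards [h1, self_mem_nhdsWithin] with y hy hyI
    rcases lt_trichotomy x y with c | c | c
    · apply hstep x y hx.1 c (by linarith [hyI.2])
      apply AffOn.of_slope (s := a) _ c.le
      intro t ht1 ht2
      exact e1 t ht1 (by linarith [hy.2])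
    · rw [c]
    · symm
      apply hstep y x hyI.1 c (by linarith [hx.2])
      apply AffOn.of_slope (s := b) _ c.le
      intro t ht1 ht2
      rw [e2 t (by linarith [hy.1]) ht2, e2 y hy.1.le c.le]
      ring
  have hpre : P (-(1 / 4)) ↔ P (1 / 4) := by
    refine isPreconnected_Icc.induction₂ (fun x y => (P x ↔ P y)) hloc ?_ ?_
      (left_mem_Icc.mpr (by norm_num)) (right_mem_Icc.mpr (by norm_num))
    · intro x y z _ _ _ h1 h2; exact h1.trans h2
    · intro x y _ _ h1; exact h1.symm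
  have h0 : P (-(1 / 4)) := by
    intro h hh
    have e : h = 1 := by
      have : IsTr f (-(1 / 4)) 1 := by
        refine ⟨PLo.one_mem, ?_, fun t _ => rfl, ?_⟩
        · intro t ht; rw [mem_Rt.mp hR t ht]; rfl
        · rw [mem_Rt.mp hR _ le_rfl]
          exact AffOn.of_id fun t _ _ => rfl
      exact hh.unique this (by norm_num)
    rw [e]; exact SS.one_mem
  have h1 := hpre.mp h0
  refine h1 f ⟨hf, fun t _ => rfl, fun t ht => mem_Lt.mp hL t (by linarith), ?_⟩
  rw [mem_Lt.mp hL _ le_rfl]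
  exact AffOn.of_id fun t ht _ => mem_Lt.mp hL t ht

end Pool.Agent.H67
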