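import Pool.Agent.H67.LemR
import Pool.Agent.H67.Perf

/-!
Compactly supported elements are products of two reversibles.
-/

open Filter Topology Set

namespace Pool.Agent.H67

lemma pow_app_comm (f : G) (j : ℕ) (t : ℝ) : (f ^ j) (f t) = f ((f ^ j) t) := by
  have : f ^ j * f = f * f ^ j := by rw [← pow_succ, pow_succ']
  exact DFunLike.congr_fun this t

/-- the steep element -/
lemma exists_v {μ : ℝ} (h0 : 0 < μ) (h1 : μ < 1) :
    ∃ v ∈ PLo, (∀ t, t ≤ 0 → v t = t) ∧ (∀ t, 1 / 2 ≤ t → v t = t + 1) ∧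
      AffOn v 0 (1 / 2 - μ / 4) 0 (5 / 4) ∧ AffOn v (1 / 2 - μ / 4) (1 / 2) (5 / 4) (3 / 2) := by
  obtain ⟨A, hA, A1, A2, A3⟩ := exists_aff 0 (1 / 2 - μ / 4) 0 (5 / 4) (by linarith) (by norm_num)
  obtain ⟨B, hB, B1, B2, B3⟩ := exists_aff (1 / 2 - μ / 4) (1 / 2) (5 / 4) (3 / 2) (by linarith)
    (by norm_num)
  obtain ⟨C, hC, C1, C2⟩ := exists_glue PLo.one_mem hA 0 (by simpa using A1.symm)
  obtain ⟨D, hD, D1, D2⟩ := exists_glue hC hB (1 / 2 - μ / 4)
    (by rw [C2 _ (by linarith), A2, B1])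
  obtain ⟨E, hE, E1, E2⟩ := exists_glue hD (tr_mem 1) (1 / 2)
    (by rw [D2 _ (by linarith), B2, tr_app]; norm_num)
  refine ⟨E, hE, ?_, ?_, ?_, ?_⟩
  · intro t ht
    rw [E1 t (by linarith), D1 t (by linarith), C1 t ht]; rfl
  · intro t ht
    rw [E2 t ht]; rfl
  · have := A3 0 (1 / 2 - μ / 4)
    rw [A1, A2] at this
    refine this.congr fun t ht1 ht2 => ?_
    rw [E1 t (by linarith), D1 t (by linarith), C2 t ht1]
  · have := B3 (1 / 2 - μ / 4) (1 / 2)
    rw [B1, B2] at this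
    refine this.congr fun t ht1 ht2 => ?_
    rw [E1 t (by linarith), D2 t (by linarith)]

/-- The twisted product is a product of two reversibles. -/
theorem twisted_R2 {v c : G} (hv : Vgood v) (hvm : v ∈ PLo) (hc : c ∈ PLo)
    (hR : c ∈ Rt (-(1 / 4))) (hL : c ∈ Lt (1 / 4)) : R2 (c * v * sh 1 v⁻¹) := by
  have hcS : c ∈ Sm := ⟨Rt_anti (by norm_num) hR, Lt_mono (by norm_num) hL⟩
  obtain ⟨z, hz, z1, z2⟩ := perf (PLo.inv_mem hc) (Subgroup.inv_mem _ hR) (Subgroup.inv_mem _ hL)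
  have hzP : ∀ x ∈ z, x ∈ PLo := fun x hx => (hz x hx).1
  have hzS : ∀ x ∈ z, x ∈ Sm := fun x hx => (hz x hx).2
  have hK : KK z = c := by rw [KK_eq, z2, inv_inv]
  have h1 := ident_conj hv z hzS z1
  rw [hK] at h1
  have hW : WW v z ∈ PLo := WW_mem hvm hzP
  have h2 : R2 ((tr 1)⁻¹ * WW v z * tr 1 * (WW v z)⁻¹) := by
    refine lemR hW (i := z.length + 1) (j := 2 * (z.length + 1)) (A := z.length + 2) ?_ ?_
    · intro t ht; exact WW_left hv hzS ht
    · intro t ht
      have : (0 : ℝ) ≤ z.length := Nat.cast_nonneg _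
      exact WW_right hv hzS (by linarith)
  rw [h1] at h2
  have h3 := R2.of_conj (ZZ_mem hzP) h2
  have h4 := lengthen hv hcS (2 * z.length)
  rw [← h4] at h3
  exact R2.of_conj (PLo.pow_mem (PLo.mul_mem hc hvm) _) h3

theorem caseA_aux {f : G} (hf : f ∈ PLo) {e δ μ A : ℝ} (hδ : 0 < δ) (h0 : 0 < μ) (h1 : μ < 1)
    (hlow : ∀ t, t ≤ A → f t = t) (hhigh : ∀ t, e ≤ t → f t = t)
    (hg : ∀ t, e - δ ≤ t → t ≤ e → f t = e - μ * (e - t)) : R2 f := by
  obtain ⟨v, hvm, vl, vr, va, vb⟩ := exists_v h0 h1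
  have hv : Vgood v := ⟨vl, vr⟩
  set x1 := 1 / 2 - μ / 4 with hx1
  have x1lo : 1 / 4 < x1 := by linarith
  have x1hi : x1 < 1 / 2 := by linarith
  set F := v * sh 1 v⁻¹ with hF
  have hFm : F ∈ PLo := PLo.mul_mem hvm (sh_mem 1 (PLo.inv_mem hvm))
  have Fapp : ∀ t, F t = v (v⁻¹ (t - 1) + 1) := by
    intro t
    rw [hF, mul_app, sh_app]; norm_num
  have Flow : ∀ t, t ≤ 0 → F t = t := by
    intro t ht
    have e1 : v⁻¹ (t - 1) = t - 1 := by rw [inv_apply_eq, vl _ (by linarith)]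
    rw [Fapp, e1, vl _ (by linarith)]; ring
  have Fhigh : ∀ t, 5 / 2 ≤ t → F t = t := by
    intro t ht
    have e1 : v⁻¹ (t - 1) = t - 2 := by rw [inv_apply_eq, vr _ (by linarith)]; ring
    rw [Fapp, e1, vr _ (by linarith)]; ring
  have Fend : ∀ t, 9 / 4 ≤ t → t ≤ 5 / 2 → F t = 5 / 2 - μ * (5 / 2 - t) := by
    intro t h2 h3
    have e1 : v⁻¹ (t - 1) = x1 + μ * (t - 9 / 4) := by
      rw [inv_apply_eq]
      have e2 := vb (x1 + μ * (t - 9 / 4)) (by nlinarith) (by nlinarith)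
      have e3 : (v (x1 + μ * (t - 9 / 4)) - (t - 1)) * (μ / 4) = 0 := by
        rw [hx1] at e2 ⊢
        linear_combination e2
      rcases mul_eq_zero.mp e3 with e4 | e4 <;> linarith
    rw [Fapp, e1, vr _ (by nlinarith)]
    rw [hx1]; ring
  -- F moves points up
  have vup : ∀ s, 0 < s → s ≤ 1 / 2 → s < v s := by
    intro s h2 h3
    rcases le_total s x1 with h4 | h4
    · have e1 := va s h2.le h4
      nlinarith
    · have : v x1 ≤ v s := v.monotone h4
      rw [va.right (by linarith)] at this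
      linarith
  have vlt : ∀ w, 0 < w → w < 1 / 2 → v w < w + 1 := by
    intro w h2 h3
    rcases le_total w x1 with h4 | h4
    · have e1 := va w h2.le h4
      nlinarith
    · have e1 := vb w h4 h3.le
      have e2 : (1 / 2 - x1) = μ / 4 := by rw [hx1]; ring
      rw [e2] at e1
      nlinarith
  have Fup : ∀ t, 0 < t → t < 5 / 2 → t < F t := by
    intro t h2 h3
    rw [Fapp]
    set w := v⁻¹ (t - 1) with hw
    have ht : t = v w + 1 := by rw [hw]; simp
    have w1 : -1 < w := by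
      rw [hw, lt_inv_apply, vl _ (by norm_num)]; linarith
    have w2 : w < 1 / 2 := by
      rw [hw, inv_apply_lt, vr _ le_rfl]; linarith
    rw [ht]
    rcases le_total w 0 with h4 | h4
    · rw [vl w h4]
      rcases le_total (w + 1) (1 / 2) with h5 | h5
      · exact vup _ (by linarith) h5
      · rw [vr _ h5]; linarith
    · rw [vr (w + 1) (by linarith)]
      rcases eq_or_lt_of_le h4 with h5 | h5
      · rw [← h5, vl 0 le_rfl]; norm_num
      · have := vlt w h5 w2
        linarith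
  obtain ⟨n, hn⟩ := iter (g := F) (a := 0) (b := 5 / 2) (u := 1 / 5) (w := 9 / 4) Fup
    (by norm_num) (by norm_num) (by norm_num)
  have hn' : (F ^ n)⁻¹ (9 / 4) < 1 / 5 := by rw [inv_apply_lt]; exact hn
  have Fpow0 : ∀ k : ℕ, (F ^ k) 0 = 0 := by
    intro k
    induction k with
    | zero => rfl
    | succ k ih => rw [pow_succ', mul_app, ih, Flow 0 le_rfl]
  -- the local conjugacy
  obtain ⟨X, hX, X1, X2, X3⟩ := exists_aff (e - δ) e (9 / 4) (5 / 2) (by linarith) (by norm_num)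
  have Xf : ∀ t, e - δ ≤ t → t ≤ e → X t = 5 / 2 - (e - t) / (4 * δ) := by
    intro t h2 h3
    have e1 := X3 (e - δ) e t h2 h3
    rw [X1, X2] at e1
    field_simp
    nlinarith
  have Xconj : ∀ u, e - δ ≤ u → X (f u) = F (X u) := by
    intro u hu
    rcases le_total u e with h2 | h2
    · have a1 : f u = e - μ * (e - u) := hg u hu h2
      have a2 : e - δ ≤ f u := by rw [a1]; nlinarith
      have a3 : f u ≤ e := by rw [a1]; nlinarith
      have a4 : 9 / 4 ≤ X u := by rw [← X1]; exact X.monotone hu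
      have a5 : X u ≤ 5 / 2 := by rw [← X2]; exact X.monotone h2
      rw [Fend _ a4 a5, Xf _ a2 a3, Xf _ hu h2, a1]
      field_simp
      ring
    · have a4 : 5 / 2 ≤ X u := by rw [← X2]; exact X.monotone h2
      rw [hhigh u h2, Fhigh _ a4]
  set j := n + 1 with hj
  set y := (f ^ j)⁻¹ (e - δ) with hy
  set χj := (F ^ j)⁻¹ * X * f ^ j with hχj
  have hχjm : χj ∈ PLo :=
    PLo.mul_mem (PLo.mul_mem (PLo.inv_mem (PLo.pow_mem hFm j)) hX) (PLo.pow_mem hf j)
  have χconj : ∀ s, y ≤ s → χj (f s) = F (χj s) := by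
    intro s hs
    rw [hχj]
    simp only [mul_app]
    have a1 : (f ^ j) (f s) = f ((f ^ j) s) := pow_app_comm f j s
    have a2 : e - δ ≤ (f ^ j) s := by
      rwa [hy, inv_apply_le] at hs
    rw [a1, Xconj _ a2, pow_comm_app]
  have fy : y ≤ f y := by
    have a1 : (f ^ j) (f y) = f ((f ^ j) y) := pow_app_comm f j y
    have a2 : (f ^ j) y = e - δ := by rw [hy]; simp
    have a3 : e - δ ≤ f (e - δ) := by rw [hg _ le_rfl (by linarith)]; nlinarith
    have a4 : y ≤ f y ↔ (f ^ j) y ≤ (f ^ j) (f y) := (f ^ j).le_iff_le.symm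
    rw [a4, a1, a2]; exact a3
  set ρ := (F ^ j)⁻¹ (9 / 4) with hρ
  have χy : χj y = ρ := by
    rw [hχj]
    simp only [mul_app]
    have a2 : (f ^ j) y = e - δ := by rw [hy]; simp
    rw [a2, X1]
  have hρ0 : 0 < ρ := by
    rw [hρ, lt_inv_apply, Fpow0]; norm_num
  have Fρ : F ρ < 1 / 5 := by
    have a1 : F ρ = (F ^ n)⁻¹ (9 / 4) := by
      rw [hρ, hj, pow_succ, mul_inv_rev]
      simp
    rw [a1]; exact hn'
  set a0 := min A (y - 1) with ha0
  have a01 : a0 ≤ A := min_le_left _ _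
  have a02 : a0 ≤ y - 1 := min_le_right _ _
  obtain ⟨D, hD, D1, D2, D3⟩ := exists_aff a0 y (-(1 / 5)) ρ (by linarith) (by linarith)
  obtain ⟨χ, hχ, c1, c2⟩ := exists_glue hD hχjm y (by rw [D2, χy])
  have χa0 : χ a0 = -(1 / 5) := by rw [c1 _ (by linarith), D1]
  have χyy : χ y = ρ := by rw [c1 _ le_rfl, D2]
  set c := χ * f * χ⁻¹ * F⁻¹ with hc
  have hcm : c ∈ PLo := PLo.mul_mem (PLo.mul_mem (PLo.mul_mem hχ hf) (PLo.inv_mem hχ))
    (PLo.inv_mem hFm)
  have cR : c ∈ Rt (-(1 / 4)) := by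
    intro x hx
    simp only [mem_Iic] at hx
    rw [hc]
    simp only [mul_app]
    have e1 : F⁻¹ x = x := by rw [inv_apply_eq, Flow x (by linarith)]
    have e2 : χ⁻¹ x ≤ A := by
      refine le_trans ?_ a01
      rw [inv_apply_le, χa0]; linarith
    rw [e1, hlow _ e2]; simp
  have cL : c ∈ Lt (1 / 4) := by
    intro x hx
    simp only [mem_Ici] at hx
    rw [hc]
    simp only [mul_app]
    set w := F⁻¹ x with hw
    have Fw : F w = x := by rw [hw]; simp
    have w1 : ρ ≤ w := by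
      rw [hw, le_inv_apply]; linarith
    set s := χ⁻¹ w with hs
    have s1 : y ≤ s := by rw [hs, le_inv_apply, χyy]; exact w1
    have s2 : y ≤ f s := fy.trans (f.monotone s1)
    rw [c2 _ s2, χconj s s1, ← c2 s s1, hs, RelIso.apply_inv_self, Fw]
  have key : χ * f * χ⁻¹ = c * v * sh 1 v⁻¹ := by
    rw [mul_assoc c v, ← hF, hc]; group
  apply R2.of_conj hχ
  rw [key]
  exact twisted_R2 hv hvm hcm cR cL

theorem caseA {f : G} (hf : f ∈ PLo) {A B : ℝ} (hA : ∀ t, t ≤ A → f t = t)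
    (hB : ∀ t, B ≤ t → f t = t) : R2 f := by
  by_cases hne : ∃ t, f t ≠ t
  swap
  · push Not at hne
    have : f = 1 := by ext t; exact hne t
    rw [this]
    exact ⟨1, 1, rev_one, rev_one, by simp⟩
  set S := {t : ℝ | f t ≠ t} with hS
  have hSne : S.Nonempty := hne
  have hSb : BddAbove S := ⟨B, by
    intro t ht
    by_contra h
    push Not at h
    exact ht (hB t h.le)⟩
  set e := sSup S with he
  have h1 : ∀ t, e < t → f t = t := by
    intro t ht
    by_contra h
    have : t ≤ e := le_csSup hSb h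
    linarith
  have h2 : f e = e := by
    by_contra h
    rcases lt_or_gt_of_ne h with h3 | h3
    · have h4 : e < f⁻¹ e := by rw [lt_inv_apply]; exact h3
      have h5 := h1 _ h4
      rw [RelIso.apply_inv_self] at h5
      linarith
    · obtain ⟨t, ht1, ht2⟩ := exists_between h3
      have h5 := h1 t ht1
      have h6 := f.strictMono ht1
      linarith
  have h3 : ∀ t, e ≤ t → f t = t := by
    intro t ht
    rcases eq_or_lt_of_le ht with h | h
    · rw [← h, h2]
    · exact h1 t h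
  obtain ⟨a, ha, y, hy, hg⟩ := (hf e).2.exists
  rw [h2] at hg
  have ha1 : a ≠ 1 := by
    intro h4
    have h5 : e ≤ y := by
      apply csSup_le hSne
      intro t ht
      by_contra h6
      push Not at h6
      apply ht
      rcases le_total t e with h7 | h7
      · rw [hg t h6.le h7, h4]; ring
      · exact h3 t h7
    linarith
  rcases lt_or_gt_of_ne ha1 with h4 | h4
  · apply caseA_aux hf (e := e) (δ := e - y) (μ := a) (A := A) (by linarith) ha h4 hA h3
    intro t h5 h6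
    rw [hg t (by linarith) h6]; ring
  · apply R2.of_inv
    have fy : f y = e + a * (y - e) := hg y le_rfl hy.le
    apply caseA_aux (PLo.inv_mem hf) (e := e) (δ := a * (e - y)) (μ := a⁻¹) (A := A)
      (mul_pos ha (by linarith)) (inv_pos.mpr ha) (inv_lt_one_of_one_lt₀ h4)
    · intro t ht
      rw [inv_apply_eq, hA t ht]
    · intro t ht
      rw [inv_apply_eq, h3 t ht]
    · intro t h5 h6
      have h7 : y ≤ e - a⁻¹ * (e - t) := by
        have : a⁻¹ * (e - t) ≤ e - y := by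
          rw [inv_mul_le_iff₀ ha]; linarith
        linarith
      have h8 : e - a⁻¹ * (e - t) ≤ e := by
        have : 0 ≤ a⁻¹ * (e - t) := mul_nonneg (inv_pos.mpr ha).le (by linarith)
        linarith
      rw [inv_apply_eq, hg _ h7 h8]
      field_simp
      ring

end Pool.Agent.H67
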