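import Pool.Agent.H67.Zig
import Pool.Agent.H67.Ident

/-!
Windows, and commutators with the unit translation as products of two reversibles.
-/

open Filter Topology Set

namespace Pool.Agent.H67

/-- an element moving `c` up can be straightened to a unit translation on a long window -/
theorem window {f : G} (hf : f ∈ PLo) {c : ℝ} (hc : c < f c) (N : ℕ) :
    ∃ χ ∈ PLo, χ c = 0 ∧ ∀ t, c ≤ t → t ≤ (f ^ N) c → χ (f t) = χ t + 1 := by
  have hcN : ∀ n : ℕ, c ≤ (f ^ n) c := by
    intro n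
    induction n with
    | zero => simp
    | succ n ih =>
      rw [pow_succ', mul_app]
      exact hc.le.trans (f.monotone ih)
  induction N with
  | zero =>
    obtain ⟨χ, h1, h2, h3, _⟩ := exists_aff c (f c) 0 1 hc (by norm_num)
    refine ⟨χ, h1, h2, fun t a b => ?_⟩
    have : t = c := le_antisymm (by simpa using b) a
    rw [this, h3, h2]; norm_num
  | succ N ih =>
    obtain ⟨χ, h1, h2, h3⟩ := ih
    obtain ⟨ψ, k1, k2, k3⟩ := exists_glue h1
      (PLo.mul_mem (PLo.mul_mem (tr_mem 1) h1) (PLo.inv_mem hf)) ((f ^ (N + 1)) c) (by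
        rw [pow_succ', mul_app, h3 _ (hcN N) le_rfl]
        simp)
    refine ⟨ψ, k1, by rw [k2 c (hcN _), h2], fun t a b => ?_⟩
    rw [k2 t b]
    rcases le_total t ((f ^ N) c) with h | h
    · rw [k2 (f t) (by rw [pow_succ', mul_app]; exact f.monotone h), h3 t a h]
    · rw [k3 (f t) (by rw [pow_succ', mul_app]; exact f.monotone h)]
      simp

lemma window_val {f χ : G} {c : ℝ} {N : ℕ} (hc : c < f c) (h0 : χ c = 0)
    (h : ∀ t, c ≤ t → t ≤ (f ^ N) c → χ (f t) = χ t + 1) (k : ℕ) (hk : k ≤ N + 1) :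
    χ ((f ^ k) c) = k := by
  have hm : ∀ n : ℕ, (f ^ n) c ≤ (f ^ (n + 1)) c := by
    intro n
    rw [pow_succ, mul_app]
    exact (f ^ n).monotone hc.le
  have hmono : Monotone (fun n : ℕ => (f ^ n) c) := monotone_nat_of_le_succ hm
  induction k with
  | zero => simp [h0]
  | succ k ih =>
    rw [pow_succ', mul_app, h, ih (by omega)]
    · push_cast; ring
    · have := hmono (Nat.zero_le k)
      simpa using this
    · exact hmono (by omega)

/-- a reversible element equal to the unit translation on a long window -/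
theorem exists_beta (M : ℕ) : ∃ β, Rev β ∧ ∀ t : ℝ, -M ≤ t → t ≤ M → β t = t + 1 := by
  have h0 : (1 : ℝ) < Zg 1 := by
    rw [Zg_even (m := 0) (by simp) (by push_cast; norm_num) (by push_cast; norm_num)]
    push_cast; norm_num
  obtain ⟨χ, h1, h2, h3⟩ := window Zg_mem h0 (2 * M)
  have h4 := window_val h0 h2 h3 (2 * M) (by omega)
  refine ⟨(tr (-M) * χ) * Zg * (tr (-M) * χ)⁻¹,
    Zg_rev.conj (PLo.mul_mem (tr_mem _) h1), fun t a b => ?_⟩
  simp only [mul_inv_rev, mul_app, tr_app, tr_inv_app]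
  set s := χ⁻¹ (t - -M) with hs
  have hχs : χ s = t - -M := by rw [hs]; simp
  have s1 : 1 ≤ s := by
    rw [hs, le_inv_apply, h2]; linarith
  have s2 : s ≤ (Zg ^ (2 * M)) 1 := by
    rw [hs, inv_apply_le, h4]; push_cast; linarith
  rw [h3 s s1 s2, hχs]; ring

lemma beta_pow {β : G} {M : ℕ} (h : ∀ t : ℝ, -M ≤ t → t ≤ M → β t = t + 1) (k : ℕ) {t : ℝ}
    (h1 : -M ≤ t) (h2 : t + k ≤ M + 1) : (β ^ k) t = t + k := by
  induction k with
  | zero => simp
  | succ k ih =>
    push_cast at h2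
    rw [pow_succ', mul_app, ih (by linarith), h]
    · push_cast; ring
    · have : (0 : ℝ) ≤ k := Nat.cast_nonneg _
      linarith
    · linarith

/-- commutators of the unit translation with elements that are translations near both ends -/
theorem lemR {W : G} (hW : W ∈ PLo) {i j : ℕ} {A : ℝ} (hl : ∀ t, t ≤ -A → W t = t + i)
    (hr : ∀ t, A ≤ t → W t = t + j) : R2 ((tr 1)⁻¹ * W * tr 1 * W⁻¹) := by
  obtain ⟨L, hL⟩ := exists_nat_ge (max A 0)
  have hLA : A ≤ L := (le_max_left _ _).trans hL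
  have hL0 : (0 : ℝ) ≤ L := Nat.cast_nonneg _
  have hi0 : (0 : ℝ) ≤ i := Nat.cast_nonneg _
  have hj0 : (0 : ℝ) ≤ j := Nat.cast_nonneg _
  set M := L + 2 + i + j with hM
  have hMr : (M : ℝ) = L + 2 + i + j := by rw [hM]; push_cast; ring
  obtain ⟨β, hβ, hβ1⟩ := exists_beta M
  have hβm : β ∈ PLo := hβ.1
  have b1 : ∀ t : ℝ, -L - 1 ≤ t → t ≤ -L → (β ^ i) t = t + i := by
    intro t h1 h2
    exact beta_pow hβ1 i (by linarith) (by linarith)
  have b2 : ∀ t : ℝ, L ≤ t → t ≤ L + 1 → (β ^ j) t = t + j := by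
    intro t h1 h2
    exact beta_pow hβ1 j (by linarith) (by linarith)
  obtain ⟨W1, hW1, w1, w2⟩ := exists_glue (PLo.pow_mem hβm i) hW (-L) (by
    rw [b1 _ (by linarith) le_rfl, hl _ (by linarith)])
  obtain ⟨V, hV, v1, v2⟩ := exists_glue hW1 (PLo.pow_mem hβm j) L (by
    rw [w2 _ (by linarith), b2 _ le_rfl (by linarith), hr _ hLA])
  have Vleft : ∀ t : ℝ, t ≤ -L → V t = (β ^ i) t := fun t ht => by
    rw [v1 t (by linarith), w1 t ht]
  have Vmid : ∀ t : ℝ, -L - 1 ≤ t → t ≤ L + 1 → V t = W t := by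
    intro t h1 h2
    rcases le_total t (-L) with h | h
    · rw [Vleft t h, b1 t h1 h, hl t (by linarith)]
    rcases le_total t L with h' | h'
    · rw [v1 t h', w2 t h]
    · rw [v2 t h', b2 t h' h2, hr t (by linarith)]
  have Vright : ∀ t : ℝ, L ≤ t → V t = (β ^ j) t := v2
  have hcomm : ∀ (k : ℕ) (t : ℝ), β ((β ^ k) t) = (β ^ k) (β t) := by
    intro k t
    rw [← mul_app, ← mul_app, ← pow_succ, pow_succ']
  have key : β * ((tr 1)⁻¹ * W * tr 1 * W⁻¹) * V = V * β := by
    ext t
    simp only [mul_app, tr_app, tr_inv_app]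
    rcases le_total t (-L - 1) with h | h
    · have hβt : β t ≤ -L := by
        calc β t ≤ β (-L - 1) := β.monotone h
          _ = -L := by rw [hβ1 _ (by linarith) (by linarith)]; ring
      rw [Vleft t (by linarith), Vleft _ hβt]
      set y := (β ^ i) t with hy
      have hyle : W⁻¹ y ≤ -L - 1 := by
        rw [inv_apply_le, hl _ (by linarith), ← b1 _ le_rfl (by linarith)]
        exact (β ^ i).monotone h
      have e1 : W (W⁻¹ y + 1) = W⁻¹ y + 1 + i := hl _ (by linarith)
      have e2 : W (W⁻¹ y) = W⁻¹ y + i := hl _ (by linarith)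
      rw [RelIso.apply_inv_self] at e2
      have e3 : W (W⁻¹ y + 1) - 1 = y := by rw [e1]; linarith
      rw [e3, hy, hcomm]
    rcases le_total t L with h' | h'
    · rw [Vmid t h (by linarith), RelIso.inv_apply_self, hβ1 t (by linarith) (by linarith),
        Vmid (t + 1) (by linarith) (by linarith)]
      have a1 : -L + i ≤ W (t + 1) := by
        rw [← hl (-L) (by linarith)]; exact W.monotone (by linarith)
      have a2 : W (t + 1) ≤ L + 1 + j := by
        rw [← hr (L + 1) (by linarith)]; exact W.monotone (by linarith)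
      rw [hβ1 _ (by linarith) (by linarith)]; ring
    · have hβt : L ≤ β t := by
        calc (L : ℝ) ≤ β L := by rw [hβ1 _ (by linarith) (by linarith)]; linarith
          _ ≤ β t := β.monotone h'
      rw [Vright t h', Vright _ hβt]
      set y := (β ^ j) t with hy
      have hyge : L ≤ W⁻¹ y := by
        rw [le_inv_apply, hr _ (by linarith), ← b2 _ le_rfl (by linarith)]
        exact (β ^ j).monotone h'
      have e1 : W (W⁻¹ y + 1) = W⁻¹ y + 1 + j := hr _ (by linarith)
      have e2 : W (W⁻¹ y) = W⁻¹ y + j := hr _ (by linarith)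
      rw [RelIso.apply_inv_self] at e2
      have e3 : W (W⁻¹ y + 1) - 1 = y := by rw [e1]; linarith
      rw [e3, hy, hcomm]
  refine ⟨β⁻¹, V * β * V⁻¹, hβ.inv, hβ.conj hV, ?_⟩
  rw [← key]; group

lemma WW_mem {v : G} (hv : v ∈ PLo) {z : List G} (hz : ∀ x ∈ z, x ∈ PLo) : WW v z ∈ PLo := by
  have hKK : ∀ z : List G, (∀ x ∈ z, x ∈ PLo) → KK z ∈ PLo := by
    intro z
    induction z with
    | nil => intro _; exact PLo.one_mem
    | cons a r ih =>
      intro h
      exact PLo.mul_mem (PLo.inv_mem (h a (by simp))) (ih fun x hx => h x (by simp [hx]))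
  induction z with
  | nil => exact PLo.mul_mem (tr_mem 1) hv
  | cons a r ih =>
    have hP : (a :: r).prod ∈ PLo := PLo.list_prod_mem hz
    exact PLo.mul_mem (PLo.mul_mem (PLo.mul_mem (PLo.mul_mem (tr_mem 1) (hKK _ hz)) (sh_mem 1 hP)) hv)
      (ih fun x hx => hz x (by simp [hx]))

lemma ZZ_mem {z : List G} (hz : ∀ x ∈ z, x ∈ PLo) : ZZ z ∈ PLo := by
  induction z with
  | nil => exact PLo.one_mem
  | cons a r ih =>
    exact PLo.mul_mem (sh_mem 2 (hz a (by simp))) (sh_mem 2 (ih fun x hx => hz x (by simp [hx])))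

lemma WW_left {v : G} (hv : Vgood v) {z : List G} (hz : ∀ x ∈ z, x ∈ Sm) {t : ℝ}
    (ht : t ≤ -(z.length + 2 : ℝ)) : WW v z t = t + (z.length + 1 : ℕ) := by
  induction z generalizing t with
  | nil =>
    change tr 1 (v t) = _
    simp only [List.length_nil, Nat.cast_zero, zero_add] at ht
    rw [hv.left t (by linarith)]; simp
  | cons a r ih =>
    change tr 1 (KK (a :: r) (sh 1 (a :: r).prod (v (WW v r t)))) = _
    rw [List.length_cons] at ht ⊢
    push_cast at ht
    rw [ih (fun x hx => hz x (by simp [hx])) (by linarith)]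
    have h1 : t + (r.length + 1 : ℕ) ≤ -2 := by push_cast; linarith
    have m1 : sh 1 (a :: r).prod ∈ Rt (-(1 / 3) + (1 : ℕ)) := sh_Rt 1 (sm_prod hz).1
    have m2 : KK (a :: r) ∈ Rt (-(1 / 3)) := (sm_KK hz).1
    rw [hv.left _ (by linarith), mem_Rt.mp m1 _ (by push_cast at h1 ⊢; linarith),
      mem_Rt.mp m2 _ (by linarith)]
    simp only [tr_app]
    push_cast; ring

lemma WW_right {v : G} (hv : Vgood v) {z : List G} (hz : ∀ x ∈ z, x ∈ Sm) {t : ℝ}
    (ht : 2 ≤ t) : WW v z t = t + (2 * (z.length + 1) : ℕ) := by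
  induction z generalizing t with
  | nil =>
    change tr 1 (v t) = _
    rw [hv.right t (by linarith)]; simp only [tr_app, List.length_nil]; push_cast; ring
  | cons a r ih =>
    change tr 1 (KK (a :: r) (sh 1 (a :: r).prod (v (WW v r t)))) = _
    rw [List.length_cons]
    rw [ih (fun x hx => hz x (by simp [hx])) ht]
    have h0 : (0 : ℝ) ≤ (2 * (r.length + 1) : ℕ) := Nat.cast_nonneg _
    have m1 : sh 1 (a :: r).prod ∈ Lt (1 / 3 + (1 : ℕ)) := sh_Lt 1 (sm_prod hz).2
    have m2 : KK (a :: r) ∈ Lt (1 / 3) := (sm_KK hz).2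
    rw [hv.right _ (by linarith), mem_Lt.mp m1 _ (by push_cast at h0 ⊢; linarith),
      mem_Lt.mp m2 _ (by linarith)]
    simp only [tr_app]
    push_cast; ring

end Pool.Agent.H67
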