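import Pool.Agent.H67.Half
import Pool.Agent.H67.LemR

/-!
Unbounded support.
-/

open Filter Topology Set

namespace Pool.Agent.H67

lemma T0_sym {s : ℝ} (h0 : 0 ≤ s) (h1 : s ≤ 1) : T0 (1 - T0 (1 - s)) = s := by
  rcases le_total (1 - s) (1 / 3) with h | h
  · rw [T0_low (by linarith) h, T0_high (by linarith) (by linarith)]; ring
  · rw [T0_high h (by linarith), T0_low (by linarith) (by linarith)]; ring

lemma Sg_sym (n : ℤ) {s : ℝ} (h0 : 0 ≤ s) (h1 : s ≤ 1) :
    1 - Sg n (1 - s) = Sg (-n - 1) s := by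
  by_cases hn : Even n
  · have h2 : ¬ Even (-n - 1) := by
      intro h
      obtain ⟨a, ha⟩ := hn
      obtain ⟨b, hb⟩ := h
      omega
    rw [Sg_even hn, Sg_odd h2]
    symm
    rw [inv_apply_eq, T0_sym h0 h1]
  · have h2 : Even (-n - 1) := by
      rw [Int.not_even_iff_odd] at hn
      obtain ⟨a, ha⟩ := hn
      exact ⟨-a - 1, by omega⟩
    rw [Sg_odd hn, Sg_even h2]
    have h3 : T0⁻¹ (1 - s) = 1 - T0 s := by
      rw [inv_apply_eq]
      have := T0_sym (s := 1 - s) (by linarith) (by linarith)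
      rw [sub_sub_cancel] at this
      exact this.symm
    rw [h3]; ring

/-- reflecting a bump -/
lemma Bump.reflect {n : ℤ} {c : G} {x y : ℝ} (h : Bump (Sg n) c x y) :
    Bump (Sg (-n - 1)) (rf c) (-y) (-x) := by
  obtain ⟨φ, h1, h2, h3, h4⟩ := h
  refine ⟨tr 1 * rf φ, PLo.mul_mem (tr_mem 1) (rf_mem h1), ?_, ?_, ?_⟩
  · simp [h3]
  · simp [h2]
  · intro t ht1 ht2
    have e1 := h4 (-t) (by linarith) (by linarith)
    have e2 : 0 ≤ φ (-t) := by rw [← h2]; exact φ.monotone (by linarith)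
    have e3 : φ (-t) ≤ 1 := by rw [← h3]; exact φ.monotone (by linarith)
    have e4 := Sg_sym n (s := 1 - φ (-t)) (by linarith) (by linarith)
    rw [sub_sub_cancel] at e4
    simp only [mul_app, rf_app, tr_app, neg_neg]
    rw [e1, show -φ (-t) + 1 = 1 - φ (-t) by ring, ← e4]; ring

/-- assembling the two halves -/
theorem glue_R2 {f : G} (hf : f ∈ PLo) {ε ε0 : ℝ} (hε : ε = 1 ∨ ε = -1) (hε0 : |ε0| ≤ 1)
    (hf0 : ∀ t : ℝ, -13 ≤ t → t ≤ 13 → f t = t + ε0)
    (hfm : ∀ m : ℤ, 1 ≤ m → ∀ t : ℝ, 30 * m - 13 ≤ t → t ≤ 30 * m + 13 → f t = t + ε)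
    (αL : ℤ → ℝ) (hα0 : αL 0 = ε0) (hα : ∀ m, |αL m| ≤ 1) {bL : G} (hbL : bL ∈ PLo)
    (hL1 : ∀ t, -25 ≤ t → bL t = Zg t)
    (hL2 : ∀ m : ℤ, m < 0 → Bump (Sg m) bL (30 * m) (30 * (m + 1 : ℤ)))
    (hL3 : ∀ m : ℤ, m < 0 → Bump (Sg m) (bL * f) (30 * m + dd m (αL m))
      (30 * (m + 1 : ℤ) + dd (m + 1) (αL (m + 1)))) : R2 f := by
  have hεabs : |ε| ≤ 1 := by rcases hε with rfl | rfl <;> simp
  obtain ⟨bR, hbR, hR1, hR2, hR3⟩ := right_half hε hε0 hf hf0 hfm
  obtain ⟨b, hb, b1, b2⟩ := exists_glue hbL hbR 0 (by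
    rw [hL1 0 (by norm_num), hR1 0 (by norm_num)])
  have bRr : ∀ t, -25 ≤ t → b t = bR t := by
    intro t ht
    rcases le_total t 0 with h | h
    · rw [b1 t h, hL1 t ht, hR1 t (by linarith)]
    · exact b2 t h
  have bLl : ∀ t, t ≤ 25 → b t = bL t := by
    intro t ht
    rcases le_total t 0 with h | h
    · exact b1 t h
    · rw [b2 t h, hL1 t (by linarith), hR1 t ht]
  let α : ℤ → ℝ := fun m => if 1 ≤ m then ε else αL m
  have hαa : ∀ m, |α m| ≤ 1 := by
    intro m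
    change |if 1 ≤ m then ε else αL m| ≤ 1
    split_ifs
    · exact hεabs
    · exact hα m
  have revb : Rev b := by
    obtain ⟨h1, h2⟩ := hex_of_near (fun n => 30 * n) (by intro n; simp)
    refine rev_of_bumps (fun n => 30 * n) h1 h2 Sg Sg_succ Sg_zero hb ?_
    intro m
    rcases lt_or_ge m 0 with hm | hm
    · refine (hL2 m hm).congr fun t _ ht => bLl t ?_
      have : ((m + 1 : ℤ) : ℝ) ≤ 0 := by exact_mod_cast hm
      linarith
    · refine (hR2 m hm).congr fun t ht _ => bRr t ?_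
      have : (0 : ℝ) ≤ m := by exact_mod_cast hm
      linarith
  have revbf : Rev (b * f) := by
    obtain ⟨h1, h2⟩ := hex_of_near (fun n => 30 * n + dd n (α n)) (by
      intro n
      rw [add_sub_cancel_left]
      exact dd_abs n (hαa n))
    refine rev_of_bumps (fun n => 30 * n + dd n (α n)) h1 h2 Sg Sg_succ Sg_zero
      (PLo.mul_mem hb hf) ?_
    intro m
    rcases lt_or_ge m 0 with hm | hm
    · have e1 : α m = αL m := if_neg (by omega)
      have e2 : α (m + 1) = αL (m + 1) := if_neg (by omega)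
      have hm' : ((m + 1 : ℤ) : ℝ) ≤ 0 := by exact_mod_cast hm
      simp only [e1, e2]
      refine (hL3 m hm).congr fun t _ ht => ?_
      rw [mul_app, mul_app]
      apply bLl
      have h3 := abs_le.mp (dd_abs (m + 1) (hα (m + 1)))
      have h4 : f t ≤ f 3 := f.monotone (by linarith [h3.2])
      rw [hf0 3 (by norm_num) (by norm_num)] at h4
      have h5 := abs_le.mp hε0
      linarith [h5.2]
    · have e2 : α (m + 1) = ε := if_pos (by omega)
      have e1 : α m = (if 1 ≤ m then ε else ε0) := by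
        change (if 1 ≤ m then ε else αL m) = _
        split_ifs with h
        · rfl
        · have : m = 0 := by omega
          rw [this, hα0]
      simp only [e1, e2]
      refine (hR3 m hm).congr fun t ht _ => ?_
      rw [mul_app, mul_app]
      apply bRr
      have hm' : (0 : ℝ) ≤ m := by exact_mod_cast hm
      rw [← e1] at ht
      have h3 := abs_le.mp (dd_abs m (hαa m))
      have h4 : f (-3) ≤ f t := f.monotone (by linarith [h3.1])
      rw [hf0 (-3) (by norm_num) (by norm_num)] at h4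
      have h5 := abs_le.mp hε0
      linarith [h5.1]
  exact ⟨b⁻¹, b * f, revb.inv, revbf, by group⟩

/-- the left half by reflection -/
theorem left_half {f : G} (hf : f ∈ PLo) {ε ε0 : ℝ} (hε : ε = 1 ∨ ε = -1) (hε0 : |ε0| ≤ 1)
    (hf0 : ∀ t : ℝ, -13 ≤ t → t ≤ 13 → f t = t + ε0)
    (hfm : ∀ m : ℤ, m ≤ -1 → ∀ t : ℝ, 30 * m - 13 ≤ t → t ≤ 30 * m + 13 → f t = t + ε) :
    ∃ bL ∈ PLo, (∀ t, -25 ≤ t → bL t = Zg t) ∧
      (∀ m : ℤ, m < 0 → Bump (Sg m) bL (30 * m) (30 * (m + 1 : ℤ))) ∧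
      (∀ m : ℤ, m < 0 → Bump (Sg m) (bL * f) (30 * m + dd m (if m = 0 then ε0 else ε))
      (30 * (m + 1 : ℤ) + dd (m + 1) (if m + 1 = 0 then ε0 else ε))) := by
  have hε' : -ε = 1 ∨ -ε = -1 := by
    rcases hε with rfl | rfl
    · right; rfl
    · left; norm_num
  have hε0' : |-ε0| ≤ 1 := by rwa [abs_neg]
  obtain ⟨b, hb, h1, h2, h3⟩ := right_half hε' hε0' (rf_mem hf) (by
    intro t a c
    rw [rf_app, hf0 (-t) (by linarith) (by linarith)]; ring) (by
    intro m hm t a c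
    rw [rf_app, hfm (-m) (by omega) (-t) (by push_cast; linarith) (by push_cast; linarith)]
    ring)
  refine ⟨rf b, rf_mem hb, ?_, ?_, ?_⟩
  · intro t ht
    rw [rf_app, h1 (-t) (by linarith), ← rf_app, rf_Zg]
  · intro m hm
    have e := (h2 (-m - 1) (by omega)).reflect
    have e1 : -(-m - 1) - 1 = m := by ring
    rw [e1] at e
    push_cast at e ⊢
    convert e using 1 <;> ring
  · intro m hm
    have e := (h3 (-m - 1) (by omega)).reflect
    have e1 : -(-m - 1) - 1 = m := by ring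
    rw [e1, rf_mul, rf_rf] at e
    have e2 : (-m - 1 + 1 : ℤ) = -m := by ring
    rw [e2, dd_neg] at e
    have e3 : dd (-m - 1) (if 1 ≤ -m - 1 then -ε else -ε0)
        = -dd (m + 1) (if m + 1 = 0 then ε0 else ε) := by
      have e4 : (-m - 1 : ℤ) = -(m + 1) := by ring
      rw [e4]
      split_ifs with h5 h6 h6
      · omega
      · exact dd_neg _ _
      · exact dd_neg _ _
      · omega
    rw [e3] at e
    have e5 : (if m = 0 then ε0 else ε) = ε := if_neg (by omega)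
    rw [e5]
    push_cast at e ⊢
    convert e using 1 <;> ring

/-! ### Normalising windows -/

theorem normalize_pos {f : G} (hf : f ∈ PLo) (A : ℝ) (h : ∀ B, ∃ t, B < t ∧ t < f t) :
    ∃ χ ∈ PLo, (∀ t, t ≤ A → χ t = t) ∧ ∀ k : ℕ, ∀ x : ℝ, A + 1 + 30 * k ≤ x →
      x ≤ A + 29 + 30 * k → (χ * f * χ⁻¹) x = x + 1 := by
  have step : ∀ k : ℕ, ∀ s : ℝ × G, (s.2 ∈ PLo ∧ s.1 < f s.1 ∧ s.2 s.1 = A + 1 + 30 * k) →
      ∃ s' : ℝ × G, (s'.2 ∈ PLo ∧ s'.1 < f s'.1 ∧ s'.2 s'.1 = A + 1 + 30 * (k + 1 : ℕ)) ∧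
        (s.1 + 1 ≤ s'.1 ∧ f ((f ^ 28) s.1) ≤ s'.1 ∧ (∀ t, t ≤ s.1 → s'.2 t = s.2 t) ∧
        (∀ t, s.1 ≤ t → t ≤ (f ^ 28) s.1 → s'.2 (f t) = s'.2 t + 1) ∧
        s'.2 ((f ^ 28) s.1) = A + 29 + 30 * k) := by
    rintro k ⟨c, g⟩ ⟨hg, hc, hgc⟩
    simp only at hg hc hgc
    obtain ⟨X, hX, X0, X1⟩ := window hf hc 28
    have v28 := window_val hc X0 X1 28 (by norm_num)
    have hmon : c ≤ (f ^ 28) c := by
      have : ∀ n : ℕ, c ≤ (f ^ n) c := by
        intro n
        induction n with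
        | zero => simp
        | succ n ih =>
          rw [pow_succ', mul_app]
          exact hc.le.trans (f.monotone ih)
      exact this 28
    have v29 : X (f ((f ^ 28) c)) = 29 := by
      rw [X1 _ hmon le_rfl, v28]; norm_num
    obtain ⟨c', h1, h2⟩ := h (max (f ((f ^ 28) c)) (c + 1))
    have h3 : f ((f ^ 28) c) < c' := (le_max_left _ _).trans_lt h1
    have h4 : c + 1 < c' := (le_max_right _ _).trans_lt h1
    have hle : (f ^ 28) c ≤ f ((f ^ 28) c) := by
      have : X ((f ^ 28) c) ≤ X (f ((f ^ 28) c)) := by rw [v28, v29]; norm_num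
      exact X.le_iff_le.mp this
    obtain ⟨D, hD, D1, D2, _⟩ := exists_aff (f ((f ^ 28) c)) c' (A + 30 + 30 * k)
      (A + 31 + 30 * k) h3 (by linarith)
    obtain ⟨g1, hg1, a1, a2⟩ := exists_glue hg (PLo.mul_mem (tr_mem (A + 1 + 30 * k)) hX) c (by
      rw [mul_app, tr_app, X0, hgc]; ring)
    obtain ⟨g2, hg2, b1, b2⟩ := exists_glue hg1 hD (f ((f ^ 28) c)) (by
      rw [a2 _ (by linarith), mul_app, tr_app, v29, D1]; ring)
    refine ⟨(c', g2), ⟨hg2, h2, ?_⟩, h4.le, h3.le, ?_, ?_, ?_⟩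
    · simp only
      rw [b2 _ h3.le, D2]; push_cast; ring
    · intro t ht
      simp only at ht ⊢
      rw [b1 t (by linarith), a1 t ht]
    · intro t ht1 ht2
      simp only at ht1 ht2 ⊢
      have q1 : f t ≤ f ((f ^ 28) c) := f.monotone ht2
      have q2 : c ≤ f t := hc.le.trans (f.monotone ht1)
      rw [b1 _ q1, a2 _ q2, b1 t (by linarith), a2 t ht1]
      simp only [mul_app, tr_app]
      rw [X1 t ht1 ht2]; ring
    · simp only
      rw [b1 _ hle, a2 _ hmon, mul_app, tr_app, v28]; push_cast; ring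
  obtain ⟨c0, hc0, hc0'⟩ := h A
  obtain ⟨D, hD, D1, D2, _⟩ := exists_aff A c0 A (A + 1) hc0 (by linarith)
  obtain ⟨g0, hg0, g01, g02⟩ := exists_glue PLo.one_mem hD A (by rw [D1]; rfl)
  choose! nxt hn1 hn2 using step
  let S : ℕ → ℝ × G := fun n => Nat.rec (c0, g0) (fun n s => nxt n s) n
  have S0 : S 0 = (c0, g0) := rfl
  have Ss : ∀ n, S (n + 1) = nxt n (S n) := fun n => rfl
  have SP : ∀ n : ℕ, (S n).2 ∈ PLo ∧ (S n).1 < f (S n).1 ∧ (S n).2 (S n).1 = A + 1 + 30 * n := by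
    intro n
    induction n with
    | zero =>
      rw [S0]
      refine ⟨hg0, hc0', ?_⟩
      simp only
      rw [g02 _ hc0.le, D2]; simp
    | succ n ih => rw [Ss]; exact hn1 n (S n) ih
  have SQ := fun n => hn2 n (S n) (SP n)
  simp only [← Ss] at SQ
  have hgrow : ∀ n : ℕ, c0 + n ≤ (S n).1 := by
    intro n
    induction n with
    | zero => rw [S0]; simp
    | succ n ih => have := (SQ n).1; push_cast; linarith
  obtain ⟨χ, hχ, χ1⟩ := exists_limit_right (fun n => (S n).2) (fun n => (SP n).1)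
    (fun n => (S n).1) (fun n => by have := (SQ n).1; linarith)
    (by
      intro t
      obtain ⟨n, hn⟩ := exists_nat_gt (t - c0)
      exact ⟨n, by have := hgrow n; linarith⟩)
    (fun n t ht => (SQ n).2.2.1 t ht)
    (by
      intro u
      obtain ⟨n, hn⟩ := exists_nat_gt (u - A - 1)
      refine ⟨n, ?_⟩
      rw [(SP n).2.2]
      have : (0 : ℝ) ≤ n := Nat.cast_nonneg _
      linarith)
  refine ⟨χ, hχ, ?_, ?_⟩
  · intro t ht
    rw [χ1 0 t (by rw [S0]; simp only; linarith), S0]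
    simp only
    rw [g01 t ht]; rfl
  · intro k x hx1 hx2
    obtain ⟨q1, q2, q3, q4, q5⟩ := SQ k
    have hck := (SP k).2.1
    have hmon : (S k).1 ≤ (f ^ 28) (S k).1 := by
      have : ∀ n : ℕ, (S k).1 ≤ (f ^ n) (S k).1 := by
        intro n
        induction n with
        | zero => simp
        | succ n ih =>
          rw [pow_succ', mul_app]
          exact hck.le.trans (f.monotone ih)
      exact this 28
    have e1 : χ (S k).1 = A + 1 + 30 * k := by rw [χ1 k _ le_rfl, (SP k).2.2]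
    have hle : (f ^ 28) (S k).1 ≤ (S (k + 1)).1 := by
      refine le_trans ?_ q2
      have : ∀ n : ℕ, (f ^ n) (S k).1 ≤ f ((f ^ n) (S k).1) := by
        intro n
        have e := (f ^ n).monotone hck.le
        have e' : (f ^ n) (f (S k).1) = f ((f ^ n) (S k).1) := by
          have : f ^ n * f = f * f ^ n := by rw [← pow_succ, pow_succ']
          exact DFunLike.congr_fun this _
        rwa [e'] at e
      exact this 28
    have e2 : χ ((f ^ 28) (S k).1) = A + 29 + 30 * k := by rw [χ1 (k + 1) _ hle, q5]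
    simp only [mul_app]
    set t := χ⁻¹ x with ht
    have t1 : (S k).1 ≤ t := by rw [ht, le_inv_apply, e1]; exact hx1
    have t2 : t ≤ (f ^ 28) (S k).1 := by rw [ht, inv_apply_le, e2]; exact hx2
    have t3 : f t ≤ (S (k + 1)).1 := (f.monotone t2).trans q2
    rw [χ1 (k + 1) _ t3, q4 t t1 t2, ← χ1 (k + 1) t (t2.trans hle), ht]
    simp

theorem normalize {f : G} (hf : f ∈ PLo) (A : ℝ) (h : ∀ B, ∃ t, B < t ∧ f t ≠ t) :
    ∃ χ ∈ PLo, (∀ t, t ≤ A → χ t = t) ∧ ∃ ε : ℝ, (ε = 1 ∨ ε = -1) ∧ ∀ k : ℕ, ∀ x : ℝ,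
      A + 2 + 30 * k ≤ x → x ≤ A + 28 + 30 * k → (χ * f * χ⁻¹) x = x + ε := by
  by_cases h1 : ∀ B, ∃ t, B < t ∧ t < f t
  · obtain ⟨χ, a, b, c⟩ := normalize_pos hf A h1
    exact ⟨χ, a, b, 1, Or.inl rfl, fun k x h2 h3 => c k x (by linarith) (by linarith)⟩
  · push Not at h1
    obtain ⟨B0, hB0⟩ := h1
    have h2 : ∀ B, ∃ t, B < t ∧ t < f⁻¹ t := by
      intro B
      obtain ⟨t, ht1, ht2⟩ := h (max B B0)
      refine ⟨t, (le_max_left _ _).trans_lt ht1, ?_⟩
      rw [lt_inv_apply]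
      exact lt_of_le_of_ne (hB0 t ((le_max_right _ _).trans_lt ht1)) ht2
    obtain ⟨χ, a, b, c⟩ := normalize_pos (PLo.inv_mem hf) A h2
    refine ⟨χ, a, b, -1, Or.inr rfl, fun k x h2 h3 => ?_⟩
    have e := c k (x - 1) (by linarith) (by linarith)
    have e2 : (χ * f * χ⁻¹) = (χ * f⁻¹ * χ⁻¹)⁻¹ := by group
    rw [e2, inv_apply_eq]
    have e3 : x + -1 = x - 1 := by ring
    rw [e3, e]; ring

/-- unbounded support above -/
theorem caseB {f : G} (hf : f ∈ PLo) (h : ∀ B, ∃ t, B < t ∧ f t ≠ t) : R2 f := by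
  by_cases hl : ∃ A, ∀ t, t ≤ A → f t = t
  · obtain ⟨A, hA⟩ := hl
    -- translate
    set τ := tr (15 - A) with hτ
    have hτm : τ ∈ PLo := tr_mem _
    set f1 := τ * f * τ⁻¹ with hf1
    have hf1m : f1 ∈ PLo := PLo.mul_mem (PLo.mul_mem hτm hf) (PLo.inv_mem hτm)
    have f1l : ∀ t, t ≤ 15 → f1 t = t := by
      intro t ht
      rw [hf1, hτ]
      simp only [mul_app, tr_app, tr_inv_app]
      rw [hA _ (by linarith)]; ring
    have f1u : ∀ B, ∃ t, B < t ∧ f1 t ≠ t := by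
      intro B
      obtain ⟨t, ht1, ht2⟩ := h (B - (15 - A))
      refine ⟨t + (15 - A), by linarith, ?_⟩
      rw [hf1, hτ]
      simp only [mul_app, tr_app, tr_inv_app]
      intro h3
      apply ht2
      have h4 : t + (15 - A) - (15 - A) = t := by ring
      rw [h4] at h3
      linarith
    obtain ⟨χ, hχ, χ1, ε, hε, χ2⟩ := normalize hf1m 15 f1u
    apply R2.of_conj hτm
    apply R2.of_conj hχ
    rw [← hf1]
    set f2 := χ * f1 * χ⁻¹ with hf2
    have hf2m : f2 ∈ PLo := PLo.mul_mem (PLo.mul_mem hχ hf1m) (PLo.inv_mem hχ)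
    have f2l : ∀ t, t ≤ 15 → f2 t = t := by
      intro t ht
      have e1 : χ⁻¹ t = t := by rw [inv_apply_eq, χ1 t ht]
      rw [hf2]
      simp only [mul_app]
      rw [e1, f1l t ht, χ1 t ht]
    refine glue_R2 hf2m hε (ε0 := 0) (by simp) (fun t _ h2 => by rw [f2l t (by linarith)]; ring)
      ?_ (fun _ => 0) rfl (by simp) Zg_mem (fun t _ => rfl) (fun m _ => Zg_bump m) ?_
    · intro m hm t h1 h2
      obtain ⟨k, hk⟩ := Int.eq_ofNat_of_zero_le (show 0 ≤ m - 1 by omega)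
      have hk' : (m : ℝ) = k + 1 := by
        have : m = (k : ℤ) + 1 := by omega
        rw [this]; push_cast; ring
      exact χ2 k t (by rw [hk'] at h1; linarith) (by rw [hk'] at h2; linarith)
    · intro m hm
      rw [dd_zero, dd_zero, add_zero, add_zero]
      refine (Zg_bump m).congr fun t _ ht => ?_
      have : ((m + 1 : ℤ) : ℝ) ≤ 0 := by exact_mod_cast hm
      rw [mul_app, f2l t (by linarith)]
  · push Not at hl
    obtain ⟨χ, hχ, χ1, ε, hε, χ2⟩ := normalize hf (-15) h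
    apply R2.of_conj hχ
    set f1 := χ * f * χ⁻¹ with hf1
    have hf1m : f1 ∈ PLo := PLo.mul_mem (PLo.mul_mem hχ hf) (PLo.inv_mem hχ)
    have f1u : ∀ B, ∃ t, B < t ∧ rf f1 t ≠ t := by
      intro B
      obtain ⟨s, hs1, hs2⟩ := hl (min (-B - 1) (-15))
      have s1 : s ≤ -B - 1 := hs1.trans (min_le_left _ _)
      have s2 : s ≤ -15 := hs1.trans (min_le_right _ _)
      refine ⟨-s, by linarith, ?_⟩
      intro h3
      rw [rf_app, neg_neg] at h3
      have h4 : f1 s = s := by linarith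
      have e1 : χ⁻¹ s = s := by rw [inv_apply_eq, χ1 s s2]
      rw [hf1] at h4
      simp only [mul_app] at h4
      rw [e1] at h4
      apply hs2
      apply χ.injective
      rw [h4, χ1 s s2]
    obtain ⟨ψ, hψ, ψ1, ε', hε', ψ2⟩ := normalize (rf_mem hf1m) 15 f1u
    apply R2.of_conj (rf_mem hψ)
    set f2 := rf ψ * f1 * (rf ψ)⁻¹ with hf2
    have hf2m : f2 ∈ PLo := PLo.mul_mem (PLo.mul_mem (rf_mem hψ) hf1m) (PLo.inv_mem (rf_mem hψ))
    have hf2' : f2 = rf (ψ * rf f1 * ψ⁻¹) := by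
      rw [rf_mul, rf_mul, rf_rf, rf_inv]
    have ψr : ∀ t, -15 ≤ t → rf ψ t = t := by
      intro t ht
      rw [rf_app, ψ1 (-t) (by linarith)]; ring
    have hεabs : |ε| ≤ 1 := by rcases hε with rfl | rfl <;> simp
    have hεb := abs_le.mp hεabs
    have win : ∀ m : ℤ, 0 ≤ m → ∀ t : ℝ, 30 * m - 13 ≤ t → t ≤ 30 * m + 13 → f2 t = t + ε := by
      intro m hm t h1 h2
      obtain ⟨k, hk⟩ := Int.eq_ofNat_of_zero_le hm
      have hk' : (m : ℝ) = k := by rw [hk]; push_cast; ring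
      have hk0 : (0 : ℝ) ≤ k := Nat.cast_nonneg _
      rw [hk'] at h1 h2
      have e1 : (rf ψ)⁻¹ t = t := by rw [inv_apply_eq, ψr t (by linarith)]
      rw [hf2]
      simp only [mul_app]
      rw [e1]
      have e2 : f1 t = t + ε := χ2 k t (by linarith) (by linarith)
      rw [e2, ψr _ (by linarith [hεb.1])]
    have winl : ∀ m : ℤ, m ≤ -1 → ∀ t : ℝ, 30 * m - 13 ≤ t → t ≤ 30 * m + 13 →
        f2 t = t + -ε' := by
      intro m hm t h1 h2
      obtain ⟨k, hk⟩ := Int.eq_ofNat_of_zero_le (show 0 ≤ -m - 1 by omega)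
      have hk' : (m : ℝ) = -(k + 1) := by
        have : m = -((k : ℤ) + 1) := by omega
        rw [this]; push_cast; ring
      rw [hk'] at h1 h2
      rw [hf2', rf_app, ψ2 k (-t) (by linarith) (by linarith)]; ring
    have hε2 : -ε' = 1 ∨ -ε' = -1 := by
      rcases hε' with rfl | rfl
      · right; rfl
      · left; norm_num
    have w0 : ∀ t : ℝ, -13 ≤ t → t ≤ 13 → f2 t = t + ε := by
      intro t h1 h2
      exact win 0 le_rfl t (by push_cast; linarith) (by push_cast; linarith)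
    obtain ⟨bL, hbL, l1, l2, l3⟩ := left_half hf2m hε2 hεabs w0 winl
    refine glue_R2 hf2m hε hεabs w0 (fun m hm => win m (by omega))
      (fun m => if m = 0 then ε else -ε') (if_pos rfl) ?_ hbL l1 l2 l3
    intro m
    split_ifs
    · exact hεabs
    · rcases hε2 with h5 | h5 <;> rw [h5] <;> simp

end Pool.Agent.H67
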