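import Pool.Agent.H67.CaseA
import Pool.Agent.H67.CaseB

/-!
Every element is a product of two reversibles, and the passage from the definition by
breakpoints to the definition by germs.
-/

open Filter Topology Set

namespace Pool.Agent.H67

theorem all_R2 {f : G} (hf : f ∈ PLo) : R2 f := by
  by_cases h1 : ∀ B, ∃ t, B < t ∧ f t ≠ t
  · exact caseB hf h1
  by_cases h2 : ∀ B, ∃ t, t < B ∧ f t ≠ t
  · apply R2.of_rf
    apply caseB (rf_mem hf)
    intro B
    obtain ⟨t, ht1, ht2⟩ := h2 (-B)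
    refine ⟨-t, by linarith, ?_⟩
    rw [rf_app, neg_neg]
    intro h
    apply ht2
    linarith
  · push Not at h1 h2
    obtain ⟨B, hB⟩ := h1
    obtain ⟨A, hA⟩ := h2
    exact caseA hf (A := A - 1) (B := B + 1) (fun t ht => hA t (by linarith))
      (fun t ht => hB t (by linarith))

/-- locally affine, filter form -/
def LocAff (f : ℝ → ℝ) (x : ℝ) : Prop := ∃ a b : ℝ, ∀ᶠ t in 𝓝 x, f t = a * t + b

lemma affine_unique {a b a' b' x : ℝ} (h : ∀ᶠ t in 𝓝 x, a * t + b = a' * t + b') :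
    a = a' ∧ b = b' := by
  have h1 : ∀ᶠ t in 𝓝[>] x, a * t + b = a' * t + b' := h.filter_mono nhdsWithin_le_nhds
  have h2 : a * x + b = a' * x + b' := h.self_of_nhds
  obtain ⟨t, ht1, ht2⟩ := (h1.and self_mem_nhdsWithin).exists
  have ht3 : x < t := ht2
  have h3 : (a - a') * (t - x) = 0 := by linarith
  rcases mul_eq_zero.mp h3 with h4 | h4
  · have : a = a' := by linarith
    subst this
    exact ⟨rfl, by linarith⟩
  · linarith

lemma affine_on {f : ℝ → ℝ} {s : Set ℝ} (hs : IsPreconnected s) (h : ∀ x ∈ s, LocAff f x) :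
    ∀ x ∈ s, ∃ a b : ℝ, ∀ y ∈ s, f y = a * y + b := by
  intro x hx
  obtain ⟨a, b, hab⟩ := h x hx
  refine ⟨a, b, fun y hy => ?_⟩
  have key : ∃ a b : ℝ, (∀ᶠ t in 𝓝 x, f t = a * t + b) ∧ (∀ᶠ t in 𝓝 y, f t = a * t + b) := by
    refine hs.induction₂ (fun x y => ∃ a b : ℝ, (∀ᶠ t in 𝓝 x, f t = a * t + b) ∧
      (∀ᶠ t in 𝓝 y, f t = a * t + b)) ?_ ?_ ?_ hx hy
    · intro x hx
      obtain ⟨a, b, hab⟩ := h x hx
      have := hab.eventually_nhds
      filter_upwards [mem_nhdsWithin_of_mem_nhds this] with y hy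
      exact ⟨a, b, hab, hy⟩
    · rintro x y z _ _ _ ⟨a, b, h1, h2⟩ ⟨a', b', h3, h4⟩
      have h5 : ∀ᶠ t in 𝓝 y, a * t + b = a' * t + b' := by
        filter_upwards [h2, h3] with t h6 h7
        rw [← h6, h7]
      obtain ⟨rfl, rfl⟩ := affine_unique h5
      exact ⟨a, b, h1, h4⟩
    · rintro x y _ _ ⟨a, b, h1, h2⟩
      exact ⟨a, b, h2, h1⟩
  obtain ⟨a', b', h1, h2⟩ := key
  have h5 : ∀ᶠ t in 𝓝 x, a * t + b = a' * t + b' := by
    filter_upwards [hab, h1] with t h6 h7
    rw [← h6, h7]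
  obtain ⟨rfl, rfl⟩ := affine_unique h5
  exact h2.self_of_nhds

lemma germs_of_locAff {f : ℝ → ℝ} (hc : Continuous f) (hm : StrictMono f)
    (h : ∀ x, ∀ᶠ y in 𝓝[≠] x, LocAff f y) (x : ℝ) : GermR f x ∧ GermL f x := by
  have hx := h x
  constructor
  · have h1 : ∀ᶠ y in 𝓝[>] x, LocAff f y :=
      hx.filter_mono (nhdsWithin_mono _ fun y hy => ne_of_gt hy)
    rw [Filter.Eventually, mem_nhdsGT_iff_exists_Ioo_subset] at h1
    obtain ⟨u, hu, h2⟩ := h1
    have hu' : x < u := hu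
    obtain ⟨a, b, hab⟩ := affine_on isPreconnected_Ioo (fun y hy => h2 hy) ((x + u) / 2)
      ⟨by linarith, by linarith⟩
    have hfx : f x = a * x + b := by
      have l1 : Tendsto f (𝓝[>] x) (𝓝 (f x)) := hc.continuousAt.mono_left nhdsWithin_le_nhds
      have l2 : Tendsto (fun t => a * t + b) (𝓝[>] x) (𝓝 (a * x + b)) := by
        have : Continuous (fun t : ℝ => a * t + b) := by fun_prop
        exact this.continuousAt.mono_left nhdsWithin_le_nhds
      refine tendsto_nhds_unique (l1.congr' ?_) l2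
      filter_upwards [Ioo_mem_nhdsGT hu'] with t ht
      exact hab t ht
    have ha : 0 < a := by
      have h3 := hm (show x < (x + u) / 2 by linarith)
      rw [hab ((x + u) / 2) ⟨by linarith, by linarith⟩, hfx] at h3
      by_contra h4
      push Not at h4
      nlinarith
    refine ⟨a, ha, ?_⟩
    filter_upwards [Ico_mem_nhdsGE hu'] with t ht
    rcases eq_or_lt_of_le ht.1 with h3 | h3
    · rw [← h3]; ring
    · rw [hab t ⟨h3, ht.2⟩, hfx]; ring
  · have h1 : ∀ᶠ y in 𝓝[<] x, LocAff f y :=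
      hx.filter_mono (nhdsWithin_mono _ fun y hy => ne_of_lt hy)
    rw [Filter.Eventually, mem_nhdsLT_iff_exists_Ioo_subset] at h1
    obtain ⟨u, hu, h2⟩ := h1
    have hu' : u < x := hu
    obtain ⟨a, b, hab⟩ := affine_on isPreconnected_Ioo (fun y hy => h2 hy) ((x + u) / 2)
      ⟨by linarith, by linarith⟩
    have hfx : f x = a * x + b := by
      have l1 : Tendsto f (𝓝[<] x) (𝓝 (f x)) := hc.continuousAt.mono_left nhdsWithin_le_nhds
      have l2 : Tendsto (fun t => a * t + b) (𝓝[<] x) (𝓝 (a * x + b)) := by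
        have : Continuous (fun t : ℝ => a * t + b) := by fun_prop
        exact this.continuousAt.mono_left nhdsWithin_le_nhds
      refine tendsto_nhds_unique (l1.congr' ?_) l2
      filter_upwards [Ioo_mem_nhdsLT hu'] with t ht
      exact hab t ht
    have ha : 0 < a := by
      have h3 := hm (show (x + u) / 2 < x by linarith)
      rw [hab ((x + u) / 2) ⟨by linarith, by linarith⟩, hfx] at h3
      by_contra h4
      push Not at h4
      nlinarith
    refine ⟨a, ha, ?_⟩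
    filter_upwards [Ioc_mem_nhdsLE hu'] with t ht
    rcases eq_or_lt_of_le ht.2 with h3 | h3
    · rw [h3]; ring
    · rw [hab t ⟨ht.1, h3⟩, hfx]; ring

lemma locAff_of_germs {f : ℝ → ℝ} (x : ℝ) (hR : GermR f x) (hL : GermL f x) :
    ∀ᶠ y in 𝓝[≠] x, LocAff f y := by
  obtain ⟨a, ha, u, hu, h1⟩ := hR.exists
  obtain ⟨b, hb, w, hw, h2⟩ := hL.exists
  have h3 : Ioo w u ∈ 𝓝[≠] x := mem_nhdsWithin_of_mem_nhds (Ioo_mem_nhds hw hu)
  filter_upwards [h3, self_mem_nhdsWithin] with y hy hne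
  rcases lt_or_gt_of_ne (show y ≠ x from hne) with h4 | h4
  · refine ⟨b, f x - b * x, ?_⟩
    filter_upwards [Ioo_mem_nhds hy.1 h4] with t ht
    rw [h2 t ht.1.le ht.2.le]; ring
  · refine ⟨a, f x - a * x, ?_⟩
    filter_upwards [Ioo_mem_nhds h4 hy.2] with t ht
    rw [h1 t ht.1.le ht.2.le]; ring

end Pool.Agent.H67
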