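import Pool.Agent.H67.Interval

/-!
The right half of the construction for unbounded support.
-/

open Filter Topology Set

namespace Pool.Agent.H67

/-- second type of slot end -/
noncomputable def qq (ε : ℝ) (m : ℤ) : ℝ := 30 * m + dd m ε + ε

/-- union of the slots -/
def SL (ε : ℝ) : Set ℝ := {t | ∃ m : ℤ, 1 ≤ m ∧
  ((30 * m - 1 / 20 < t ∧ t < 30 * m) ∨ (qq ε m - 1 / 20 < t ∧ t < qq ε m))}

def Near (ε : ℝ) (b : G) : Prop := b ∈ PLo ∧ ∀ t, t ∉ SL ε → b t = Zg t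

lemma qq_sep {ε : ℝ} (hε : ε = 1 ∨ ε = -1) (m : ℤ) :
    (30 * m + 1 ≤ qq ε m ∧ qq ε m ≤ 30 * m + 2) ∨ (30 * m - 2 ≤ qq ε m ∧ qq ε m ≤ 30 * m - 1) := by
  unfold qq
  by_cases hm : Even m
  · rw [dd_even hm]
    rcases hε with rfl | rfl
    · right; constructor <;> linarith
    · left; constructor <;> linarith
  · rw [dd_odd hm]
    rcases hε with rfl | rfl
    · left; constructor <;> linarith
    · right; constructor <;> linarith

lemma SL_window {ε : ℝ} (hε : ε = 1 ∨ ε = -1) {m : ℤ} {t : ℝ} (h1 : 30 * m - 5 ≤ t)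
    (h2 : t ≤ 30 * m + 5) (ht : t ∈ SL ε) :
    1 ≤ m ∧ ((30 * m - 1 / 20 < t ∧ t < 30 * m) ∨ (qq ε m - 1 / 20 < t ∧ t < qq ε m)) := by
  obtain ⟨k, hk, h⟩ := ht
  have hkt : 30 * (k : ℝ) - 5 < t ∧ t < 30 * k + 5 := by
    rcases qq_sep hε k with ⟨a, b⟩ | ⟨a, b⟩ <;> rcases h with ⟨c, d⟩ | ⟨c, d⟩ <;>
      constructor <;> linarith
  have e1 : (k : ℝ) < m + 1 := by linarith [hkt.1]
  have e2 : (m : ℝ) < k + 1 := by linarith [hkt.2]
  have e3 : k < m + 1 := by exact_mod_cast e1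
  have e4 : m < k + 1 := by exact_mod_cast e2
  have e5 : k = m := by omega
  subst e5
  exact ⟨hk, h⟩

lemma SL_left {ε : ℝ} (hε : ε = 1 ∨ ε = -1) {t : ℝ} (ht : t ≤ 25) : t ∉ SL ε := by
  rintro ⟨k, hk, h⟩
  have hk' : (1 : ℝ) ≤ k := by exact_mod_cast hk
  rcases qq_sep hε k with ⟨a, b⟩ | ⟨a, b⟩ <;> rcases h with ⟨c, d⟩ | ⟨c, d⟩ <;> linarith

/-- no slot just to the right of `30 m` -/
lemma SL_P {ε : ℝ} (hε : ε = 1 ∨ ε = -1) {m : ℤ} {t : ℝ} (h1 : 30 * m ≤ t)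
    (h2 : t ≤ 30 * m + 1 / 2) : t ∉ SL ε := by
  intro ht
  obtain ⟨_, h⟩ := SL_window hε (by linarith) (by linarith) ht
  rcases qq_sep hε m with ⟨a, b⟩ | ⟨a, b⟩ <;> rcases h with ⟨c, d⟩ | ⟨c, d⟩ <;> linarith

lemma SL_q {ε : ℝ} (hε : ε = 1 ∨ ε = -1) {m : ℤ} {t : ℝ} (h1 : qq ε m ≤ t)
    (h2 : t ≤ qq ε m + 1 / 2) : t ∉ SL ε := by
  intro ht
  have hs := qq_sep hε m
  have h3 : 30 * (m : ℝ) - 5 ≤ t ∧ t ≤ 30 * m + 5 := by
    rcases hs with ⟨a, b⟩ | ⟨a, b⟩ <;> constructor <;> linarith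
  obtain ⟨_, h⟩ := SL_window hε h3.1 h3.2 ht
  rcases hs with ⟨a, b⟩ | ⟨a, b⟩ <;> rcases h with ⟨c, d⟩ | ⟨c, d⟩ <;> linarith

/-- the left end of a slot is not in a slot -/
lemma SL_P' {ε : ℝ} (hε : ε = 1 ∨ ε = -1) {m : ℤ} : (30 * m - 1 / 20 : ℝ) ∉ SL ε := by
  intro ht
  obtain ⟨_, h⟩ := SL_window (m := m) hε (by linarith) (by linarith) ht
  rcases qq_sep hε m with ⟨a, b⟩ | ⟨a, b⟩ <;> rcases h with ⟨c, d⟩ | ⟨c, d⟩ <;> linarith

lemma SL_q' {ε : ℝ} (hε : ε = 1 ∨ ε = -1) {m : ℤ} : (qq ε m - 1 / 20 : ℝ) ∉ SL ε := by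
  intro ht
  have hs := qq_sep hε m
  have h3 : 30 * (m : ℝ) - 5 ≤ qq ε m - 1 / 20 ∧ qq ε m - 1 / 20 ≤ 30 * m + 5 := by
    rcases hs with ⟨a, b⟩ | ⟨a, b⟩ <;> constructor <;> linarith
  obtain ⟨_, h⟩ := SL_window hε h3.1 h3.2 ht
  rcases hs with ⟨a, b⟩ | ⟨a, b⟩ <;> rcases h with ⟨c, d⟩ | ⟨c, d⟩ <;> linarith

lemma Zg_lip {m : ℤ} {e : ℝ} (h1 : 30 * m - 4 ≤ e) (h2 : e ≤ 30 * m + 4) :
    Zg e - Zg (e - 1 / 20) ≤ 1 / 10 := by
  by_cases hm : Even m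
  · rw [Zg_even hm (by linarith) (by linarith), Zg_even hm (by linarith) (by linarith)]
    linarith
  · rw [Zg_odd hm (by linarith) (by linarith), Zg_odd hm (by linarith) (by linarith)]
    linarith

lemma Near.close {ε : ℝ} (hε : ε = 1 ∨ ε = -1) {b : G} (hb : Near ε b) (t : ℝ) :
    |b t - Zg t| ≤ 1 / 10 := by
  by_cases ht : t ∈ SL ε
  swap
  · rw [hb.2 t ht]; simp
  have key : ∀ e : ℝ, e - 1 / 20 < t → t < e → b e = Zg e → b (e - 1 / 20) = Zg (e - 1 / 20) →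
      Zg e - Zg (e - 1 / 20) ≤ 1 / 10 → |b t - Zg t| ≤ 1 / 10 := by
    intro e h1 h2 h3 h4 h5
    have a1 := b.monotone h1.le
    have a2 := b.monotone h2.le
    have a3 := Zg.monotone h1.le
    have a4 := Zg.monotone h2.le
    rw [h4] at a1
    rw [h3] at a2
    rw [abs_le]; constructor <;> linarith
  obtain ⟨m, hm, ⟨c, d⟩ | ⟨c, d⟩⟩ := ht
  · refine key _ c d (hb.2 _ (SL_P hε le_rfl (by linarith))) (hb.2 _ (SL_P' hε)) ?_
    exact Zg_lip (m := m) (by linarith) (by linarith)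
  · refine key _ c d (hb.2 _ (SL_q hε le_rfl (by linarith))) (hb.2 _ (SL_q' hε)) ?_
    have hs := qq_sep hε m
    apply Zg_lip (m := m)
    · rcases hs with ⟨a, b⟩ | ⟨a, b⟩ <;> linarith
    · rcases hs with ⟨a, b⟩ | ⟨a, b⟩ <;> linarith

/-- tuning one interval -/
lemma stage_one {ε : ℝ} (hε : ε = 1 ∨ ε = -1) (m : ℤ) {g b : G} (hg : g ∈ PLo)
    (hb : Near ε b) {α β e : ℝ} (hα : |α| ≤ 1) (hβ : |β| ≤ 1)
    (he : e = 30 * (m + 1 : ℤ) + dd (m + 1) β + β)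
    (hg1 : ∀ t : ℝ, 30 * m - 13 ≤ t → t ≤ 30 * m + 13 → g t = t + α)
    (hg2 : ∀ t : ℝ, 30 * (m + 1 : ℤ) - 13 ≤ t → t ≤ 30 * (m + 1 : ℤ) + 13 → g t = t + β)
    (hslot : ∀ t, e - 1 / 20 < t → t < e → t ∈ SL ε)
    (hx : ∀ t : ℝ, 30 * m + dd m α + α ≤ t → t ≤ 30 * m + dd m α + α + 1 / 2 → t ∉ SL ε)
    (hy : ∀ t : ℝ, e - 1 / 2 ≤ t → b t = Zg t) :
    ∃ b1, Near ε b1 ∧ (∀ t, t ≤ e - 1 / 20 → b1 t = b t) ∧ (∀ t, e ≤ t → b1 t = b t) ∧
      Bump (Sg m) (b1 * g) (30 * m + dd m α) (30 * (m + 1 : ℤ) + dd (m + 1) β) := by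
  obtain ⟨ω, h1, h2, h3, h4⟩ := GI m hg hb.1 hα hβ (s := 1 / 20) (by norm_num) hg1 hg2
    (hb.close hε) (fun t a c => hb.2 t (hx t a c)) (fun t a _ => hy t (by rw [he]; exact a))
  rw [← he] at h2 h3
  refine ⟨b * ω, ⟨PLo.mul_mem hb.1 h1, ?_⟩, ?_, ?_, h4⟩
  · intro t ht
    have h5 : ω t = t := by
      by_contra hne
      apply ht
      apply hslot
      · by_contra h6
        push Not at h6
        exact hne (mem_Rt.mp h2 t h6)
      · by_contra h6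
        push Not at h6
        exact hne (mem_Lt.mp h3 t h6)
    rw [mul_app, h5, hb.2 t ht]
  · intro t ht
    rw [mul_app, mem_Rt.mp h2 t ht]
  · intro t ht
    rw [mul_app, mem_Lt.mp h3 t ht]

/-- tuning both intervals ending near `30 (m+1)` -/
lemma stage {ε : ℝ} (hε : ε = 1 ∨ ε = -1) {m : ℤ} (hm : 0 ≤ m) {f b : G} (hf : f ∈ PLo)
    (hb : Near ε b) {α : ℝ} (hα : |α| ≤ 1) (hα' : 1 ≤ m → α = ε)
    (hf1 : ∀ t : ℝ, 30 * m - 13 ≤ t → t ≤ 30 * m + 13 → f t = t + α)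
    (hf2 : ∀ t : ℝ, 30 * (m + 1 : ℤ) - 13 ≤ t → t ≤ 30 * (m + 1 : ℤ) + 13 → f t = t + ε)
    (hy : ∀ t : ℝ, 30 * (m + 1 : ℤ) - 5 ≤ t → b t = Zg t) :
    ∃ b2, Near ε b2 ∧ (∀ t : ℝ, t ≤ 30 * (m + 1 : ℤ) - 5 → b2 t = b t) ∧
      (∀ t : ℝ, 30 * (m + 1 : ℤ) + 5 ≤ t → b2 t = Zg t) ∧
      Bump (Sg m) b2 (30 * m) (30 * (m + 1 : ℤ)) ∧
      Bump (Sg m) (b2 * f) (30 * m + dd m α) (30 * (m + 1 : ℤ) + dd (m + 1) ε) := by
  have hεabs : |ε| ≤ 1 := by rcases hε with rfl | rfl <;> simp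
  set P : ℝ := 30 * (m + 1 : ℤ) with hP
  set q : ℝ := qq ε (m + 1) with hq
  have hqd : q = P + dd (m + 1) ε + ε := rfl
  have hsep := qq_sep hε (m + 1)
  rw [← hP, ← hq] at hsep
  have slotP : ∀ t, P - 1 / 20 < t → t < P → t ∈ SL ε := fun t a c =>
    ⟨m + 1, by omega, Or.inl ⟨a, c⟩⟩
  have slotq : ∀ t, q - 1 / 20 < t → t < q → t ∈ SL ε := fun t a c =>
    ⟨m + 1, by omega, Or.inr ⟨a, c⟩⟩
  have hxA : ∀ t : ℝ, 30 * m + dd m α + α ≤ t → t ≤ 30 * m + dd m α + α + 1 / 2 →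
      t ∉ SL ε := by
    intro t h1 h2
    rcases eq_or_lt_of_le hm with h0 | h0
    · apply SL_left hε
      subst h0
      obtain ⟨α1, α2⟩ := abs_le.mp hα
      rw [dd_even (by simp)] at h2
      push_cast at h2
      linarith
    · rw [hα' (by omega)] at h1 h2
      exact SL_q (m := m) hε h1 h2
  have hxB : ∀ t : ℝ, 30 * m ≤ t → t ≤ 30 * m + 1 / 2 → t ∉ SL ε := fun t a c => SL_P hε a c
  -- tuning the first family
  have tB : ∀ b', Near ε b' → (∀ t : ℝ, P - 1 / 2 ≤ t → b' t = Zg t) →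
      ∃ b1, Near ε b1 ∧ (∀ t, t ≤ P - 1 / 20 → b1 t = b' t) ∧ (∀ t, P ≤ t → b1 t = b' t) ∧
        Bump (Sg m) b1 (30 * m) P := by
    intro b' hb' hy'
    have := stage_one hε m PLo.one_mem hb' (α := 0) (β := 0) (e := P) (by simp) (by simp)
      (by rw [dd_zero, hP]; ring) (fun t _ _ => by simp) (fun t _ _ => by simp) slotP
      (by
        intro t h1 h2
        rw [dd_zero, add_zero, add_zero] at h1 h2
        exact hxB t h1 h2) hy'
    simp only [dd_zero, add_zero, mul_one] at this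
    exact this
  have tA : ∀ b', Near ε b' → (∀ t : ℝ, q - 1 / 2 ≤ t → b' t = Zg t) →
      ∃ b1, Near ε b1 ∧ (∀ t, t ≤ q - 1 / 20 → b1 t = b' t) ∧ (∀ t, q ≤ t → b1 t = b' t) ∧
        Bump (Sg m) (b1 * f) (30 * m + dd m α) (P + dd (m + 1) ε) := by
    intro b' hb' hy'
    exact stage_one hε m hf hb' hα hεabs hqd hf1 hf2 slotq hxA hy'
  have fy : ∀ t, t ≤ P + dd (m + 1) ε → f t ≤ q := by
    intro t ht
    have h1 : |dd (m + 1) ε| ≤ 3 := dd_abs _ hεabs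
    obtain ⟨h2, h3⟩ := abs_le.mp h1
    calc f t ≤ f (P + dd (m + 1) ε) := f.monotone ht
      _ = q := by rw [hf2 _ (by linarith) (by linarith), hqd]
  rcases hsep with ⟨s1, s2⟩ | ⟨s1, s2⟩
  · obtain ⟨b1, n1, l1, r1, B1⟩ := tB b hb (fun t ht => hy t (by linarith))
    obtain ⟨b2, n2, l2, r2, A2⟩ := tA b1 n1 (fun t ht => by
      rw [r1 t (by linarith)]; exact hy t (by linarith))
    refine ⟨b2, n2, ?_, ?_, ?_, A2⟩
    · intro t ht
      rw [l2 t (by linarith), l1 t (by linarith)]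
    · intro t ht
      rw [r2 t (by linarith), r1 t (by linarith), hy t (by linarith)]
    · exact B1.congr fun t _ ht => l2 t (by linarith)
  · obtain ⟨b1, n1, l1, r1, A1⟩ := tA b hb (fun t ht => hy t (by linarith))
    obtain ⟨b2, n2, l2, r2, B2⟩ := tB b1 n1 (fun t ht => by
      rw [r1 t (by linarith)]; exact hy t (by linarith))
    refine ⟨b2, n2, ?_, ?_, B2, ?_⟩
    · intro t ht
      rw [l2 t (by linarith), l1 t (by linarith)]
    · intro t ht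
      rw [r2 t (by linarith), r1 t (by linarith), hy t (by linarith)]
    · refine A1.congr fun t _ ht => ?_
      rw [mul_app, mul_app, l2]
      have := fy t ht
      linarith

/-- the right half -/
theorem right_half {ε ε0 : ℝ} (hε : ε = 1 ∨ ε = -1) (hε0 : |ε0| ≤ 1) {f : G} (hf : f ∈ PLo)
    (hf0 : ∀ t : ℝ, -13 ≤ t → t ≤ 13 → f t = t + ε0)
    (hfm : ∀ m : ℤ, 1 ≤ m → ∀ t : ℝ, 30 * m - 13 ≤ t → t ≤ 30 * m + 13 → f t = t + ε) :
    ∃ b ∈ PLo, (∀ t, t ≤ 25 → b t = Zg t) ∧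
      (∀ m : ℤ, 0 ≤ m → Bump (Sg m) b (30 * m) (30 * (m + 1 : ℤ))) ∧
      (∀ m : ℤ, 0 ≤ m → Bump (Sg m) (b * f) (30 * m + dd m (if 1 ≤ m then ε else ε0))
        (30 * (m + 1 : ℤ) + dd (m + 1) ε)) := by
  have hεabs : |ε| ≤ 1 := by rcases hε with rfl | rfl <;> simp
  have step : ∀ n : ℕ, ∀ b : G, (Near ε b ∧ ∀ t : ℝ, 30 * (n + 1 : ℝ) - 5 ≤ t → b t = Zg t) →
      ∃ b2 : G, (Near ε b2 ∧ ∀ t : ℝ, 30 * ((n + 1 : ℕ) + 1 : ℝ) - 5 ≤ t → b2 t = Zg t) ∧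
      ((∀ t : ℝ, t ≤ 30 * (n + 1 : ℝ) - 5 → b2 t = b t) ∧
      Bump (Sg n) b2 (30 * n) (30 * (n + 1 : ℝ)) ∧
      Bump (Sg n) (b2 * f) (30 * n + dd n (if (1 : ℤ) ≤ n then ε else ε0))
        (30 * (n + 1 : ℝ) + dd (n + 1) ε)) := by
    intro n b hb
    have h1 : |(if (1 : ℤ) ≤ n then ε else ε0)| ≤ 1 := by
      split_ifs
      · exact hεabs
      · exact hε0
    have h2 : ∀ t : ℝ, 30 * (n : ℤ) - 13 ≤ t → t ≤ 30 * (n : ℤ) + 13 →
        f t = t + (if (1 : ℤ) ≤ n then ε else ε0) := by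
      intro t h3 h4
      split_ifs with h5
      · exact hfm n h5 t h3 h4
      · have h6 : n = 0 := by omega
        subst h6
        push_cast at h3 h4
        exact hf0 t (by linarith) (by linarith)
    obtain ⟨b2, a1, a2, a3, a4, a5⟩ := stage hε (m := (n : ℤ)) (by omega) hf hb.1 h1
      (fun h => if_pos h) h2 (hfm (n + 1) (by omega)) (by
        intro t ht
        push_cast at ht
        exact hb.2 t ht)
    push_cast at a2 a3 a4 a5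
    refine ⟨b2, ⟨a1, ?_⟩, a2, a4, a5⟩
    intro t ht
    push_cast at ht
    exact a3 t (by linarith)
  choose! nxt hn1 hn2 using step
  let B : ℕ → G := fun n => Nat.rec Zg (fun n b => nxt n b) n
  have B0 : B 0 = Zg := rfl
  have Bs : ∀ n, B (n + 1) = nxt n (B n) := fun n => rfl
  have BP : ∀ n : ℕ, Near ε (B n) ∧ ∀ t : ℝ, 30 * (n + 1 : ℝ) - 5 ≤ t → B n t = Zg t := by
    intro n
    induction n with
    | zero => exact ⟨⟨Zg_mem, fun t _ => rfl⟩, fun t _ => rfl⟩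
    | succ n ih =>
      rw [Bs]; exact hn1 n (B n) ih
  have BQ := fun n => hn2 n (B n) (BP n)
  obtain ⟨b, hb, hb1⟩ := exists_limit_right B (fun n => (BP n).1.1) (fun n => 30 * (n + 1 : ℝ) - 5)
    (by intro n; push_cast; linarith)
    (by
      intro t
      obtain ⟨n, hn⟩ := exists_nat_gt t
      refine ⟨n, ?_⟩
      have : (0 : ℝ) ≤ n := Nat.cast_nonneg _
      linarith)
    (by
      intro n t ht
      rw [Bs]; exact (BQ n).1 t ht)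
    (by
      intro u
      obtain ⟨n, hn⟩ := exists_nat_gt u
      refine ⟨n, ?_⟩
      rw [(BP n).2 _ le_rfl]
      have h0 : (0 : ℝ) ≤ n := Nat.cast_nonneg _
      have h1 : Zg (30 * (n : ℤ)) ≤ Zg (30 * (n + 1 : ℝ) - 5) := by
        apply Zg.monotone; push_cast; linarith
      have h2 : Zg (30 * (n : ℤ)) = 30 * (n : ℤ) := by
        by_cases he : Even (n : ℤ)
        · rw [Zg_even he (by linarith) (by linarith)]; ring
        · rw [Zg_odd he (by linarith) (by linarith)]; ring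
      rw [h2] at h1
      push_cast at h1
      linarith)
  refine ⟨b, hb, ?_, ?_, ?_⟩
  · intro t ht
    rw [hb1 0 t (by push_cast; linarith), B0]
  · intro m hm
    obtain ⟨n, rfl⟩ := Int.eq_ofNat_of_zero_le hm
    have h1 := (BQ n).2.1
    rw [← Bs] at h1
    push_cast
    refine h1.congr fun t _ ht => ?_
    exact hb1 (n + 1) t (by push_cast; linarith)
  · intro m hm
    obtain ⟨n, rfl⟩ := Int.eq_ofNat_of_zero_le hm
    have h1 := (BQ n).2.2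
    rw [← Bs] at h1
    push_cast
    refine h1.congr fun t _ ht => ?_
    rw [mul_app, mul_app]
    apply hb1 (n + 1)
    have h2 := dd_abs (n + 1 : ℤ) hεabs
    obtain ⟨h3, h4⟩ := abs_le.mp h2
    have h5 := hfm (n + 1) (by omega) (30 * (n + 1 : ℤ) + dd (n + 1) ε) (by push_cast; linarith)
      (by push_cast; linarith)
    have h6 : f t ≤ f (30 * (n + 1 : ℤ) + dd (n + 1) ε) := f.monotone (by push_cast; exact ht)
    rw [h5] at h6
    have h7 : |ε| ≤ 1 := hεabs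
    obtain ⟨h8, h9⟩ := abs_le.mp h7
    push_cast at h6 ⊢
    linarith

end Pool.Agent.H67
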