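import Pool.Agent.H67.Zig

/-!
Tuning one bump of a perturbed zigzag.
-/

open Filter Topology Set

namespace Pool.Agent.H67

/-- conjugated tuning: from a modification on the right of `g` to one in the middle -/
lemma conj_tune {T b g : G} (hg : g ∈ PLo) {x y β s : ℝ} (hs : s ≤ 5)
    (hg2 : ∀ t, y - 5 ≤ t → t ≤ y → g t = t + β)
    (h : ∃ ω ∈ PLo, ω ∈ Rt (y - s) ∧ ω ∈ Lt y ∧ Bump T (b * g * ω) x y) (hs0 : 0 < s) :
    ∃ ω ∈ PLo, ω ∈ Rt (y + β - s) ∧ ω ∈ Lt (y + β) ∧ Bump T (b * ω * g) x y := by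
  obtain ⟨w, h1, h2, h3, h4⟩ := h
  refine ⟨g * w * g⁻¹, PLo.mul_mem (PLo.mul_mem hg h1) (PLo.inv_mem hg), ?_, ?_, ?_⟩
  · intro t ht
    simp only [mem_Iic] at ht
    simp only [mul_app]
    have e1 : g⁻¹ t ≤ y - s := by
      rw [inv_apply_le, hg2 _ (by linarith) (by linarith)]; linarith
    rw [mem_Rt.mp h2 _ e1]; simp
  · intro t ht
    simp only [mem_Ici] at ht
    simp only [mul_app]
    have e1 : y ≤ g⁻¹ t := by
      rw [le_inv_apply, hg2 _ (by linarith) (by linarith)]; linarith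
    rw [mem_Lt.mp h3 _ e1]; simp
  · have e : b * (g * w * g⁻¹) * g = b * g * w := by group
    rw [e]; exact h4

theorem GI_pos {Z g b : G} (hg : g ∈ PLo) (hb : b ∈ PLo) {α β M s : ℝ} (hα : |α| ≤ 1)
    (hβ : |β| ≤ 1) (hs : 0 < s)
    (hZ1 : ∀ t, M - 10 ≤ t → t ≤ M + 10 → Z t = M + 2 * (t - M))
    (hZ2 : ∀ t, M + 10 ≤ t → t ≤ M + 50 → Z t = M + 30 + (t - M - 30) / 2)
    (hg1 : ∀ t, M - 13 ≤ t → t ≤ M + 13 → g t = t + α)
    (hg2 : ∀ t, M + 17 ≤ t → t ≤ M + 43 → g t = t + β)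
    (hcl : ∀ t, |b t - Z t| ≤ 1 / 10)
    (hx : ∀ t, M - α ≤ t → t ≤ M - α + 1 / 2 → b t = Z t)
    (hy : ∀ t, M + 30 + 2 * β - 1 / 2 ≤ t → t ≤ M + 30 + 2 * β → b t = Z t) :
    ∃ ω ∈ PLo, ω ∈ Rt (M + 30 + 2 * β - s) ∧ ω ∈ Lt (M + 30 + 2 * β) ∧
      Bump T0 (b * ω * g) (M - 2 * α) (M + 30 + β) := by
  obtain ⟨α1, α2⟩ := abs_le.mp hα
  obtain ⟨β1, β2⟩ := abs_le.mp hβ
  have hcl' : ∀ t, Z t - 1 / 10 ≤ b t := fun t => by
    have := (abs_le.mp (hcl t)).1; linarith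
  have hm1 : min s 1 ≤ s := min_le_left _ _
  have hm2 : min s 1 ≤ 1 := min_le_right _ _
  have hm3 : 0 < min s 1 := lt_min hs one_pos
  have e1 : M + 30 + 2 * β = M + 30 + β + β := by ring
  have main : ∃ ω ∈ PLo, ω ∈ Rt (M + 30 + β - min s 1) ∧ ω ∈ Lt (M + 30 + β) ∧
      Bump T0 (b * g * ω) (M - 2 * α) (M + 30 + β) := by
    have c1 : ∀ t, M - 2 * α ≤ t → t ≤ M - 2 * α + 1 / 2 →
        (b * g) t = M - 2 * α + 2 * (t - (M - 2 * α)) := by
      intro t h1 h2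
      rw [mul_app, hg1 t (by linarith) (by linarith), hx _ (by linarith) (by linarith),
        hZ1 _ (by linarith) (by linarith)]
      ring
    have c2 : ∀ t, M + 30 + β - 1 / 2 ≤ t → t ≤ M + 30 + β →
        (b * g) t = M + 30 + β - (M + 30 + β - t) / 2 := by
      intro t h1 h2
      rw [mul_app, hg2 t (by linarith) (by linarith), hy _ (by linarith) (by linarith),
        hZ2 _ (by linarith) (by linarith)]
      ring
    apply tune_pos (PLo.mul_mem hb hg) (η := 1 / 2) (by norm_num) (by linarith) hm3 c1 c2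
    intro t h1 h2
    rcases le_total t (M - 2 * α + 1 / 2) with h3 | h3
    · rw [c1 t h1.le h3]; linarith
    rcases le_total (M + 30 + β - 1 / 2) t with h4 | h4
    · rw [c2 t h4 h2.le]; linarith
    rw [mul_app]
    refine lt_of_lt_of_le ?_ (hcl' _)
    rcases le_total t (M + 13) with h5 | h5
    · rw [hg1 t (by linarith) h5]
      rcases le_total (t + α) (M + 10) with h6 | h6
      · rw [hZ1 _ (by linarith) h6]; linarith
      · rw [hZ2 _ h6 (by linarith)]; linarith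
    rcases le_total t (M + 17) with h6 | h6
    · have e2 : M + 12 ≤ g t := by
        calc M + 12 ≤ g (M + 13) := by rw [hg1 _ (by linarith) le_rfl]; linarith
          _ ≤ g t := g.monotone h5
      have e3 : Z (M + 12) ≤ Z (g t) := Z.monotone e2
      rw [hZ2 _ (by linarith) (by linarith)] at e3
      linarith
    · rw [hg2 t h6 (by linarith), hZ2 _ (by linarith) (by linarith)]
      linarith
  obtain ⟨ω, h1, h2, h3, h4⟩ := conj_tune hg (β := β) (by linarith)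
    (fun t ht1 ht2 => hg2 t (by linarith) (by linarith)) main hm3
  refine ⟨ω, h1, ?_, ?_, h4⟩
  · exact Rt_anti (by linarith) h2
  · rw [e1]; exact h3

theorem GI_neg {Z g b : G} (hg : g ∈ PLo) (hb : b ∈ PLo) {α β M s : ℝ} (hα : |α| ≤ 1)
    (hβ : |β| ≤ 1) (hs : 0 < s)
    (hZ1 : ∀ t, M - 20 ≤ t → t ≤ M + 20 → Z t = M + (t - M) / 2)
    (hZ2 : ∀ t, M + 20 ≤ t → t ≤ M + 40 → Z t = M + 30 + 2 * (t - M - 30))
    (hg1 : ∀ t, M - 13 ≤ t → t ≤ M + 13 → g t = t + α)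
    (hg2 : ∀ t, M + 17 ≤ t → t ≤ M + 43 → g t = t + β)
    (hcl : ∀ t, |b t - Z t| ≤ 1 / 10)
    (hx : ∀ t, M + 2 * α ≤ t → t ≤ M + 2 * α + 1 / 2 → b t = Z t)
    (hy : ∀ t, M + 30 - β - 1 / 2 ≤ t → t ≤ M + 30 - β → b t = Z t) :
    ∃ ω ∈ PLo, ω ∈ Rt (M + 30 - β - s) ∧ ω ∈ Lt (M + 30 - β) ∧
      Bump T0⁻¹ (b * ω * g) (M + α) (M + 30 - 2 * β) := by
  obtain ⟨α1, α2⟩ := abs_le.mp hα
  obtain ⟨β1, β2⟩ := abs_le.mp hβ
  have hcl' : ∀ t, b t ≤ Z t + 1 / 10 := fun t => by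
    have := (abs_le.mp (hcl t)).2; linarith
  have hm1 : min s 1 ≤ s := min_le_left _ _
  have hm2 : min s 1 ≤ 1 := min_le_right _ _
  have hm3 : 0 < min s 1 := lt_min hs one_pos
  have e1 : M + 30 - β = M + 30 - 2 * β + β := by ring
  have main : ∃ ω ∈ PLo, ω ∈ Rt (M + 30 - 2 * β - min s 1) ∧ ω ∈ Lt (M + 30 - 2 * β) ∧
      Bump T0⁻¹ (b * g * ω) (M + α) (M + 30 - 2 * β) := by
    have c1 : ∀ t, M + α ≤ t → t ≤ M + α + 1 / 2 →
        (b * g) t = M + α + (t - (M + α)) / 2 := by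
      intro t h1 h2
      rw [mul_app, hg1 t (by linarith) (by linarith), hx _ (by linarith) (by linarith),
        hZ1 _ (by linarith) (by linarith)]
      ring
    have c2 : ∀ t, M + 30 - 2 * β - 1 / 2 ≤ t → t ≤ M + 30 - 2 * β →
        (b * g) t = M + 30 - 2 * β - 2 * (M + 30 - 2 * β - t) := by
      intro t h1 h2
      rw [mul_app, hg2 t (by linarith) (by linarith), hy _ (by linarith) (by linarith),
        hZ2 _ (by linarith) (by linarith)]
      ring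
    apply tune_neg (PLo.mul_mem hb hg) (η := 1 / 2) (by norm_num) (by linarith) hm3 c1 c2
    intro t h1 h2
    rcases le_total t (M + α + 1 / 2) with h3 | h3
    · rw [c1 t h1.le h3]; linarith
    rcases le_total (M + 30 - 2 * β - 1 / 2) t with h4 | h4
    · rw [c2 t h4 h2.le]; linarith
    rw [mul_app]
    refine lt_of_le_of_lt (hcl' _) ?_
    rcases le_total t (M + 13) with h5 | h5
    · rw [hg1 t (by linarith) h5, hZ1 _ (by linarith) (by linarith)]; linarith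
    rcases le_total t (M + 17) with h6 | h6
    · have e2 : g t ≤ M + 18 := by
        calc g t ≤ g (M + 17) := g.monotone h6
          _ ≤ M + 18 := by rw [hg2 _ le_rfl (by linarith)]; linarith
      have e3 : Z (g t) ≤ Z (M + 18) := Z.monotone e2
      rw [hZ1 (M + 18) (by linarith) (by linarith)] at e3
      linarith
    · rw [hg2 t h6 (by linarith)]
      rcases le_total (t + β) (M + 20) with h7 | h7
      · rw [hZ1 _ (by linarith) h7]; linarith
      · rw [hZ2 _ h7 (by linarith)]; linarith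
  obtain ⟨ω, h1, h2, h3, h4⟩ := conj_tune hg (β := β) (by linarith)
    (fun t ht1 ht2 => hg2 t (by linarith) (by linarith)) main hm3
  refine ⟨ω, h1, ?_, ?_, h4⟩
  · exact Rt_anti (by linarith) h2
  · rw [e1]; exact h3

/-- displacement of the perturbed fixed point -/
noncomputable def dd (m : ℤ) (α : ℝ) : ℝ := if Even m then -2 * α else α

lemma dd_even {m : ℤ} (h : Even m) (α : ℝ) : dd m α = -2 * α := if_pos h
lemma dd_odd {m : ℤ} (h : ¬ Even m) (α : ℝ) : dd m α = α := if_neg h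

lemma dd_zero (m : ℤ) : dd m 0 = 0 := by
  by_cases h : Even m
  · rw [dd_even h]; ring
  · rw [dd_odd h]

lemma dd_neg (m : ℤ) (α : ℝ) : dd (-m) (-α) = -dd m α := by
  by_cases h : Even m
  · rw [dd_even h, dd_even (by simpa using h)]; ring
  · rw [dd_odd h, dd_odd (by simpa using h)]

lemma dd_abs (m : ℤ) {α : ℝ} (h : |α| ≤ 1) : |dd m α| ≤ 3 := by
  obtain ⟨α1, α2⟩ := abs_le.mp h
  by_cases hm : Even m
  · rw [dd_even hm]; exact abs_le.mpr ⟨by linarith, by linarith⟩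
  · rw [dd_odd hm]; exact abs_le.mpr ⟨by linarith, by linarith⟩

theorem GI (m : ℤ) {g b : G} (hg : g ∈ PLo) (hb : b ∈ PLo) {α β s : ℝ} (hα : |α| ≤ 1)
    (hβ : |β| ≤ 1) (hs : 0 < s)
    (hg1 : ∀ t : ℝ, 30 * m - 13 ≤ t → t ≤ 30 * m + 13 → g t = t + α)
    (hg2 : ∀ t : ℝ, 30 * (m + 1 : ℤ) - 13 ≤ t → t ≤ 30 * (m + 1 : ℤ) + 13 → g t = t + β)
    (hcl : ∀ t, |b t - Zg t| ≤ 1 / 10)
    (hx : ∀ t : ℝ, 30 * m + dd m α + α ≤ t → t ≤ 30 * m + dd m α + α + 1 / 2 → b t = Zg t)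
    (hy : ∀ t : ℝ, 30 * (m + 1 : ℤ) + dd (m + 1) β + β - 1 / 2 ≤ t →
      t ≤ 30 * (m + 1 : ℤ) + dd (m + 1) β + β → b t = Zg t) :
    ∃ ω ∈ PLo, ω ∈ Rt (30 * (m + 1 : ℤ) + dd (m + 1) β + β - s) ∧
      ω ∈ Lt (30 * (m + 1 : ℤ) + dd (m + 1) β + β) ∧
      Bump (Sg m) (b * ω * g) (30 * m + dd m α) (30 * (m + 1 : ℤ) + dd (m + 1) β) := by
  have hc : (30 : ℝ) * (m + 1 : ℤ) = 30 * m + 30 := by push_cast; ring
  by_cases hm : Even m
  · have hm1 : ¬ Even (m + 1) := by rw [Int.even_add_one]; simpa using hm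
    rw [hc] at hg2 hy ⊢
    rw [dd_odd hm1] at hy ⊢
    rw [dd_even hm] at hx ⊢
    rw [Sg_even hm]
    obtain ⟨ω, h1, h2, h3, h4⟩ := GI_pos (Z := Zg) (M := 30 * m) hg hb hα hβ hs
      (fun t a b => Zg_even hm a b)
      (fun t a b => by
        rw [Zg_odd hm1 (by rw [hc]; linarith) (by rw [hc]; linarith), hc]; ring)
      hg1 (fun t a b => hg2 t (by linarith) (by linarith)) hcl
      (fun t a b => hx t (by linarith) (by linarith))
      (fun t a b => hy t (by linarith) (by linarith))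
    refine ⟨ω, h1, ?_, ?_, ?_⟩
    · convert h2 using 2; ring
    · convert h3 using 2; ring
    · convert h4 using 1; ring
  · have hm1 : Even (m + 1) := by rw [Int.even_add_one]; exact hm
    rw [hc] at hg2 hy ⊢
    rw [dd_even hm1] at hy ⊢
    rw [dd_odd hm] at hx ⊢
    rw [Sg_odd hm]
    obtain ⟨ω, h1, h2, h3, h4⟩ := GI_neg (Z := Zg) (M := 30 * m) hg hb hα hβ hs
      (fun t a b => Zg_odd hm a b)
      (fun t a b => by
        rw [Zg_even hm1 (by rw [hc]; linarith) (by rw [hc]; linarith), hc]; ring)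
      hg1 (fun t a b => hg2 t (by linarith) (by linarith)) hcl
      (fun t a b => hx t (by linarith) (by linarith))
      (fun t a b => hy t (by linarith) (by linarith))
    refine ⟨ω, h1, ?_, ?_, ?_⟩
    · convert h2 using 2; ring
    · convert h3 using 2; ring
    · convert h4 using 1; ring

end Pool.Agent.H67
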