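import Pool.Agent.H67.Aff

/-!
Reversible elements, reflection, infinite gluing, bumps.
-/

open Filter Topology Set

namespace Pool.Agent.H67

/-- reversible in `PLo` -/
def Rev (g : G) : Prop := g ∈ PLo ∧ ∃ h ∈ PLo, h * g * h⁻¹ = g⁻¹

/-- product of two reversibles -/
def R2 (f : G) : Prop := ∃ a b : G, Rev a ∧ Rev b ∧ f = a * b

lemma Rev.inv {g : G} (hg : Rev g) : Rev g⁻¹ := by
  obtain ⟨h1, h, hh, e⟩ := hg
  refine ⟨PLo.inv_mem h1, h, hh, ?_⟩
  calc h * g⁻¹ * h⁻¹ = (h * g * h⁻¹)⁻¹ := by group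
    _ = g⁻¹⁻¹ := by rw [e]

lemma Rev.conj {g k : G} (hg : Rev g) (hk : k ∈ PLo) : Rev (k * g * k⁻¹) := by
  obtain ⟨h1, h, hh, e⟩ := hg
  refine ⟨PLo.mul_mem (PLo.mul_mem hk h1) (PLo.inv_mem hk), k * h * k⁻¹,
    PLo.mul_mem (PLo.mul_mem hk hh) (PLo.inv_mem hk), ?_⟩
  calc k * h * k⁻¹ * (k * g * k⁻¹) * (k * h * k⁻¹)⁻¹ = k * (h * g * h⁻¹) * k⁻¹ := by group
    _ = (k * g * k⁻¹)⁻¹ := by rw [e]; group

lemma R2.inv {f : G} (hf : R2 f) : R2 f⁻¹ := by
  obtain ⟨a, b, ha, hb, e⟩ := hf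
  exact ⟨b⁻¹, a⁻¹, hb.inv, ha.inv, by rw [e]; group⟩

lemma R2.conj {f k : G} (hf : R2 f) (hk : k ∈ PLo) : R2 (k * f * k⁻¹) := by
  obtain ⟨a, b, ha, hb, e⟩ := hf
  exact ⟨_, _, ha.conj hk, hb.conj hk, by rw [e]; group⟩

lemma R2.of_conj {f k : G} (hk : k ∈ PLo) (hf : R2 (k * f * k⁻¹)) : R2 f := by
  have := hf.conj (PLo.inv_mem hk)
  have e : k⁻¹ * (k * f * k⁻¹) * k⁻¹⁻¹ = f := by group
  rwa [e] at this

lemma R2.of_inv {f : G} (hf : R2 f⁻¹) : R2 f := by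
  have := hf.inv
  rwa [inv_inv] at this

lemma rev_one : Rev 1 := ⟨PLo.one_mem, 1, PLo.one_mem, by simp⟩

/-! ### Reflection -/

/-- conjugation by `x ↦ -x` -/
def rf (f : G) : G where
  toFun t := -f (-t)
  invFun t := -f⁻¹ (-t)
  left_inv t := by simp
  right_inv t := by simp
  map_rel_iff' := by
    intro a b
    simp

@[simp] lemma rf_app (f : G) (t : ℝ) : rf f t = -f (-t) := rfl

lemma rf_mul (f g : G) : rf (f * g) = rf f * rf g := by
  ext t; simp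

lemma rf_inv (f : G) : rf f⁻¹ = (rf f)⁻¹ := by
  ext t
  symm
  rw [inv_apply_eq]; simp

lemma rf_rf (f : G) : rf (rf f) = f := by
  ext t; simp

lemma rf_mem {f : G} (hf : f ∈ PLo) : rf f ∈ PLo := by
  intro x
  constructor
  · obtain ⟨a, ha, y, hy, e⟩ := (hf (-x)).2.exists
    refine ⟨a, ha, ?_⟩
    have : Icc x (-y) ∈ 𝓝[≥] x := Icc_mem_nhdsGE (by linarith)
    filter_upwards [this] with t ht
    rw [rf_app, rf_app, e (-t) (by linarith [ht.2]) (by linarith [ht.1])]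
    ring
  · obtain ⟨a, ha, y, hy, e⟩ := (hf (-x)).1.exists
    refine ⟨a, ha, ?_⟩
    have : Icc (-y) x ∈ 𝓝[≤] x := Icc_mem_nhdsLE (by linarith)
    filter_upwards [this] with t ht
    rw [rf_app, rf_app, e (-t) (by linarith [ht.2]) (by linarith [ht.1])]
    ring

lemma Rev.rf {g : G} (hg : Rev g) : Rev (rf g) := by
  obtain ⟨h1, h, hh, e⟩ := hg
  refine ⟨rf_mem h1, Pool.Agent.H67.rf h, rf_mem hh, ?_⟩
  rw [← rf_inv, ← rf_inv, ← e, rf_mul, rf_mul]

lemma R2.of_rf {f : G} (hf : R2 (rf f)) : R2 f := by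
  obtain ⟨a, b, ha, hb, e⟩ := hf
  refine ⟨Pool.Agent.H67.rf a, Pool.Agent.H67.rf b, ha.rf, hb.rf, ?_⟩
  rw [← rf_mul, ← e, rf_rf]

/-! ### Two sided infinite gluing -/

theorem exists_glueZ (x : ℤ → ℝ) (hx : ∀ n, x n < x (n + 1)) (F : ℤ → G) (hF : ∀ n, F n ∈ PLo)
    (hm : ∀ n, F n (x (n + 1)) = F (n + 1) (x (n + 1)))
    (hex : ∀ t, ∃ n, x n ≤ t ∧ t < x (n + 1))
    (hsu : ∀ u, ∃ n, F n (x n) ≤ u ∧ u < F (n + 1) (x (n + 1))) :
    ∃ g ∈ PLo, ∀ n t, x n ≤ t → t ≤ x (n + 1) → g t = F n t := by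
  have hxm : StrictMono x := strictMono_int_of_lt_succ hx
  choose N hN using hex
  have hNeq : ∀ n t, x n ≤ t → t < x (n + 1) → N t = n := by
    intro n t h1 h2
    have h3 : x n < x (N t + 1) := lt_of_le_of_lt h1 (hN t).2
    have h4 : x (N t) < x (n + 1) := lt_of_le_of_lt (hN t).1 h2
    have h5 := hxm.lt_iff_lt.mp h3
    have h6 := hxm.lt_iff_lt.mp h4
    omega
  let g : ℝ → ℝ := fun t => F (N t) t
  have hg : ∀ n t, x n ≤ t → t ≤ x (n + 1) → g t = F n t := by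
    intro n t h1 h2
    rcases eq_or_lt_of_le h2 with h3 | h3
    · have : N t = n + 1 := hNeq _ _ h3.ge (by rw [h3]; exact hx _)
      change F (N t) t = _
      rw [this, h3, hm]
    · change F (N t) t = _
      rw [hNeq n t h1 h3]
  have hy : StrictMono (fun n => F n (x n)) := by
    apply strictMono_int_of_lt_succ
    intro n
    rw [← hm]
    exact (F n).strictMono (hx n)
  have hmono : StrictMono g := by
    intro s t hst
    have h1 : N s ≤ N t := by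
      have : x (N s) < x (N t + 1) := lt_of_le_of_lt ((hN s).1.trans hst.le) (hN t).2
      have := hxm.lt_iff_lt.mp this
      omega
    rcases eq_or_lt_of_le h1 with h2 | h2
    · change F (N s) s < F (N t) t
      rw [h2]; exact (F _).strictMono hst
    · calc F (N s) s < F (N s) (x (N s + 1)) := (F _).strictMono (hN s).2
        _ = F (N s + 1) (x (N s + 1)) := hm _
        _ ≤ F (N t) (x (N t)) := hy.monotone (by omega)
        _ ≤ F (N t) t := (F _).monotone (hN t).1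
  have hsurj : Function.Surjective g := by
    intro u
    obtain ⟨n, h1, h2⟩ := hsu u
    refine ⟨(F n)⁻¹ u, ?_⟩
    rw [hg n]
    · simp
    · rwa [le_inv_apply]
    · rw [inv_apply_le, hm]; exact h2.le
  let H : G := hmono.orderIsoOfSurjective g hsurj
  have HF : ∀ t, H t = g t := fun t => rfl
  refine ⟨H, ?_, fun n t h1 h2 => by rw [HF, hg n t h1 h2]⟩
  intro y
  have hy1 := (hN y).1
  have hy2 := (hN y).2
  constructor
  · refine (hF (N y) y).1.congr (by rw [HF]) ?_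
    have : Ico y (x (N y + 1)) ∈ 𝓝[≥] y := Ico_mem_nhdsGE hy2
    filter_upwards [this] with t ht
    rw [HF, hg _ _ (hy1.trans ht.1) ht.2.le]
  · rcases eq_or_lt_of_le hy1 with h | h
    · have hn : N y = (N y - 1) + 1 := by ring
      have h1 : x (N y - 1) < y := by
        have := hxm (show N y - 1 < N y by omega)
        linarith
      have h2 : y = x (N y - 1 + 1) := by rw [← hn]; exact h.symm
      refine (hF (N y - 1) y).2.congr (by rw [HF, hg (N y - 1) y h1.le h2.le]) ?_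
      have : Ioc (x (N y - 1)) y ∈ 𝓝[≤] y := Ioc_mem_nhdsLE h1
      filter_upwards [this] with t ht
      rw [HF, hg (N y - 1) t ht.1.le (ht.2.trans h2.le)]
    · refine (hF (N y) y).2.congr (by rw [HF]) ?_
      have : Ioc (x (N y)) y ∈ 𝓝[≤] y := Ioc_mem_nhdsLE h
      filter_upwards [this] with t ht
      rw [HF, hg _ _ ht.1.le (ht.2.trans hy2.le)]

/-! ### Bumps -/

/-- `c` restricted to `[x,y]` is conjugate to `T` restricted to `[0,1]`. -/
def Bump (T c : G) (x y : ℝ) : Prop :=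
  ∃ φ ∈ PLo, φ x = 0 ∧ φ y = 1 ∧ ∀ t, x ≤ t → t ≤ y → φ (c t) = T (φ t)

lemma Bump.congr {T c c' : G} {x y : ℝ} (h : Bump T c x y)
    (e : ∀ t, x ≤ t → t ≤ y → c' t = c t) : Bump T c' x y := by
  obtain ⟨φ, h1, h2, h3, h4⟩ := h
  exact ⟨φ, h1, h2, h3, fun t a b => by rw [e t a b, h4 t a b]⟩

lemma Bump.fix_left {T c : G} {x y : ℝ} (h : Bump T c x y) (hxy : x ≤ y) (hT : T 0 = 0) :
    c x = x := by
  obtain ⟨φ, h1, h2, h3, h4⟩ := h
  apply φ.injective
  rw [h4 x le_rfl hxy, h2, hT]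

lemma Bump.fix_right {T c : G} {x y : ℝ} (h : Bump T c x y) (hxy : x ≤ y) (hT : T 1 = 1) :
    c y = y := by
  obtain ⟨φ, h1, h2, h3, h4⟩ := h
  apply φ.injective
  rw [h4 y hxy le_rfl, h3, hT]

lemma Bump.inv {T c : G} {x y : ℝ} (h : Bump T c x y) (hxy : x ≤ y) (hT0 : T 0 = 0)
    (hT1 : T 1 = 1) : Bump T⁻¹ c⁻¹ x y := by
  have e1 := h.fix_left hxy hT0
  have e2 := h.fix_right hxy hT1
  obtain ⟨φ, h1, h2, h3, h4⟩ := h
  refine ⟨φ, h1, h2, h3, fun t a b => ?_⟩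
  have a' : x ≤ c⁻¹ t := by rw [le_inv_apply, e1]; exact a
  have b' : c⁻¹ t ≤ y := by rw [inv_apply_le, e2]; exact b
  have := h4 _ a' b'
  rw [RelIso.apply_inv_self] at this
  rw [this]; simp

/-- alternating bumps give a reversible element -/
theorem rev_of_bumps (x : ℤ → ℝ) (hx : ∀ n, x n < x (n + 1))
    (hex : ∀ t, ∃ n, x n ≤ t ∧ t < x (n + 1)) (S : ℤ → G) (hS : ∀ n, S (n + 1) = (S n)⁻¹)
    (hS0 : ∀ n, S n 0 = 0) {b : G} (hb : b ∈ PLo)
    (hB : ∀ n, Bump (S n) b (x n) (x (n + 1))) : Rev b := by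
  have e1 : ∀ n, b (x n) = x n := fun n => (hB n).fix_left (hx n).le (hS0 n)
  choose φ p1 p2 p3 p4 using hB
  have q2 : ∀ n, (φ n)⁻¹ 0 = x n := fun n => by rw [inv_apply_eq, p2]
  have q3 : ∀ n, (φ n)⁻¹ 1 = x (n + 1) := fun n => by rw [inv_apply_eq, p3]
  obtain ⟨h, hm, hh⟩ := exists_glueZ x hx (fun n => (φ (n + 1))⁻¹ * φ n)
    (fun n => PLo.mul_mem (PLo.inv_mem (p1 _)) (p1 _)) (by
      intro n
      simp only [mul_app]
      rw [p3, p2, q3, q2]) hex (by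
      intro u
      obtain ⟨n, h1, h2⟩ := hex u
      refine ⟨n - 1, ?_, ?_⟩
      · simp only [mul_app]
        rw [p2, q2]
        simpa using h1
      · simp only [mul_app]
        rw [p2, q2]
        simpa using h2)
  refine ⟨hb, h, hm, ?_⟩
  suffices H : b * (h * b) = h by
    calc h * b * h⁻¹ = b⁻¹ * (b * (h * b)) * h⁻¹ := by group
      _ = b⁻¹ := by rw [H]; group
  ext t
  obtain ⟨n, h1, h2⟩ := hex t
  simp only [mul_app]
  have a1 : x n ≤ b t := by rw [← e1 n]; exact b.monotone h1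
  have a2 : b t ≤ x (n + 1) := by rw [← e1 (n + 1)]; exact b.monotone h2.le
  rw [hh n _ a1 a2, hh n t h1 h2.le]
  simp only [mul_app]
  have a3 := p4 n t h1 h2.le
  have a4 : 0 ≤ φ n (b t) := by rw [← p2 n]; exact (φ n).monotone a1
  have a5 : φ n (b t) ≤ 1 := by rw [← p3 n]; exact (φ n).monotone a2
  have a6 : x (n + 1) ≤ (φ (n + 1))⁻¹ (φ n (b t)) := by
    rw [le_inv_apply, p2]; exact a4
  have a7 : (φ (n + 1))⁻¹ (φ n (b t)) ≤ x (n + 1 + 1) := by
    rw [inv_apply_le, p3]; exact a5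
  apply (φ (n + 1)).injective
  rw [p4 (n + 1) _ a6 a7, RelIso.apply_inv_self, RelIso.apply_inv_self, hS, a3]
  simp

end Pool.Agent.H67
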