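import Pool.Agent.H67.Basic

/-!
Supports, translations and commutation.
-/

open Filter Topology Set

namespace Pool.Agent.H67

@[simp] lemma mul_app (f g : G) (t : ℝ) : (f * g) t = f (g t) := rfl

lemma inv_apply_eq {f : G} {s t : ℝ} : f⁻¹ s = t ↔ s = f t := by
  constructor
  · intro h; rw [← h]; simp
  · intro h; rw [h]; simp

lemma lt_inv_apply {f : G} {s t : ℝ} : s < f⁻¹ t ↔ f s < t := by
  constructor
  · intro h; have := f.strictMono h; simpa using this
  · intro h; have := f⁻¹.strictMono h; simpa using this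

lemma le_inv_apply {f : G} {s t : ℝ} : s ≤ f⁻¹ t ↔ f s ≤ t := by
  constructor
  · intro h; have := f.monotone h; simpa using this
  · intro h; have := f⁻¹.monotone h; simpa using this

lemma inv_apply_lt {f : G} {s t : ℝ} : f⁻¹ s < t ↔ s < f t := by
  constructor
  · intro h; have := f.strictMono h; simpa using this
  · intro h; have := f⁻¹.strictMono h; simpa using this

lemma inv_apply_le {f : G} {s t : ℝ} : f⁻¹ s ≤ t ↔ s ≤ f t := by
  constructor
  · intro h; have := f.monotone h; simpa using this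
  · intro h; have := f⁻¹.monotone h; simpa using this

/-- elements that are the identity on `s` -/
def Fx (s : Set ℝ) : Subgroup G where
  carrier := {g | ∀ t ∈ s, g t = t}
  mul_mem' := by
    intro f g hf hg t ht
    simp only [mul_app]
    rw [hg t ht, hf t ht]
  one_mem' := by intro t _; rfl
  inv_mem' := by
    intro f hf t ht
    rw [inv_apply_eq, hf t ht]

lemma mem_Fx {s : Set ℝ} {g : G} : g ∈ Fx s ↔ ∀ t ∈ s, g t = t := Iff.rfl

lemma Fx_mono {s s' : Set ℝ} (h : s ⊆ s') : Fx s' ≤ Fx s := fun _ hg t ht => hg t (h ht)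

lemma comm_of_Fx {s : Set ℝ} {g h : G} (hg : g ∈ Fx sᶜ) (hh : h ∈ Fx s) : g * h = h * g := by
  ext t
  simp only [mul_app]
  by_cases ht : t ∈ s
  · have h1 : g t ∈ s := by
      by_contra h2
      have h3 : g (g t) = g t := hg _ h2
      have h4 : g t = t := g.injective h3
      rw [h4] at h2; exact h2 ht
    rw [hh t ht, hh _ h1]
  · have h1 : h t ∉ s := by
      intro h2
      have h3 : h (h t) = h t := hh _ h2
      have h4 : h t = t := h.injective h3
      rw [h4] at h2; exact ht h2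
    rw [hg t ht, hg _ h1]

/-- supported on the right of `a` -/
abbrev Rt (a : ℝ) : Subgroup G := Fx (Iic a)
/-- supported on the left of `a` -/
abbrev Lt (a : ℝ) : Subgroup G := Fx (Ici a)

lemma mem_Rt {a : ℝ} {g : G} : g ∈ Rt a ↔ ∀ t, t ≤ a → g t = t := Iff.rfl
lemma mem_Lt {a : ℝ} {g : G} : g ∈ Lt a ↔ ∀ t, a ≤ t → g t = t := Iff.rfl

lemma Rt_anti {a b : ℝ} (h : a ≤ b) : Rt b ≤ Rt a := Fx_mono (Iic_subset_Iic.mpr h)
lemma Lt_mono {a b : ℝ} (h : a ≤ b) : Lt a ≤ Lt b := Fx_mono (Ici_subset_Ici.mpr h)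

/-- disjoint supports commute -/
lemma comm_RL {a b : ℝ} {g h : G} (hg : g ∈ Rt b) (hh : h ∈ Lt a) (hab : a ≤ b) :
    g * h = h * g := by
  apply comm_of_Fx (s := Ici a)
  · refine Fx_mono ?_ hg
    intro t ht
    simp only [mem_compl_iff, mem_Ici, not_le] at ht
    exact (ht.le.trans hab)
  · exact hh

/-- translation by `a` -/
def tr (a : ℝ) : G := OrderIso.addRight a

@[simp] lemma tr_app (a t : ℝ) : tr a t = t + a := rfl

lemma tr_mul (a b : ℝ) : tr a * tr b = tr (a + b) := by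
  ext t; simp only [mul_app, tr_app]; ring

lemma tr_inv (a : ℝ) : (tr a)⁻¹ = tr (-a) := by
  ext t; rw [inv_apply_eq]; simp

@[simp] lemma tr_inv_app (a t : ℝ) : (tr a)⁻¹ t = t - a := by
  rw [tr_inv]; simp [sub_eq_add_neg]

lemma tr_pow (a : ℝ) (n : ℕ) : tr a ^ n = tr (n * a) := by
  induction n with
  | zero => ext t; simp
  | succ n ih => rw [pow_succ, ih, tr_mul]; congr 1; push_cast; ring

lemma tr_mem (a : ℝ) : tr a ∈ PLo := by
  intro x
  refine ⟨⟨1, one_pos, Eventually.of_forall fun t => ?_⟩,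
    ⟨1, one_pos, Eventually.of_forall fun t => ?_⟩⟩
  · simp only [tr_app]; ring
  · simp only [tr_app]; ring

/-- conjugation by a power of the unit translation -/
def sh (n : ℕ) (x : G) : G := tr 1 ^ n * x * (tr 1 ^ n)⁻¹

lemma sh1_def (x : G) : sh 1 x = tr 1 * x * (tr 1)⁻¹ := by
  unfold sh; rw [pow_one]

lemma sh_mul (n : ℕ) (x y : G) : sh n (x * y) = sh n x * sh n y := by
  unfold sh; group

lemma sh_one (n : ℕ) : sh n 1 = 1 := by
  unfold sh; group

lemma sh_inv (n : ℕ) (x : G) : sh n x⁻¹ = (sh n x)⁻¹ := by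
  unfold sh; group

lemma sh_sh (m n : ℕ) (x : G) : sh m (sh n x) = sh (m + n) x := by
  unfold sh; rw [pow_add]; group

lemma sh_zero (x : G) : sh 0 x = x := by
  unfold sh; simp

lemma sh_app (n : ℕ) (x : G) (t : ℝ) : sh n x t = x (t - n) + n := by
  unfold sh
  rw [tr_pow, tr_inv]
  simp only [mul_app, tr_app]
  ring_nf

lemma sh_Rt {a : ℝ} {x : G} (n : ℕ) (hx : x ∈ Rt a) : sh n x ∈ Rt (a + n) := by
  intro t ht
  simp only [mem_Iic] at ht
  rw [sh_app, mem_Rt.mp hx _ (by linarith)]; ring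

lemma sh_Lt {a : ℝ} {x : G} (n : ℕ) (hx : x ∈ Lt a) : sh n x ∈ Lt (a + n) := by
  intro t ht
  simp only [mem_Ici] at ht
  rw [sh_app, mem_Lt.mp hx _ (by linarith)]; ring

lemma sh_mem {x : G} (n : ℕ) (hx : x ∈ PLo) : sh n x ∈ PLo :=
  PLo.mul_mem (PLo.mul_mem (PLo.pow_mem (tr_mem 1) n) hx) (PLo.inv_mem (PLo.pow_mem (tr_mem 1) n))

end Pool.Agent.H67
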