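import Pool.Agent.H67.Rev

/-!
The standard bump and the tuning lemma.
-/

open Filter Topology Set

namespace Pool.Agent.H67

/-- iterates climb -/
lemma iter {g : G} {a b u w : ℝ} (h : ∀ t, a < t → t < b → t < g t) (hu : a < u)
    (hub : u < b) (hw : w < b) : ∃ n : ℕ, w < (g ^ n) u := by
  by_contra hcon
  push Not at hcon
  set s := Set.range (fun n : ℕ => (g ^ n) u) with hs
  have hbdd : BddAbove s := ⟨w, by rintro _ ⟨n, rfl⟩; exact hcon n⟩
  have hne : s.Nonempty := Set.range_nonempty _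
  set L := sSup s with hL
  have h0 : u ≤ L := le_csSup hbdd ⟨0, by simp⟩
  have h1 : L ≤ w := csSup_le hne (by rintro _ ⟨n, rfl⟩; exact hcon n)
  have h2 : L < g L := h L (by linarith) (by linarith)
  have h3 : g⁻¹ L < L := by rw [inv_apply_lt]; exact h2
  obtain ⟨_, ⟨n, rfl⟩, h4⟩ := exists_lt_of_lt_csSup hne h3
  have h5 : L < g ((g ^ n) u) := by rwa [inv_apply_lt] at h4
  have h6 : (g ^ (n + 1)) u ≤ L := le_csSup hbdd ⟨n + 1, rfl⟩
  rw [pow_succ', mul_app] at h6
  linarith

lemma exists_T0 : ∃ h, IsTri h 0 (1 / 3) (2 / 3) 1 :=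
  exists_tri 0 (1 / 3) (2 / 3) 1 (by norm_num) (by norm_num) (by norm_num) (by norm_num)

/-- the standard bump -/
noncomputable def T0 : G := exists_T0.choose

lemma T0_tri : IsTri T0 0 (1 / 3) (2 / 3) 1 := exists_T0.choose_spec

lemma T0_mem : T0 ∈ PLo := T0_tri.mem

lemma T0_zero : T0 0 = 0 := T0_tri.left 0 le_rfl
lemma T0_one : T0 1 = 1 := T0_tri.right 1 le_rfl

lemma T0_low {t : ℝ} (h1 : 0 ≤ t) (h2 : t ≤ 1 / 3) : T0 t = 2 * t := by
  have := T0_tri.a1 t h1 h2
  linarith

lemma T0_high {t : ℝ} (h1 : 1 / 3 ≤ t) (h2 : t ≤ 1) : T0 t = (1 + t) / 2 := by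
  have := T0_tri.a2 t h1 h2
  linarith

lemma T0_pow {t : ℝ} (h1 : 1 / 3 ≤ t) (h2 : t ≤ 1) (K : ℕ) :
    (T0 ^ K) t = 1 - (1 - t) / 2 ^ K := by
  induction K with
  | zero => simp
  | succ K ih =>
    have hp : (1 : ℝ) ≤ 2 ^ K := one_le_pow₀ (by norm_num)
    have h3 : (1 - t) / 2 ^ K ≤ 1 - t := div_le_self (by linarith) hp
    have h4 : 0 ≤ (1 - t) / 2 ^ K := div_nonneg (by linarith) (by positivity)
    rw [pow_succ', mul_app, ih, T0_high (by linarith) (by linarith), pow_succ]
    field_simp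
    ring

lemma T0_pow_zero (K : ℕ) : (T0 ^ K) 0 = 0 := by
  induction K with
  | zero => simp
  | succ K ih => rw [pow_succ', mul_app, ih, T0_zero]

lemma pow_comm_app (c : G) (K : ℕ) (t : ℝ) : (c ^ K)⁻¹ (c t) = c ((c ^ K)⁻¹ t) := by
  have : (c ^ K)⁻¹ * c = c * (c ^ K)⁻¹ := by group
  calc (c ^ K)⁻¹ (c t) = ((c ^ K)⁻¹ * c) t := rfl
    _ = (c * (c ^ K)⁻¹) t := by rw [this]
    _ = _ := rfl

/-- tuning a positive bump near its right end -/
theorem tune_pos {c : G} (hc : c ∈ PLo) {x y η s : ℝ} (hη : 0 < η) (hxy : x + η ≤ y - η)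
    (hs : 0 < s) (hcx : ∀ t, x ≤ t → t ≤ x + η → c t = x + 2 * (t - x))
    (hcy : ∀ t, y - η ≤ t → t ≤ y → c t = y - (y - t) / 2)
    (hgt : ∀ t, x < t → t < y → t < c t) :
    ∃ ω ∈ PLo, ω ∈ Rt (y - s) ∧ ω ∈ Lt y ∧ Bump T0 (c * ω) x y := by
  have cx : c x = x := by rw [hcx x le_rfl (by linarith)]; ring
  have cy : c y = y := by rw [hcy y (by linarith) le_rfl]; ring
  set y0 := x + η / 2 with hy0
  have cy0 : c y0 = x + η := by rw [hcx y0 (by linarith) (by linarith)]; rw [hy0]; ring
  have m1 : min s η ≤ s := min_le_left _ _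
  have m2 : min s η ≤ η := min_le_right _ _
  have m3 : 0 < min s η := lt_min hs hη
  obtain ⟨K, hK⟩ := iter (w := y - min s η) hgt (show x < y0 by linarith)
    (show y0 < y by linarith) (by linarith)
  have pow_fix : ∀ z, c z = z → ∀ n : ℕ, (c ^ n) z = z := by
    intro z hz n
    induction n with
    | zero => rfl
    | succ n ih => rw [pow_succ', mul_app, ih, hz]
  set yK := (c ^ K) y0 with hyK
  set yL := (c ^ K) (x + η) with hyL
  have cyK : c yK = yL := by
    rw [hyK, hyL, ← cy0, ← mul_app, ← mul_app, ← pow_succ', pow_succ]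
  have hKy : yK < y := by
    rw [hyK, ← pow_fix y cy K]; exact (c ^ K).strictMono (by linarith)
  have hKL : yK < yL := (c ^ K).strictMono (by linarith)
  have hLy : yL < y := by
    have : yL < (c ^ K) y := (c ^ K).strictMono (by linarith)
    rwa [pow_fix y cy K] at this
  have hxK : x < yK := by
    have : (c ^ K) x < yK := (c ^ K).strictMono (by linarith)
    rwa [pow_fix x cx K] at this
  have icK : (c ^ K)⁻¹ yK = y0 := by rw [hyK]; simp
  have icL : (c ^ K)⁻¹ yL = x + η := by rw [hyL]; simp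
  -- the modification
  obtain ⟨A, hA, A1, A2, A3⟩ := exists_aff y0 (x + η) yK yL (by linarith) hKL
  obtain ⟨C, hC, C1, C2⟩ := exists_glue PLo.one_mem
    (PLo.mul_mem hA (PLo.inv_mem (PLo.pow_mem hc K))) yK (by
      simp only [mul_app]; rw [icK, A1]; rfl)
  obtain ⟨ω, hω, ω1, ω2⟩ := exists_glue hC PLo.one_mem yL (by
      rw [C2 _ hKL.le]; simp only [mul_app]; rw [icL, A2]; rfl)
  have wlow : ∀ t, t ≤ yK → ω t = t := fun t ht => by
    rw [ω1 t (by linarith), C1 t ht]; rfl
  have wmid : ∀ t, yK ≤ t → t ≤ yL → ω t = A ((c ^ K)⁻¹ t) := fun t h1 h2 => by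
    rw [ω1 t h2, C2 t h1]; rfl
  have whigh : ∀ t, yL ≤ t → ω t = t := fun t ht => by
    rw [ω2 t ht]; rfl
  -- the conjugacy
  obtain ⟨f0, hf0, f01, f02, f03⟩ := exists_aff x y0 0 (1 / 3) (by linarith) (by norm_num)
  have f0f : ∀ t, f0 t = 2 / 3 * (t - x) / η := by
    intro t
    have e1 : f0 t * (y0 - x) = 0 * (y0 - t) + 1 / 3 * (t - x) := by
      rcases le_total t x with h | h
      · have e2 := f03 t y0 x (by linarith) (by linarith)
        rw [f01, f02] at e2
        have e3 : (f0 t * (y0 - x) - 1 / 3 * (t - x)) * 1 = 0 := by linarith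
        linarith
      · rcases le_total t y0 with h' | h'
        · have e2 := f03 x y0 t h h'
          rw [f01, f02] at e2
          exact e2
        · have e2 := f03 x t y0 (by linarith) h'
          rw [f01, f02] at e2
          linarith
    rw [hy0] at e1
    field_simp
    linarith
  have f0r : f0 (x + η) = 2 / 3 := by rw [f0f]; field_simp; ring
  set q : ℝ := (1 / 3) / 2 ^ K with hq
  have hqpos : 0 < q := by positivity
  have hq3 : q ≤ 1 / 3 := div_le_self (by norm_num) (one_le_pow₀ (by norm_num))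
  obtain ⟨B, hB, B1, B2, B3⟩ := exists_aff yL y (1 - q) 1 hLy (by linarith)
  have hTK : (T0 ^ K) (2 / 3) = 1 - q := by
    rw [T0_pow (by norm_num) (by norm_num), hq]; norm_num
  obtain ⟨φ, hφ, φ1, φ2⟩ := exists_glue
    (PLo.mul_mem (PLo.mul_mem (PLo.pow_mem T0_mem K) hf0) (PLo.inv_mem (PLo.pow_mem hc K)))
    hB yL (by simp only [mul_app]; rw [icL, f0r, hTK, B1])
  -- B in halving form
  have Bf : ∀ t, yL ≤ t → t ≤ y → B t * (y - yL) = (1 - q) * (y - t) + 1 * (t - yL) := by
    intro t h1 h2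
    have := B3 yL y t h1 h2
    rwa [B1, B2] at this
  have Bhalf : ∀ t, yL ≤ t → t ≤ y → B (y - (y - t) / 2) = (1 + B t) / 2 := by
    intro t h1 h2
    have e1 := Bf t h1 h2
    have e2 := Bf (y - (y - t) / 2) (by linarith) (by linarith)
    have e3 : (B (y - (y - t) / 2) - (1 + B t) / 2) * (y - yL) = 0 := by
      linear_combination e2 - e1 / 2
    rcases mul_eq_zero.mp e3 with e4 | e4 <;> linarith
  refine ⟨ω, hω, ?_, fun t ht => whigh t (by simp only [mem_Ici] at ht; linarith), φ, hφ, ?_, ?_, ?_⟩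
  · intro t ht
    exact wlow t (by simp only [mem_Iic] at ht; linarith)
  · rw [φ1 x (by linarith)]
    simp only [mul_app]
    have : (c ^ K)⁻¹ x = x := by rw [inv_apply_eq, pow_fix x cx]
    rw [this, f01, T0_pow_zero]
  · rw [φ2 y hLy.le, B2]
  · intro t h1 h2
    simp only [mul_app]
    rcases le_total t yK with c1 | c1
    · rw [wlow t c1, φ1 t (by linarith), φ1 (c t) (by rw [← cyK]; exact c.monotone c1)]
      simp only [mul_app]
      rw [pow_comm_app]
      set u := (c ^ K)⁻¹ t with hu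
      have u1 : x ≤ u := by
        rw [hu, le_inv_apply, pow_fix x cx]; exact h1
      have u2 : u ≤ y0 := by rw [hu, inv_apply_le]; exact c1
      rw [hcx u u1 (by linarith)]
      have e1 : f0 (x + 2 * (u - x)) = T0 (f0 u) := by
        have e2 : 0 ≤ f0 u := by rw [← f01]; exact f0.monotone u1
        have e3 : f0 u ≤ 1 / 3 := by rw [← f02]; exact f0.monotone u2
        rw [T0_low e2 e3, f0f, f0f]; ring
      rw [e1]
      have e4 : T0 ^ K * T0 = T0 * T0 ^ K := by rw [← pow_succ, pow_succ']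
      have e5 := DFunLike.congr_fun e4 (f0 u)
      simpa only [mul_app] using e5
    rcases le_total t yL with c2 | c2
    · rw [wmid t c1 c2, φ1 t c2]
      simp only [mul_app]
      set u := (c ^ K)⁻¹ t with hu
      have u1 : y0 ≤ u := by rw [hu, le_inv_apply]; exact c1
      have u2 : u ≤ x + η := by rw [hu, inv_apply_le]; exact c2
      have w1 : yK ≤ A u := by rw [← A1]; exact A.monotone u1
      have w2 : A u ≤ yL := by rw [← A2]; exact A.monotone u2
      have w3 : yL ≤ c (A u) := by rw [← cyK]; exact c.monotone w1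
      rw [φ2 _ w3]
      have hy0x : y0 < x + η := by linarith
      have a1 : AffOn A y0 (x + η) yK yL := by
        have := A3 y0 (x + η)
        rwa [A1, A2] at this
      have a2 : AffOn c yK yL yL (y - (y - yL) / 2) := by
        intro r r1 r2
        have e1 := cyK
        rw [hcy yK (by linarith) (by linarith)] at e1
        rw [hcy r (by linarith) (by linarith), ← e1]
        ring
      have a3 : AffOn B yL (y - (y - yL) / 2) (1 - q) (1 - q / 2) := by
        have := B3 yL (y - (y - yL) / 2)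
        rw [B1, Bhalf yL le_rfl hLy.le, B1] at this
        convert this using 1
        ring
      have a4 : AffOn f0 y0 (x + η) (1 / 3) (2 / 3) := by
        have := f03 y0 (x + η)
        rwa [f02, f0r] at this
      have a5 : AffOn (T0 ^ (K + 1)) (1 / 3) (2 / 3) (1 - q) (1 - q / 2) := by
        intro r r1 r2
        rw [T0_pow r1 (by linarith), hq, pow_succ]
        field_simp
        ring
      have a6 := ((a1.comp a2 hy0x).comp a3 hy0x).eq (a4.comp a5 hy0x) hy0x u1 u2
      simp only [mul_app] at a6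
      rw [a6, pow_succ', mul_app]
    · have e1 : yL ≤ c t := by
        rcases eq_or_lt_of_le h2 with h3 | h3
        · rw [h3, cy]; exact hLy.le
        · exact c2.trans (hgt t (by linarith) h3).le
      rw [whigh t c2, φ2 _ e1, φ2 _ c2, hcy t (by linarith) h2, Bhalf t c2 h2]
      have e2 : 1 / 3 ≤ B t := by
        have : B yL ≤ B t := B.monotone c2
        rw [B1] at this; linarith
      have e3 : B t ≤ 1 := by rw [← B2]; exact B.monotone h2
      rw [T0_high e2 e3]

end Pool.Agent.H67
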