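import Pool.Agent.H67.Tune

/-!
The zigzag map and its bumps; negative tuning.
-/

open Filter Topology Set

namespace Pool.Agent.H67

/-- tuning a negative bump near its right end -/
theorem tune_neg {c : G} (hc : c ∈ PLo) {x y η s : ℝ} (hη : 0 < η) (hxy : x + η ≤ y - η)
    (hs : 0 < s) (hcx : ∀ t, x ≤ t → t ≤ x + η → c t = x + (t - x) / 2)
    (hcy : ∀ t, y - η ≤ t → t ≤ y → c t = y - 2 * (y - t))
    (hgt : ∀ t, x < t → t < y → c t < t) :
    ∃ ω ∈ PLo, ω ∈ Rt (y - s) ∧ ω ∈ Lt y ∧ Bump T0⁻¹ (c * ω) x y := by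
  have cx : c x = x := by rw [hcx x le_rfl (by linarith)]; ring
  have cy : c y = y := by rw [hcy y (by linarith) le_rfl]; ring
  set s' := min s ((y - x) / 2) with hs'
  have s1 : s' ≤ s := min_le_left _ _
  have s2 : s' ≤ (y - x) / 2 := min_le_right _ _
  have s3 : 0 < s' := lt_min hs (by linarith)
  have h1 : ∀ t, x ≤ t → t ≤ x + η / 2 → c⁻¹ t = x + 2 * (t - x) := by
    intro t a b
    rw [inv_apply_eq, hcx _ (by linarith) (by linarith)]; ring
  have h2 : ∀ t, y - η / 2 ≤ t → t ≤ y → c⁻¹ t = y - (y - t) / 2 := by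
    intro t a b
    rw [inv_apply_eq, hcy _ (by linarith) (by linarith)]; ring
  have h3 : ∀ t, x < t → t < y → t < c⁻¹ t := by
    intro t a b
    rw [lt_inv_apply]; exact hgt t a b
  obtain ⟨w, hw, w1, w2, w3⟩ := tune_pos (PLo.inv_mem hc) (η := η / 2) (by linarith)
    (by linarith) s3 h1 h2 h3
  have w4 := w3.inv (by linarith) T0_zero T0_one
  refine ⟨c⁻¹ * w⁻¹ * c, PLo.mul_mem (PLo.mul_mem (PLo.inv_mem hc) (PLo.inv_mem hw)) hc, ?_, ?_, ?_⟩
  · intro t ht
    simp only [mem_Iic] at ht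
    have e1 : c t ≤ y - s' := by
      calc c t ≤ c (y - s') := c.monotone (by linarith)
        _ ≤ y - s' := (hgt _ (by linarith) (by linarith)).le
    simp only [mul_app]
    have e2 : w⁻¹ (c t) = c t := by rw [inv_apply_eq, mem_Rt.mp w1 _ e1]
    rw [e2]; simp
  · intro t ht
    simp only [mem_Ici] at ht
    have e1 : y ≤ c t := by
      calc y = c y := cy.symm
        _ ≤ c t := c.monotone ht
    simp only [mul_app]
    have e2 : w⁻¹ (c t) = c t := by rw [inv_apply_eq, mem_Lt.mp w2 _ e1]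
    rw [e2]; simp
  · have e : c * (c⁻¹ * w⁻¹ * c) = (c⁻¹ * w)⁻¹ := by group
    rw [e]; exact w4

/-- the alternating sequence of standard bumps -/
noncomputable def Sg (n : ℤ) : G := if Even n then T0 else T0⁻¹

lemma Sg_even {n : ℤ} (h : Even n) : Sg n = T0 := if_pos h
lemma Sg_odd {n : ℤ} (h : ¬ Even n) : Sg n = T0⁻¹ := if_neg h

lemma Sg_succ (n : ℤ) : Sg (n + 1) = (Sg n)⁻¹ := by
  by_cases h : Even n
  · rw [Sg_even h, Sg_odd]
    rw [Int.even_add_one]; simpa using h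
  · rw [Sg_odd h, Sg_even, inv_inv]
    rw [Int.even_add_one]; exact h

lemma Sg_zero (n : ℤ) : Sg n 0 = 0 := by
  by_cases h : Even n
  · rw [Sg_even h, T0_zero]
  · rw [Sg_odd h, inv_apply_eq, T0_zero]

lemma Sg_one (n : ℤ) : Sg n 1 = 1 := by
  by_cases h : Even n
  · rw [Sg_even h, T0_one]
  · rw [Sg_odd h, inv_apply_eq, T0_one]

lemma exists_zig : ∃ Z ∈ PLo, ∀ k : ℤ,
    (∀ t : ℝ, 60 * k - 10 ≤ t → t ≤ 60 * k + 10 → Z t = 60 * k + 2 * (t - 60 * k)) ∧
    (∀ t : ℝ, 60 * k + 10 ≤ t → t ≤ 60 * k + 50 → Z t = 60 * k + 15 + (t - 60 * k) / 2) := by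
  have h1 : ∀ k : ℤ, ∃ F ∈ PLo,
      (∀ t : ℝ, t ≤ 60 * k + 10 → F t = 60 * k + 2 * (t - 60 * k)) ∧
      (∀ t : ℝ, 60 * k + 10 ≤ t → F t = 60 * k + 15 + (t - 60 * k) / 2) := by
    intro k
    obtain ⟨A, hA, A1⟩ := exists_affine 2 (-(60 * k)) (by norm_num)
    obtain ⟨B, hB, B1⟩ := exists_affine (1 / 2) (30 * k + 15) (by norm_num)
    obtain ⟨F, hF, F1, F2⟩ := exists_glue hA hB (60 * k + 10) (by rw [A1, B1]; ring)
    refine ⟨F, hF, fun t ht => ?_, fun t ht => ?_⟩
    · rw [F1 t ht, A1]; ring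
    · rw [F2 t ht, B1]; ring
  choose F f1 f2 f3 using h1
  obtain ⟨Z, hZ, e⟩ := exists_glueZ (fun k => 60 * k - 10) (by intro n; push_cast; linarith) F f1
    (by
      intro n
      rw [f3 n _ (by push_cast; linarith), f2 (n + 1) _ (by push_cast; linarith)]
      push_cast; ring)
    (by
      intro t
      refine ⟨⌊(t + 10) / 60⌋, ?_, ?_⟩
      · have := Int.floor_le ((t + 10) / 60)
        linarith
      · have := Int.lt_floor_add_one ((t + 10) / 60)
        push_cast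
        linarith)
    (by
      intro u
      refine ⟨⌊(u + 20) / 60⌋, ?_, ?_⟩
      · rw [f2 _ _ (by linarith)]
        have := Int.floor_le ((u + 20) / 60)
        linarith
      · rw [f2 _ _ (by push_cast; linarith)]
        have := Int.lt_floor_add_one ((u + 20) / 60)
        push_cast
        linarith)
  refine ⟨Z, hZ, fun k => ⟨fun t h1 h2 => ?_, fun t h1 h2 => ?_⟩⟩
  · rw [e k t h1 (by push_cast; linarith), f2 k t h2]
  · rw [e k t (by linarith) (by push_cast; linarith), f3 k t h1]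

/-- the zigzag map -/
noncomputable def Zg : G := exists_zig.choose

lemma Zg_mem : Zg ∈ PLo := exists_zig.choose_spec.1

lemma Zg_spec (k : ℤ) :
    (∀ t : ℝ, 60 * k - 10 ≤ t → t ≤ 60 * k + 10 → Zg t = 60 * k + 2 * (t - 60 * k)) ∧
    (∀ t : ℝ, 60 * k + 10 ≤ t → t ≤ 60 * k + 50 → Zg t = 60 * k + 15 + (t - 60 * k) / 2) :=
  exists_zig.choose_spec.2 k

lemma Zg_even {m : ℤ} (hm : Even m) {t : ℝ} (h1 : 30 * m - 10 ≤ t) (h2 : t ≤ 30 * m + 10) :
    Zg t = 30 * m + 2 * (t - 30 * m) := by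
  obtain ⟨k, hk⟩ := hm
  have hk' : (m : ℝ) = k + k := by rw [hk]; push_cast; ring
  rw [(Zg_spec k).1 t (by linarith) (by linarith), hk']; ring

lemma Zg_odd {m : ℤ} (hm : ¬ Even m) {t : ℝ} (h1 : 30 * m - 20 ≤ t) (h2 : t ≤ 30 * m + 20) :
    Zg t = 30 * m + (t - 30 * m) / 2 := by
  rw [Int.not_even_iff_odd] at hm
  obtain ⟨k, hk⟩ := hm
  have hk' : (m : ℝ) = 2 * k + 1 := by rw [hk]; push_cast; ring
  rw [(Zg_spec k).2 t (by linarith) (by linarith), hk']; ring

lemma cover (t : ℝ) : ∃ m : ℤ, (Even m ∧ 30 * m - 10 ≤ t ∧ t ≤ 30 * m + 10) ∨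
    (¬ Even m ∧ 30 * m - 20 ≤ t ∧ t ≤ 30 * m + 20) := by
  set k := ⌊(t + 10) / 60⌋ with hk
  have h1 := Int.floor_le ((t + 10) / 60)
  have h2 := Int.lt_floor_add_one ((t + 10) / 60)
  rw [← hk] at h1 h2
  rcases le_total t (60 * k + 10) with h | h
  · refine ⟨2 * k, Or.inl ⟨even_two_mul k, ?_, ?_⟩⟩
    · push_cast; linarith
    · push_cast; linarith
  · refine ⟨2 * k + 1, Or.inr ⟨?_, ?_, ?_⟩⟩
    · rw [Int.not_even_iff_odd]; exact odd_two_mul_add_one k
    · push_cast; linarith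
    · push_cast; linarith

lemma rf_Zg : rf Zg = Zg := by
  ext t
  obtain ⟨m, ⟨hm, h1, h2⟩ | ⟨hm, h1, h2⟩⟩ := cover t
  · rw [rf_app, Zg_even hm h1 h2, Zg_even (m := -m) (by simpa using hm) (by push_cast; linarith)
      (by push_cast; linarith)]
    push_cast; ring
  · rw [rf_app, Zg_odd hm h1 h2, Zg_odd (m := -m) (by simpa using hm) (by push_cast; linarith)
      (by push_cast; linarith)]
    push_cast; ring

lemma Zg_bump (m : ℤ) : Bump (Sg m) Zg (30 * m) (30 * (m + 1 : ℤ)) := by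
  obtain ⟨φ, hφ, φ1, φ2, φ3⟩ := exists_interp (30 * m) (30 * (m + 1 : ℤ)) 0 1
    (by push_cast; linarith) (by norm_num)
  have φ4 : ∀ t, φ t = (t - 30 * m) / 30 := by
    intro t
    rw [φ3 t]; push_cast; ring
  refine ⟨φ, hφ, φ1, φ2, fun t h1 h2 => ?_⟩
  push_cast at h2
  by_cases hm : Even m
  · rw [Sg_even hm]
    rcases le_total t (30 * m + 10) with h | h
    · rw [Zg_even hm (by linarith) h, φ4, φ4, T0_low]
      · ring
      · linarith
      · linarith
    · rw [Zg_odd (m := m + 1) (by rw [Int.even_add_one]; simpa using hm) (by push_cast; linarith)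
        (by push_cast; linarith), φ4, φ4, T0_high]
      · push_cast; ring
      · linarith
      · linarith
  · rw [Sg_odd hm]
    symm
    rw [inv_apply_eq]
    rcases le_total t (30 * m + 20) with h | h
    · rw [Zg_odd hm (by linarith) h, φ4, φ4, T0_low]
      · ring
      · linarith
      · linarith
    · rw [Zg_even (m := m + 1) (by rw [Int.even_add_one]; exact hm) (by push_cast; linarith)
        (by push_cast; linarith), φ4, φ4, T0_high]
      · push_cast; ring
      · push_cast; linarith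
      · push_cast; linarith

lemma hex_of_near (x : ℤ → ℝ) (h : ∀ n : ℤ, |x n - 30 * n| ≤ 3) :
    (∀ n, x n < x (n + 1)) ∧ ∀ t, ∃ n, x n ≤ t ∧ t < x (n + 1) := by
  have h' : ∀ n : ℤ, 30 * n - 3 ≤ x n ∧ x n ≤ 30 * n + 3 := by
    intro n
    have := abs_le.mp (h n)
    constructor <;> linarith [this.1, this.2]
  constructor
  · intro n
    have a := h' n
    have b := h' (n + 1)
    push_cast at b
    linarith [a.1, a.2, b.1, b.2]
  · intro t
    set n := ⌊t / 30⌋ with hn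
    have h1 := Int.floor_le (t / 30)
    have h2 := Int.lt_floor_add_one (t / 30)
    rw [← hn] at h1 h2
    have a := h' n
    have b := h' (n + 1)
    have c := h' (n - 1)
    have d := h' (n + 1 + 1)
    push_cast at b c d
    rcases lt_or_ge t (x n) with h3 | h3
    · refine ⟨n - 1, by linarith [c.2], ?_⟩
      have : n - 1 + 1 = n := by ring
      rw [this]; exact h3
    rcases lt_or_ge t (x (n + 1)) with h4 | h4
    · exact ⟨n, h3, h4⟩
    · exact ⟨n + 1, h4, by linarith [d.1]⟩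

lemma Zg_rev : Rev Zg := by
  obtain ⟨h1, h2⟩ := hex_of_near (fun n => 30 * n) (by intro n; simp)
  exact rev_of_bumps (fun n => 30 * n) h1 h2 Sg Sg_succ Sg_zero Zg_mem Zg_bump

end Pool.Agent.H67
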